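import Pool.Agent.Lib.VR29.Defs

/-!
# BM1: one-dimensional Brunn-Minkowski

PROOF. Inner regularity (`MeasurableSet.exists_lt_isCompact` or `measure_eq_iSup_isCompact`): it is enough to show
`(volume A' + volume B') / 2 <= volume C` for compact `A' ⊆ A`, `B' ⊆ B`; if `A'` is empty replace it by a point of `A` (volume 0),
same for `B'`, so both are nonempty. Let `a0 = sSup A' ∈ A'`, `b0 = sInf B' ∈ B'`. The two sets `{(a + b0)/2 : a ∈ A'}` and
`{(a0 + b)/2 : b ∈ B'}` are compact, contained in `C`, the first lies in `(-∞, (a0+b0)/2]`, the second in `[(a0+b0)/2, ∞)`, so their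
intersection has at most one point (measure 0) and the measure of the union is the sum `volume A' / 2 + volume B' / 2`
(images under `x ↦ (x + b0)/2`: `Real.volume_preimage_mul_left`, `Measure.addHaar_image_homothety`, or `Real.map_volume_mul_left`).
-/

set_option autoImplicit false

open MeasureTheory Set

open scoped ENNReal NNReal

noncomputable section

namespace VR29

namespace BM1Aux

theorem vol_half (A : Set ℝ) (b : ℝ) :
    volume ((fun a : ℝ => (a + b) / 2) '' A) = volume A / 2 := by
  have e : (fun a : ℝ => (a + b) / 2) '' A =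
      (fun y : ℝ => 2 * y) ⁻¹' ((fun z : ℝ => z + (-b)) ⁻¹' A) := by
    ext y
    simp only [mem_image, mem_preimage]
    constructor
    · rintro ⟨a, ha, rfl⟩
      have : 2 * ((a + b) / 2) + -b = a := by ring
      rwa [this]
    · intro h
      exact ⟨_, h, by ring⟩
  rw [e, Real.volume_preimage_mul_left (by norm_num), measure_preimage_add_right,
    abs_of_pos (by norm_num), ENNReal.ofReal_inv_of_pos (by norm_num), ENNReal.div_eq_inv_mul]
  simp

theorem core (A B C : Set ℝ) (hA : IsCompact A) (hB : IsCompact B) (hAn : A.Nonempty)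
    (hBn : B.Nonempty) (h : ∀ a ∈ A, ∀ b ∈ B, (a + b) / 2 ∈ C) :
    volume A + volume B ≤ 2 * volume C := by
  have ha0 := hA.sSup_mem hAn
  have hb0 := hB.sInf_mem hBn
  have hS : (fun a : ℝ => (a + sInf B) / 2) '' A ⊆ C := by
    rintro _ ⟨a, ha, rfl⟩
    exact h a ha _ hb0
  have hT : (fun b : ℝ => (b + sSup A) / 2) '' B ⊆ C := by
    rintro _ ⟨b, hb, rfl⟩
    have := h _ ha0 b hb
    rwa [add_comm] at this
  have hd : AEDisjoint volume ((fun a : ℝ => (a + sInf B) / 2) '' A)
      ((fun b : ℝ => (b + sSup A) / 2) '' B) := by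
    refine measure_mono_null (t := {(sSup A + sInf B) / 2}) ?_ (by simp)
    rintro _ ⟨⟨a, ha, rfl⟩, ⟨b, hb, hab⟩⟩
    have h1 := hA.bddAbove
    have h2 := hB.bddBelow
    have h3 : a ≤ sSup A := le_csSup h1 ha
    have h4 : sInf B ≤ b := csInf_le h2 hb
    simp only [mem_singleton_iff]
    simp only at hab
    linarith
  have hm : MeasurableSet ((fun b : ℝ => (b + sSup A) / 2) '' B) :=
    (hB.image (by fun_prop)).measurableSet
  have hu := measure_union₀ hm.nullMeasurableSet hd
  have hle : volume A / 2 + volume B / 2 ≤ volume C := by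
    rw [← vol_half A (sInf B), ← vol_half B (sSup A), ← hu]
    exact measure_mono (union_subset hS hT)
  have h2 : volume A + volume B = 2 * (volume A / 2 + volume B / 2) := by
    rw [mul_add, ENNReal.mul_div_cancel (by norm_num) (by norm_num),
      ENNReal.mul_div_cancel (by norm_num) (by norm_num)]
  rw [h2]
  gcongr

theorem exists_compact {A : Set ℝ} (hA : MeasurableSet A) {x : ℝ≥0∞} (hx : x < volume A) :
    ∃ K ⊆ A, IsCompact K ∧ K.Nonempty ∧ x < volume K := by
  obtain ⟨K, hK, hc, hlt⟩ := hA.exists_lt_isCompact hx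
  refine ⟨K, hK, hc, ?_, hlt⟩
  rw [nonempty_iff_ne_empty]
  rintro rfl
  simp at hlt

theorem two (A B C : Set ℝ) (hA : MeasurableSet A) (hB : MeasurableSet B) (hAn : A.Nonempty)
    (hBn : B.Nonempty) (h : ∀ a ∈ A, ∀ b ∈ B, (a + b) / 2 ∈ C) :
    volume A + volume B ≤ 2 * volume C := by
  by_contra hcon
  rw [not_le] at hcon
  obtain ⟨a, ha⟩ := hAn
  obtain ⟨b, hb⟩ := hBn
  by_cases h1 : volume A = 0
  · rw [h1, zero_add] at hcon
    obtain ⟨K, hK, hc, hn, hlt⟩ := exists_compact hB hcon
    have := core {a} K C isCompact_singleton hc (singleton_nonempty a) hn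
      (fun x hx y hy => h x (by rw [mem_singleton_iff.1 hx]; exact ha) y (hK hy))
    have h3 : volume K ≤ 2 * volume C := le_trans (le_add_self) this
    exact absurd h3 (not_le.2 hlt)
  by_cases h2 : volume B = 0
  · rw [h2, add_zero] at hcon
    obtain ⟨K, hK, hc, hn, hlt⟩ := exists_compact hA hcon
    have := core K {b} C hc isCompact_singleton hn (singleton_nonempty b)
      (fun x hx y hy => h x (hK hx) y (by rw [mem_singleton_iff.1 hy]; exact hb))
    have h3 : volume K ≤ 2 * volume C := le_trans (le_self_add) this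
    exact absurd h3 (not_le.2 hlt)
  obtain ⟨y, hy, z, hz, hyz⟩ := ENNReal.exists_lt_add_of_lt_add hcon h1 h2
  obtain ⟨K, hK, hc, hn, hlt⟩ := exists_compact hA hy
  obtain ⟨L, hL, hLc, hLn, hLlt⟩ := exists_compact hB hz
  have := core K L C hc hLc hn hLn (fun x hx y hy => h x (hK hx) y (hL hy))
  exact absurd (lt_of_lt_of_le hyz (add_le_add hlt.le hLlt.le)) (not_lt.2 this)

end BM1Aux

theorem bm1 (A B C : Set ℝ) (hA : MeasurableSet A) (hB : MeasurableSet B) (hAn : A.Nonempty)
    (hBn : B.Nonempty) (h : ∀ a ∈ A, ∀ b ∈ B, (a + b) / 2 ∈ C) :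
    (volume A + volume B) / 2 ≤ volume C := by
  have := BM1Aux.two A B C hA hB hAn hBn h
  rw [ENNReal.div_le_iff_le_mul (Or.inl (by norm_num)) (Or.inl (by norm_num)), mul_comm]
  exact this

end VR29

end
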