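import Pool.Agent.Lib.VR29.PL1

/-!
# BMn: multiplicative Brunn-Minkowski inequality in `ℝ^n`

PROOF. Induction on `n`. `n = 0`: `Fin 0 → ℝ` is a single point with volume 1 (`volume` of a subset is 0 or 1): if `A` or `B` is empty
the left side is 0, otherwise `C` is nonempty, so `C = univ` and both sides are 1.
Step: use `vol_slice 0` for `A, B, C` with `f s = volume {x | ins 0 s x ∈ A}`, `g`, `h` (measurable by `measurable_slice`; bounded because `A ⊆ [-r,r]^(n+1)`
gives `f s ≤ volume (Icc (-r) r : Set (Fin n → ℝ)) = (2r)^n < ⊤`). For `s, t`: the slices `A_s, B_t, C_((s+t)/2)` satisfy the hypothesis of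
the induction (`ins 0 s x ∈ A`, `ins 0 t y ∈ B` => midpoint `= ins 0 ((s+t)/2) (midpoint of x,y) ∈ C`; slices are measurable
(`measurableSet_slice`) and bounded), so `f s * g t ≤ h((s+t)/2)^2`. Apply `pl1`.
-/

set_option autoImplicit false

open MeasureTheory Set

open scoped ENNReal NNReal

noncomputable section

namespace VR29

namespace BMnAux

theorem slice_sub {n : ℕ} {A : Set (Fin (n + 1) → ℝ)} {r : ℝ} (hr : ∀ z ∈ A, ∀ i, |z i| ≤ r)
    (s : ℝ) : {x : Fin n → ℝ | ins 0 s x ∈ A} ⊆ Icc (fun _ => -r) (fun _ => r) := by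
  intro x hx
  have h1 : ∀ j, |x j| ≤ r := by
    intro j
    have := hr _ hx ((0 : Fin (n + 1)).succAbove j)
    rwa [ins_succAbove] at this
  exact ⟨fun j => (abs_le.1 (h1 j)).1, fun j => (abs_le.1 (h1 j)).2⟩

theorem exists_bd {n : ℕ} {A : Set (Fin n → ℝ)} (hA : Bornology.IsBounded A) :
    ∃ r : ℝ, ∀ z ∈ A, ∀ i, |z i| ≤ r := by
  obtain ⟨r, hr⟩ := hA.exists_norm_le
  exact ⟨r, fun z hz i => by
    have := norm_le_pi_norm z i
    rw [Real.norm_eq_abs] at this
    exact this.trans (hr z hz)⟩

end BMnAux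

theorem bmn (n : ℕ) (A B C : Set (Fin n → ℝ)) (hA : MeasurableSet A) (hB : MeasurableSet B)
    (hC : MeasurableSet C) (hAb : Bornology.IsBounded A) (hBb : Bornology.IsBounded B)
    (h : ∀ a ∈ A, ∀ b ∈ B, (fun i => (a i + b i) / 2) ∈ C) :
    volume A * volume B ≤ (volume C) ^ 2 := by
  induction n with
  | zero =>
    rcases A.eq_empty_or_nonempty with rfl | ⟨a, ha⟩
    · simp
    rcases B.eq_empty_or_nonempty with rfl | ⟨b, hb⟩
    · simp
    have hc := h a ha b hb
    have hle : ∀ D : Set (Fin 0 → ℝ), volume D ≤ 1 := by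
      intro D
      refine (measure_mono (subset_univ D)).trans (le_of_eq ?_)
      rw [volume_pi, Measure.pi_of_empty, Measure.dirac_apply_of_mem (mem_univ _)]
    have hC1 : volume C = 1 := by
      rw [volume_pi, Measure.pi_of_empty]
      refine Measure.dirac_apply_of_mem ?_
      exact Eq.mp (congrArg (fun w => w ∈ C) (Subsingleton.elim _ _)) hc
    rw [hC1, one_pow]
    exact (mul_le_mul' (hle A) (hle B)).trans (by simp)
  | succ n ih =>
    obtain ⟨r, hr⟩ := BMnAux.exists_bd hAb
    obtain ⟨q, hq⟩ := BMnAux.exists_bd hBb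
    have hrT : volume (Icc (fun _ => -r) (fun _ => r) : Set (Fin n → ℝ)) ≠ ⊤ :=
      isCompact_Icc.measure_ne_top
    have hqT : volume (Icc (fun _ => -q) (fun _ => q) : Set (Fin n → ℝ)) ≠ ⊤ :=
      isCompact_Icc.measure_ne_top
    rw [vol_slice 0 A hA, vol_slice 0 B hB, vol_slice 0 C hC]
    refine pl1 _ _ _ (measurable_slice 0 A hA) (measurable_slice 0 B hB) (measurable_slice 0 C hC)
      (max (volume (Icc (fun _ => -r) (fun _ => r) : Set (Fin n → ℝ))).toNNReal
        (volume (Icc (fun _ => -q) (fun _ => q) : Set (Fin n → ℝ))).toNNReal) ?_ ?_ ?_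
    · intro s
      refine (measure_mono (BMnAux.slice_sub hr s)).trans ?_
      rw [ENNReal.coe_max]
      refine le_trans (le_of_eq ?_) (le_max_left _ _)
      rw [ENNReal.coe_toNNReal hrT]
    · intro s
      refine (measure_mono (BMnAux.slice_sub hq s)).trans ?_
      rw [ENNReal.coe_max]
      refine le_trans (le_of_eq ?_) (le_max_right _ _)
      rw [ENNReal.coe_toNNReal hqT]
    · intro s t
      refine ih _ _ _ (measurableSet_slice 0 A hA s) (measurableSet_slice 0 B hB t)
        (measurableSet_slice 0 C hC ((s + t) / 2))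
        ((Metric.isBounded_Icc _ _).subset (BMnAux.slice_sub hr s))
        ((Metric.isBounded_Icc _ _).subset (BMnAux.slice_sub hq t)) ?_
      intro x hx y hy
      have h1 := h _ hx _ hy
      rw [mem_ofPred_eq]
      convert h1 using 1
      funext j
      refine Fin.cases ?_ (fun j => ?_) j
      · simp
      · have e1 := ins_succAbove 0 s x j
        have e2 := ins_succAbove 0 t y j
        have e3 := ins_succAbove 0 ((s + t) / 2) (fun i => (x i + y i) / 2) j
        rw [Fin.succAbove_zero] at e1 e2 e3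
        rw [e1, e2, e3]

end VR29

end
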