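import Pool.Agent.Lib.VR29.Defs

/-!
# Ball: volume of the Euclidean ball and of an ellipsoid
-/

set_option autoImplicit false

open MeasureTheory Set

open scoped ENNReal NNReal

noncomputable section

namespace VR29

variable {V : Type*} [NormedAddCommGroup V] [InnerProductSpace ℝ V] [FiniteDimensional ℝ V]
  [MeasurableSpace V] [BorelSpace V]

theorem ball_volume_le (hV : 0 < Module.finrank ℝ V) :
    volume.real (Metric.closedBall (0 : V) 1) ≤
      Real.sqrt (2 * Real.pi * Real.exp 1 / (Module.finrank ℝ V : ℝ)) ^ (Module.finrank ℝ V) := by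
  set k := Module.finrank ℝ V with hk
  have hk' : (0 : ℝ) < k := by exact_mod_cast hV
  have hb : (0 : ℝ) < (k : ℝ) / 2 := by positivity
  have hI := GaussianFourier.integral_rexp_neg_mul_sq_norm (V := V) hb
  have hint : Integrable (fun v : V => Real.exp (-((k : ℝ) / 2) * ‖v‖ ^ 2)) := by
    by_contra hcon
    have := integral_undef hcon
    rw [this] at hI
    have : (0 : ℝ) < (Real.pi / ((k : ℝ) / 2)) ^ ((Module.finrank ℝ V : ℝ) / 2) := by
      positivity
    linarith
  have h1 : Real.exp (-((k : ℝ) / 2)) * volume.real (Metric.closedBall (0 : V) 1) ≤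
      (Real.pi / ((k : ℝ) / 2)) ^ ((k : ℝ) / 2) := by
    rw [← hk] at hI
    rw [← hI]
    calc Real.exp (-((k : ℝ) / 2)) * volume.real (Metric.closedBall (0 : V) 1)
        = ∫ v in Metric.closedBall (0 : V) 1, Real.exp (-((k : ℝ) / 2)) := by
          rw [setIntegral_const, smul_eq_mul, mul_comm]
      _ ≤ ∫ v in Metric.closedBall (0 : V) 1, Real.exp (-((k : ℝ) / 2) * ‖v‖ ^ 2) := by
          apply setIntegral_mono_on
          · exact integrableOn_const (by exact (isCompact_closedBall _ _).measure_lt_top.ne) (by simp)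
          · exact hint.integrableOn
          · exact Metric.isClosed_closedBall.measurableSet
          · intro v hv
            apply Real.exp_le_exp.mpr
            have : ‖v‖ ≤ 1 := by simpa using hv
            have h2 : ‖v‖ ^ 2 ≤ 1 := by nlinarith [norm_nonneg v]
            nlinarith
      _ ≤ ∫ v : V, Real.exp (-((k : ℝ) / 2) * ‖v‖ ^ 2) := by
          apply setIntegral_le_integral hint
          exact Filter.Eventually.of_forall (fun v => (Real.exp_pos _).le)
  have h2 : volume.real (Metric.closedBall (0 : V) 1) ≤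
      Real.exp ((k : ℝ) / 2) * (Real.pi / ((k : ℝ) / 2)) ^ ((k : ℝ) / 2) := by
    have h3 : volume.real (Metric.closedBall (0 : V) 1) =
        Real.exp ((k : ℝ) / 2) * (Real.exp (-((k : ℝ) / 2)) * volume.real (Metric.closedBall (0 : V) 1)) := by
      rw [← mul_assoc, ← Real.exp_add]
      simp
    rw [h3]
    exact mul_le_mul_of_nonneg_left h1 (Real.exp_pos _).le
  refine h2.trans (le_of_eq ?_)
  have h4 : Real.exp ((k : ℝ) / 2) = (Real.exp 1) ^ ((k : ℝ) / 2) := by
    rw [← Real.exp_mul, one_mul]
  rw [h4, ← Real.mul_rpow (Real.exp_pos _).le (by positivity)]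
  rw [Real.sqrt_eq_rpow, ← Real.rpow_natCast, ← Real.rpow_mul (by positivity)]
  congr 1
  · field_simp
  · ring

theorem ellipsoid_vol (c : V) (T : V ≃ₗ[ℝ] V) :
    volume.real (ellipsoid c T) = |LinearMap.det (T : V →ₗ[ℝ] V)| *
      volume.real (Metric.closedBall (0 : V) 1) := by
  have h3 : ellipsoid c T = (fun x => c + x) '' ((T : V →ₗ[ℝ] V) '' Metric.closedBall 0 1) := by
    unfold ellipsoid
    rw [Set.image_image]
    rfl
  rw [h3]
  unfold Measure.real
  rw [Set.image_add_left, measure_preimage_add,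
    Measure.addHaar_image_linearMap, ENNReal.toReal_mul, ENNReal.toReal_ofReal (abs_nonneg _)]

theorem ball_pos : 0 < volume.real (Metric.closedBall (0 : V) 1) := by
  apply ENNReal.toReal_pos
  · exact (Metric.measure_closedBall_pos volume _ one_pos).ne'
  · exact (isCompact_closedBall _ _).measure_lt_top.ne

theorem box_volume {k : ℕ} {ρ : ℝ} (hρ : 0 < ρ) (b : OrthonormalBasis (Fin k) ℝ V) :
    volume {x : V | ∀ a, |inner ℝ (b a) x| ≤ ρ} = ENNReal.ofReal ((2 * ρ) ^ k) := by
  have h1 : {x : V | ∀ a, |inner ℝ (b a) x| ≤ ρ} = b.repr ⁻¹' ((@WithLp.ofLp 2 (Fin k → ℝ)) ⁻¹'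
      (Set.Icc (fun _ => -ρ) (fun _ => ρ))) := by
    ext x
    change (∀ a, |inner ℝ (b a) x| ≤ ρ) ↔ _
    simp only [Set.mem_preimage, Set.mem_Icc, Pi.le_def, ← forall_and]
    refine forall_congr' (fun a => ?_)
    rw [← b.repr_apply_apply x a, abs_le]
  rw [h1, (b.measurePreserving_repr).measure_preimage, (PiLp.volume_preserving_ofLp _).measure_preimage,
    Real.volume_Icc_pi]
  · simp only [Finset.prod_const, Finset.card_univ, Fintype.card_fin]
    have e1 : ρ - -ρ = 2 * ρ := by ring
    rw [e1, ← ENNReal.ofReal_pow (by positivity)]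
  · exact measurableSet_Icc.nullMeasurableSet
  · exact (measurableSet_Icc.preimage (PiLp.volume_preserving_ofLp _).measurable).nullMeasurableSet

theorem ball_volume_ge {k : ℕ} (hk : 1 ≤ k) (b : OrthonormalBasis (Fin k) ℝ V) :
    (2 / Real.sqrt k) ^ k ≤ volume.real (Metric.closedBall (0 : V) 1) := by
  have hk0 : (0 : ℝ) < k := by exact_mod_cast hk
  have hs : 0 < Real.sqrt k := Real.sqrt_pos.mpr hk0
  have h := box_volume (V := V) (ρ := 1 / Real.sqrt k) (by positivity) b
  have hsub : {x : V | ∀ a, |inner ℝ (b a) x| ≤ 1 / Real.sqrt k} ⊆ Metric.closedBall 0 1 := by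
    intro x hx
    rw [mem_closedBall_zero_iff]
    have h5 : ‖x‖ ^ 2 ≤ 1 := by
      rw [← b.sum_sq_norm_inner_right x]
      calc ∑ a, ‖inner ℝ (b a) x‖ ^ 2 ≤ ∑ _a : Fin k, (1 / (k : ℝ)) := by
            apply Finset.sum_le_sum
            intro a _
            have := hx a
            rw [Real.norm_eq_abs]
            have h6 : |inner ℝ (b a) x| ^ 2 ≤ (1 / Real.sqrt k) ^ 2 :=
              pow_le_pow_left₀ (abs_nonneg _) this 2
            rwa [div_pow, one_pow, Real.sq_sqrt hk0.le] at h6
        _ = 1 := by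
            simp
            rw [mul_inv_cancel₀ hk0.ne']
    nlinarith [norm_nonneg x]
  have hle := measure_mono (μ := volume) hsub
  rw [h] at hle
  have := ENNReal.toReal_mono (isCompact_closedBall (0 : V) 1).measure_lt_top.ne hle
  rw [ENNReal.toReal_ofReal (by positivity)] at this
  have e : 2 * (1 / Real.sqrt k) = 2 / Real.sqrt k := by ring
  rw [e] at this
  exact this

end VR29

end
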