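import Pool.Agent.Lib.VR29.VRFin
import Pool.Agent.Lib.MSp.LinD

/-!
# Col: the colouring property from the linear discrepancy theorem for matrices
-/

set_option autoImplicit false

noncomputable section

namespace VR29

theorem colouring_2000 : Colouring 2000 := by
  intro k d hk hkd A hA x hx
  have hA' : ∀ i, ‖Matrix.toEuclideanCLM (𝕜 := ℝ) (A i)‖ ≤ 1 := by
    intro i
    refine ContinuousLinearMap.opNorm_le_bound _ zero_le_one (fun v => ?_)
    rw [one_mul]
    exact hA i v
  obtain ⟨z, hz, hn⟩ := MSp.lin_disc d k A hA' x hx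
  refine ⟨z, hz, fun v => ?_⟩
  have hk0 : (0 : ℝ) < k := by exact_mod_cast hk
  have hlog : 0 ≤ Real.log ((d : ℝ) / k) := by
    apply Real.log_nonneg
    rw [le_div_iff₀ hk0, one_mul]
    exact_mod_cast hkd
  have e1 : (∑ i, (x i - z i) • A i) = -(∑ i, (z i - x i) • A i) := by
    rw [← Finset.sum_neg_distrib]
    refine Finset.sum_congr rfl (fun i _ => ?_)
    rw [← neg_smul, neg_sub]
  have e2 : ‖Matrix.toEuclideanLin (∑ i, (x i - z i) • A i) v‖ =
      ‖Matrix.toEuclideanCLM (𝕜 := ℝ) (∑ i, (z i - x i) • A i) v‖ := by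
    rw [e1, map_neg, LinearMap.neg_apply, norm_neg]
    rfl
  rw [e2]
  refine (ContinuousLinearMap.le_opNorm _ v).trans ?_
  refine mul_le_mul_of_nonneg_right (hn.trans ?_) (norm_nonneg _)
  rw [mul_assoc, Real.sqrt_mul hk0.le]
  refine mul_le_mul_of_nonneg_left (mul_le_mul_of_nonneg_left ?_ (Real.sqrt_nonneg _))
    (by norm_num)
  refine max_le ?_ ?_
  · rw [Real.one_le_sqrt]
    linarith
  · exact Real.sqrt_le_sqrt (by linarith)

end VR29

end
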