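import Pool.Agent.Lib.VR29.Ball

/-!
# CovVol: a covering of the parallelepiped gives a lower bound for the volume of the polar

PROOF. If `b.toBasis.det u = 0` trivial. `PV K` is compact (closed, bounded since `K` contains a ball), so its volume is finite.
Let `L : (Fin k → ℝ) → V`, `L x = ∑ x i • u i` and `Q = {x | ∀ i, |x i| ≤ 1}` (`= Icc (-1) 1`, volume `2^k`). By `hcov`, `L '' Q ⊆ ⋃_{z ∈ {±1}^k} (L z +ᵥ R • PV K)`: if
`|inner (L x - L z) y| ≤ R` for all `y ∈ K` then `L x - L z = R • v`, `v ∈ PV K`. There are `2^k` vectors `z` and each translate has volume `R^k volume (PV K)`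
(`Measure.addHaar_smul`, `measure_preimage_add`). `volume (L '' Q) = |b.toBasis.det u| * 2^k`: write `L = (V-endomorphism D with D (b i) = u i) ∘ (x ↦ ∑ x i • b i)`;
`det D = b.toBasis.det u`, `Measure.addHaar_image_linearMap`, and `x ↦ ∑ x i • b i` is measure preserving (`b.measurePreserving_repr_symm` + `PiLp.volume_preserving_toLp`;
compare `cube_volume` in LowRankImages.lean). Cancel `2^k`.
-/

set_option autoImplicit false

open MeasureTheory Set

open scoped ENNReal NNReal

noncomputable section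

namespace VR29

variable {V : Type*} [NormedAddCommGroup V] [InnerProductSpace ℝ V] [FiniteDimensional ℝ V]
  [MeasurableSpace V] [BorelSpace V]

omit [FiniteDimensional ℝ V] [MeasurableSpace V] [BorelSpace V] in
private theorem covVol_closed (K : Set V) : IsClosed (PV K) := by
  have : PV K = ⋂ y ∈ K, {v : V | |inner ℝ v y| ≤ 1} := by
    ext v
    simp [PV]
  rw [this]
  refine isClosed_biInter fun y _ => ?_
  exact isClosed_le (by fun_prop) continuous_const

omit [FiniteDimensional ℝ V] [MeasurableSpace V] [BorelSpace V] in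
private theorem covVol_bdd {K : Set V} (hK : K ∈ nhds (0 : V)) :
    ∃ r : ℝ, PV K ⊆ Metric.closedBall 0 r := by
  obtain ⟨r, hr, hball⟩ := Metric.mem_nhds_iff.1 hK
  refine ⟨2 / r, fun v hv => ?_⟩
  rw [mem_closedBall_zero_iff]
  rcases eq_or_ne v 0 with h0 | h0
  · subst h0
    rw [norm_zero]; positivity
  have hv0 : 0 < ‖v‖ := norm_pos_iff.2 h0
  have hy : (r / 2 / ‖v‖) • v ∈ K := by
    apply hball
    rw [mem_ball_zero_iff, norm_smul, Real.norm_eq_abs, abs_of_pos (by positivity),
      div_mul_cancel₀ _ hv0.ne']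
    linarith
  have h1 := hv _ hy
  rw [real_inner_smul_right, real_inner_self_eq_norm_sq, abs_of_nonneg (by positivity)] at h1
  have h2 : r / 2 / ‖v‖ * ‖v‖ ^ 2 = r / 2 * ‖v‖ := by
    field_simp
  rw [h2] at h1
  rw [le_div_iff₀ hr]
  linarith

open scoped Pointwise in
theorem cov_vol (K : Set V) (hK : SBody K) (k : ℕ) (b : OrthonormalBasis (Fin k) ℝ V)
    (u : Fin k → V) (R : ℝ) (hR : 0 < R)
    (hcov : ∀ x : Fin k → ℝ, (∀ i, |x i| ≤ 1) → ∃ z : Fin k → ℝ, (∀ i, z i = 1 ∨ z i = -1) ∧
      ∀ y ∈ K, |inner ℝ (∑ i, (x i - z i) • u i) y| ≤ R) :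
    |b.toBasis.det u| ≤ R ^ k * volume.real (PV K) := by
  have hfr : Module.finrank ℝ V = k := by
    rw [Module.finrank_eq_card_basis b.toBasis, Fintype.card_fin]
  have hcomp : IsCompact (PV K) := by
    obtain ⟨r, hr⟩ := covVol_bdd hK.nhd
    exact (isCompact_closedBall (0 : V) r).of_isClosed_subset (covVol_closed K) hr
  have hfin : volume (PV K) ≠ ⊤ := hcomp.measure_lt_top.ne
  set D : V →ₗ[ℝ] V := b.toBasis.constr ℝ u with hD
  have hDb : ∀ i, D (b i) = u i := by
    intro i
    rw [hD, ← b.coe_toBasis, Module.Basis.constr_basis]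
  have hdet : LinearMap.det D = b.toBasis.det u := by
    have h1 := b.toBasis.det_comp D b.toBasis
    rw [Module.Basis.det_self, mul_one] at h1
    rw [← h1]
    congr 1
    funext i
    simp [hDb]
  set w : (Fin k → Bool) → V := fun σ => ∑ i, (if σ i then (1 : ℝ) else -1) • u i with hw
  have hsub : D '' {x : V | ∀ a, |inner ℝ (b a) x| ≤ 1} ⊆
      ⋃ σ : Fin k → Bool, (fun v => w σ + v) '' (R • PV K) := by
    rintro _ ⟨x, hx, rfl⟩
    obtain ⟨z, hz, hzK⟩ := hcov (fun i => inner ℝ (b i) x) hx
    have hDx : D x = ∑ i, (inner ℝ (b i) x : ℝ) • u i := by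
      conv_lhs => rw [← b.sum_repr' x]
      rw [map_sum]
      refine Finset.sum_congr rfl fun i _ => ?_
      rw [map_smul, hDb]
    rw [Set.mem_iUnion]
    refine ⟨fun i => decide (z i = 1), D x - w (fun i => decide (z i = 1)), ?_, by
      simp⟩
    have hw' : w (fun i => decide (z i = 1)) = ∑ i, z i • u i := by
      simp only [hw]
      refine Finset.sum_congr rfl fun i _ => ?_
      rcases hz i with h | h
      · simp [h]
      · have h1 : ¬ ((-1 : ℝ) = 1) := by norm_num
        simp [h, h1]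
    have hdiff : D x - w (fun i => decide (z i = 1)) = ∑ i, ((inner ℝ (b i) x : ℝ) - z i) • u i := by
      rw [hDx, hw', ← Finset.sum_sub_distrib]
      refine Finset.sum_congr rfl fun i _ => ?_
      rw [sub_smul]
    rw [hdiff]
    refine ⟨R⁻¹ • ∑ i, ((inner ℝ (b i) x : ℝ) - z i) • u i, ?_, ?_⟩
    · intro y hy
      rw [real_inner_smul_left, abs_mul, abs_inv, abs_of_pos hR]
      have := hzK y hy
      calc R⁻¹ * _ ≤ R⁻¹ * R := mul_le_mul_of_nonneg_left this (by positivity)
        _ = 1 := inv_mul_cancel₀ hR.ne'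
    · show R • R⁻¹ • _ = _
      rw [smul_smul, mul_inv_cancel₀ hR.ne', one_smul]
  have hbox := box_volume (V := V) (ρ := 1) one_pos b
  have h1 : volume (D '' {x : V | ∀ a, |inner ℝ (b a) x| ≤ 1})
      = ENNReal.ofReal |b.toBasis.det u| * ENNReal.ofReal (2 ^ k) := by
    rw [Measure.addHaar_image_linearMap, hbox, hdet, mul_one]
  have h2 : volume (⋃ σ : Fin k → Bool, (fun v => w σ + v) '' (R • PV K))
      ≤ 2 ^ k * (ENNReal.ofReal (R ^ k) * volume (PV K)) := by
    calc volume (⋃ σ : Fin k → Bool, (fun v => w σ + v) '' (R • PV K))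
        ≤ ∑ σ : Fin k → Bool, volume ((fun v => w σ + v) '' (R • PV K)) :=
          measure_iUnion_fintype_le _ _
      _ = ∑ _σ : Fin k → Bool, ENNReal.ofReal (R ^ k) * volume (PV K) := by
          refine Finset.sum_congr rfl fun σ _ => ?_
          rw [Set.image_add_left, measure_preimage_add, Measure.addHaar_smul, hfr,
            abs_of_pos (by positivity)]
      _ = 2 ^ k * (ENNReal.ofReal (R ^ k) * volume (PV K)) := by
          rw [Finset.sum_const, Finset.card_univ, Fintype.card_fun, Fintype.card_bool,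
            Fintype.card_fin, nsmul_eq_mul]
          push_cast
          rfl
  have h3 := (measure_mono hsub).trans h2
  rw [h1] at h3
  have h4 := ENNReal.toReal_mono (by
    apply ENNReal.mul_ne_top (by simp)
    exact ENNReal.mul_ne_top ENNReal.ofReal_ne_top hfin) h3
  rw [ENNReal.toReal_mul, ENNReal.toReal_mul, ENNReal.toReal_mul,
    ENNReal.toReal_ofReal (abs_nonneg _), ENNReal.toReal_ofReal (by positivity),
    ENNReal.toReal_ofReal (by positivity), ENNReal.toReal_pow] at h4
  have h5 : (2 : ENNReal).toReal = 2 := by simp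
  rw [h5] at h4
  have h6 : (0 : ℝ) < 2 ^ k := by positivity
  rw [mul_comm] at h4
  exact le_of_mul_le_mul_left h4 h6

end VR29

end
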