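import Mathlib

/-! Optimal position and the Dvoretzky and Rogers lemma. -/

namespace VR29

open Finset

noncomputable section

namespace DvRAux

variable {k : ℕ}

/-- The linear map which is diagonal in the orthonormal basis `b` with entries `c`. -/
def diagMap (b : OrthonormalBasis (Fin k) ℝ (EuclideanSpace ℝ (Fin k))) (c : Fin k → ℝ) :
    EuclideanSpace ℝ (Fin k) →ₗ[ℝ] EuclideanSpace ℝ (Fin k) :=
  Matrix.toLin b.toBasis b.toBasis (Matrix.diagonal c)

lemma diagMap_det (b : OrthonormalBasis (Fin k) ℝ (EuclideanSpace ℝ (Fin k))) (c : Fin k → ℝ) :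
    LinearMap.det (diagMap b c) = ∏ i, c i := by
  rw [diagMap, LinearMap.det_toLin, Matrix.det_diagonal]

lemma diagMap_norm_sq (b : OrthonormalBasis (Fin k) ℝ (EuclideanSpace ℝ (Fin k))) (c : Fin k → ℝ)
    (x : EuclideanSpace ℝ (Fin k)) :
    ‖diagMap b c x‖ ^ 2 = ∑ i, c i ^ 2 * inner ℝ (b i) x ^ 2 := by
  have h : ∀ i, inner ℝ (b i) (diagMap b c x) = c i * inner ℝ (b i) x := by
    intro i
    have := Matrix.toLin_apply b.toBasis b.toBasis (Matrix.diagonal c) x
    rw [diagMap, this]
    rw [inner_sum]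
    simp only [inner_smul_right, OrthonormalBasis.coe_toBasis]
    rw [Finset.sum_eq_single i]
    · rw [Matrix.mulVec_diagonal]
      simp [OrthonormalBasis.repr_apply_apply]
    · intro j _ hj
      rw [b.inner_eq_zero hj.symm]
      simp
    · simp
  rw [← b.sum_sq_norm_inner_right]
  apply Finset.sum_congr rfl
  intro i _
  rw [h i, Real.norm_eq_abs, sq_abs, mul_pow]

lemma sum_inner_sq (b : OrthonormalBasis (Fin k) ℝ (EuclideanSpace ℝ (Fin k)))
    (x : EuclideanSpace ℝ (Fin k)) : ∑ i, inner ℝ (b i) x ^ 2 = ‖x‖ ^ 2 := by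
  rw [← b.sum_sq_norm_inner_right]
  apply Finset.sum_congr rfl
  intro i _
  rw [Real.norm_eq_abs, sq_abs]

/-- A seminorm on a finite dimensional Euclidean space is continuous. -/
lemma cont (p : Seminorm ℝ (EuclideanSpace ℝ (Fin k))) : Continuous p := by
  exact continuousOn_univ.mp (p.convexOn.continuousOn isOpen_univ)

/-- One step: if every linear map dominated by `p` has determinant at most one, then there is a
contact point with a large component in the last `k - j` directions. -/
lemma step_approx (hk : 0 < k) (p : Seminorm ℝ (EuclideanSpace ℝ (Fin k)))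
    (hmax : ∀ S : EuclideanSpace ℝ (Fin k) →ₗ[ℝ] EuclideanSpace ℝ (Fin k),
      (∀ x, ‖S x‖ ≤ p x) → |LinearMap.det S| ≤ 1)
    (b : OrthonormalBasis (Fin k) ℝ (EuclideanSpace ℝ (Fin k))) (c : Fin k → ℝ)
    (hc : ∀ i, 0 < c i) (hdet : ∏ i, c i = 1) :
    ∃ x : EuclideanSpace ℝ (Fin k), ‖x‖ = 1 ∧ p x ≤ ‖diagMap b c x‖ := by
  have : Nonempty (Fin k) := ⟨⟨0, hk⟩⟩
  have hpos : ∀ x : EuclideanSpace ℝ (Fin k), ‖x‖ = 1 → 0 < ‖diagMap b c x‖ := by
    intro x hx
    have h1 := diagMap_norm_sq b c x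
    by_contra hcon
    have h0 : ‖diagMap b c x‖ = 0 := le_antisymm (not_lt.mp hcon) (norm_nonneg _)
    rw [h0] at h1
    have h2 : ∀ i, c i ^ 2 * inner ℝ (b i) x ^ 2 = 0 := by
      intro i
      have := (Finset.sum_eq_zero_iff_of_nonneg (s := Finset.univ)
        (f := fun i => c i ^ 2 * inner ℝ (b i) x ^ 2) (fun i _ => by positivity)).mp
        (by rw [← h1]; ring) i (Finset.mem_univ i)
      exact this
    have h3 : ∀ i, inner ℝ (b i) x ^ 2 = 0 := by
      intro i
      have := h2 i
      have hci := hc i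
      rcases mul_eq_zero.mp this with h | h
      · exact absurd h (by positivity)
      · exact h
    have h4 := sum_inner_sq b x
    rw [Finset.sum_eq_zero (fun i _ => h3 i), hx] at h4
    norm_num at h4
  have hcompact : IsCompact (Metric.sphere (0 : EuclideanSpace ℝ (Fin k)) 1) := isCompact_sphere _ _
  have hne : (Metric.sphere (0 : EuclideanSpace ℝ (Fin k)) 1).Nonempty :=
    ⟨EuclideanSpace.single ⟨0, hk⟩ (1 : ℝ), by simp⟩
  have hlc : Continuous (fun x => ‖diagMap b c x‖) :=
    continuous_norm.comp (diagMap b c).continuous_of_finiteDimensional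
  obtain ⟨x0, hx0, hmin⟩ := hcompact.exists_isMinOn hne
    (f := fun x => p x / ‖diagMap b c x‖)
    ((cont p).continuousOn.div hlc.continuousOn
      (fun x hx => (hpos x (by simpa using hx)).ne'))
  have hx0' : ‖x0‖ = 1 := by simpa using hx0
  refine ⟨x0, hx0', ?_⟩
  by_contra hcon
  rw [not_le] at hcon
  set m := p x0 / ‖diagMap b c x0‖ with hm
  have hm1 : 1 < m := by rw [hm, lt_div_iff₀ (hpos x0 hx0'), one_mul]; exact hcon
  have hadm : ∀ x, ‖(m • diagMap b c) x‖ ≤ p x := by
    intro x
    by_cases hx : x = 0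
    · rw [hx]; simp
    · have hnx : 0 < ‖x‖ := norm_pos_iff.mpr hx
      have hu : ‖‖x‖⁻¹ • x‖ = 1 := by
        rw [norm_smul, norm_inv, norm_norm, inv_mul_cancel₀ hnx.ne']
      have h1 : m ≤ p (‖x‖⁻¹ • x) / ‖diagMap b c (‖x‖⁻¹ • x)‖ := hmin (by simpa using hu)
      rw [le_div_iff₀ (hpos _ hu), map_smul_eq_mul, map_smul, norm_smul, norm_inv, norm_norm] at h1
      rw [LinearMap.smul_apply, norm_smul, Real.norm_eq_abs, abs_of_pos (by linarith)]
      have h2 : ‖x‖ * (m * (‖x‖⁻¹ * ‖diagMap b c x‖)) ≤ ‖x‖ * (‖x‖⁻¹ * p x) :=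
        mul_le_mul_of_nonneg_left h1 hnx.le
      have h3 : ‖x‖ * (m * (‖x‖⁻¹ * ‖diagMap b c x‖)) = m * ‖diagMap b c x‖ := by field_simp
      have h4 : ‖x‖ * (‖x‖⁻¹ * p x) = p x := by field_simp
      linarith
  have h5 := hmax (m • diagMap b c) hadm
  rw [LinearMap.det_smul, diagMap_det, hdet, mul_one, finrank_euclideanSpace, Fintype.card_fin,
    abs_of_pos (by positivity)] at h5
  have h6 : 1 < m ^ k := one_lt_pow₀ hm1 hk.ne'
  linarith

lemma step (p : Seminorm ℝ (EuclideanSpace ℝ (Fin k)))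
    (hp : ∀ x, ‖x‖ ≤ p x)
    (hmax : ∀ S : EuclideanSpace ℝ (Fin k) →ₗ[ℝ] EuclideanSpace ℝ (Fin k),
      (∀ x, ‖S x‖ ≤ p x) → |LinearMap.det S| ≤ 1)
    (b : OrthonormalBasis (Fin k) ℝ (EuclideanSpace ℝ (Fin k))) (j : ℕ) (hj : j < k) :
    ∃ x : EuclideanSpace ℝ (Fin k), ‖x‖ = 1 ∧ p x = 1 ∧
      ((k : ℝ) - j) / k ≤ ∑ i with j ≤ (i : Fin k).val, inner ℝ (b i) x ^ 2 := by
  have hk : 0 < k := by omega
  have hk' : (0 : ℝ) < k := by exact_mod_cast hk
  have hjk : (j : ℝ) < k := by exact_mod_cast hj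
  have hj0 : (0 : ℝ) ≤ j := Nat.cast_nonneg j
  set β : EuclideanSpace ℝ (Fin k) → ℝ :=
    fun x => ∑ i with j ≤ (i : Fin k).val, inner ℝ (b i) x ^ 2 with hβ
  have hβc : Continuous β := by
    apply continuous_finsetSum
    intro i _
    exact (Continuous.inner continuous_const continuous_id).pow 2
  -- approximate contact points
  have key : ∀ t : ℝ, 0 < t → t ≤ 1 / (2 * k) → ∃ x : EuclideanSpace ℝ (Fin k), ‖x‖ = 1 ∧
      p x - 1 ≤ 2 * k * t ∧ ((k : ℝ) - j) / k - β x ≤ 2 * k * t := by
    intro t ht ht'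
    set c : Fin k → ℝ := fun i => if j ≤ i.val then Real.exp (j * t) else Real.exp (-((k - j) * t))
      with hc
    have hcpos : ∀ i, 0 < c i := by
      intro i; simp only [hc]; split_ifs <;> exact Real.exp_pos _
    have hcard1 : ((Finset.univ.filter (fun i : Fin k => j ≤ i.val)).card : ℝ) = k - j := by
      have h1 : (Finset.univ.filter (fun i : Fin k => j ≤ i.val)).card = k - j := by
        have : (Finset.univ.filter (fun i : Fin k => j ≤ i.val)) = Finset.Ici (⟨j, hj⟩ : Fin k) := by
          ext i; simp [Fin.le_def]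
        rw [this, Fin.card_Ici]
      rw [h1, Nat.cast_sub hj.le]
    have hcard2 : ((Finset.univ.filter (fun i : Fin k => ¬ j ≤ i.val)).card : ℝ) = j := by
      have h1 : (Finset.univ.filter (fun i : Fin k => ¬ j ≤ i.val)).card = j := by
        have : (Finset.univ.filter (fun i : Fin k => ¬ j ≤ i.val)) = Finset.Iio (⟨j, hj⟩ : Fin k) := by
          ext i; simp [Fin.lt_def]
        rw [this, Fin.card_Iio]
      rw [h1]
    have hdet : ∏ i, c i = 1 := by
      simp only [hc]
      rw [Finset.prod_ite, Finset.prod_const, Finset.prod_const, ← Real.exp_nat_mul,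
        ← Real.exp_nat_mul, ← Real.exp_add, hcard1, hcard2]
      have : ((k : ℝ) - j) * (j * t) + j * -((k - j) * t) = 0 := by ring
      rw [this, Real.exp_zero]
    obtain ⟨x, hx, hpx⟩ := step_approx hk p hmax b c hcpos hdet
    refine ⟨x, hx, ?_, ?_⟩
    all_goals
      have hsum := sum_inner_sq b x
      rw [hx] at hsum
      have hsplit : ∑ i with j ≤ (i : Fin k).val, inner ℝ (b i) x ^ 2
          + ∑ i with ¬ j ≤ (i : Fin k).val, inner ℝ (b i) x ^ 2 = 1 := by
        rw [Finset.sum_filter_add_sum_filter_not, hsum]; norm_num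
      have hn := diagMap_norm_sq b c x
      have hn2 : ‖diagMap b c x‖ ^ 2 = Real.exp (j * t) ^ 2 * β x +
          Real.exp (-((k - j) * t)) ^ 2 * (1 - β x) := by
        have h1 : (1 - β x) = ∑ i with ¬ j ≤ (i : Fin k).val, inner ℝ (b i) x ^ 2 := by
          rw [← hsplit]; simp [hβ]
        rw [hn, h1, hβ, Finset.mul_sum, Finset.mul_sum,
          ← Finset.sum_filter_add_sum_filter_not Finset.univ (fun i : Fin k => j ≤ i.val)]
        congr 1
        · apply Finset.sum_congr rfl
          intro i hi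
          rw [Finset.mem_filter] at hi
          simp [hc, hi.2]
        · apply Finset.sum_congr rfl
          intro i hi
          rw [Finset.mem_filter] at hi
          simp only [hc, hi.2, if_false]
      have hβ0 : 0 ≤ β x := Finset.sum_nonneg (fun i _ => by positivity)
      have hβ1 : β x ≤ 1 := by
        have : 0 ≤ ∑ i with ¬ j ≤ (i : Fin k).val, inner ℝ (b i) x ^ 2 :=
          Finset.sum_nonneg (fun i _ => by positivity)
        simp only [hβ]; linarith
      have ht2 : 2 * k * t ≤ 1 := by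
        have := mul_le_mul_of_nonneg_left ht' (by positivity : (0:ℝ) ≤ 2 * k)
        rwa [mul_one_div_cancel (by positivity)] at this
      have e1 : Real.exp (j * t) ^ 2 ≤ 1 + 2 * (j * t) + (2 * (j * t)) ^ 2 := by
        rw [← Real.exp_nat_mul]
        have := Real.abs_exp_sub_one_sub_id_le (x := ((2 : ℕ) : ℝ) * (j * t))
          (by rw [abs_of_nonneg (by positivity)]; push_cast; nlinarith)
        have h2 := (abs_le.mp this).2
        push_cast at h2 ⊢
        linarith
      have e2 : Real.exp (-((k - j) * t)) ^ 2 ≤ 1 - 2 * ((k - j) * t) + (2 * ((k - j) * t)) ^ 2 := by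
        rw [← Real.exp_nat_mul]
        have h0 : 0 ≤ (k - j) * t := mul_nonneg (by linarith) ht.le
        have := Real.abs_exp_sub_one_sub_id_le (x := ((2 : ℕ) : ℝ) * (-((k - j) * t)))
          (by rw [abs_of_nonpos (by push_cast; nlinarith)]; push_cast; nlinarith)
        have h2 := (abs_le.mp this).2
        push_cast at h2 ⊢
        nlinarith
    · -- bound for p x
      have h0 : 0 ≤ (k - j) * t := mul_nonneg (by linarith) ht.le
      have h1 : Real.exp (-((k - j) * t)) ≤ Real.exp (j * t) :=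
        Real.exp_le_exp.mpr (by nlinarith)
      have h2 : ‖diagMap b c x‖ ^ 2 ≤ Real.exp (j * t) ^ 2 := by
        rw [hn2]
        have h3 : Real.exp (-((k - j) * t)) ^ 2 ≤ Real.exp (j * t) ^ 2 :=
          pow_le_pow_left₀ (Real.exp_pos _).le h1 2
        nlinarith
      have h4 : ‖diagMap b c x‖ ≤ Real.exp (j * t) :=
        (pow_le_pow_iff_left₀ (norm_nonneg _) (Real.exp_pos _).le (by norm_num)).mp h2
      have h5 : Real.exp (j * t) ≤ 1 + (j * t) + (j * t) ^ 2 := by
        have := Real.abs_exp_sub_one_sub_id_le (x := j * t)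
          (by rw [abs_of_nonneg (by positivity)]; nlinarith)
        have h2 := (abs_le.mp this).2
        linarith
      have h6 : (j * t) ≤ k * t := mul_le_mul_of_nonneg_right hjk.le ht.le
      have h7 : 0 ≤ (j : ℝ) * t := by positivity
      nlinarith
    · have hp1 : 1 ≤ ‖diagMap b c x‖ ^ 2 := by
        have h1 : 1 ≤ ‖diagMap b c x‖ := by
          calc (1 : ℝ) = ‖x‖ := hx.symm
            _ ≤ p x := hp x
            _ ≤ _ := hpx
        nlinarith
      rw [hn2] at hp1
      have h0 : 0 ≤ (k - j) * t := mul_nonneg (by linarith) ht.le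
      have h7 : 0 ≤ (j : ℝ) * t := by positivity
      have h8 : (j : ℝ) * t ≤ k * t := mul_le_mul_of_nonneg_right hjk.le ht.le
      have h9 : ((k : ℝ) - j) * t ≤ k * t := mul_le_mul_of_nonneg_right (by linarith) ht.le
      have h10 : Real.exp (j * t) ^ 2 * β x ≤ (1 + 2 * (j * t) + (2 * (k * t)) ^ 2) * β x := by
        apply mul_le_mul_of_nonneg_right _ hβ0
        nlinarith
      have h11 : Real.exp (-((k - j) * t)) ^ 2 * (1 - β x) ≤
          (1 - 2 * ((k - j) * t) + (2 * (k * t)) ^ 2) * (1 - β x) := by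
        apply mul_le_mul_of_nonneg_right _ (by linarith)
        nlinarith
      have h12 : 1 ≤ 1 + (2 * (j * t)) * β x - (2 * ((k - j) * t)) * (1 - β x) + (2 * (k * t)) ^ 2 := by
        nlinarith
      have h13 : 0 ≤ 2 * t * (k * β x - (k - j) + 2 * k ^ 2 * t) := by nlinarith
      have h14 : 0 ≤ k * β x - (k - j) + 2 * k ^ 2 * t := by
        by_contra hcon
        rw [not_le] at hcon
        have : 2 * t * (k * β x - (k - j) + 2 * k ^ 2 * t) < 0 :=
          mul_neg_of_pos_of_neg (by positivity) hcon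
        linarith
      rw [sub_le_iff_le_add, div_le_iff₀ hk']
      nlinarith
  -- compactness
  have : Nonempty (Fin k) := ⟨⟨0, hk⟩⟩
  have hcompact : IsCompact (Metric.sphere (0 : EuclideanSpace ℝ (Fin k)) 1) := isCompact_sphere _ _
  have hne : (Metric.sphere (0 : EuclideanSpace ℝ (Fin k)) 1).Nonempty :=
    ⟨EuclideanSpace.single ⟨0, hk⟩ (1 : ℝ), by simp⟩
  obtain ⟨x0, hx0, hmin⟩ := hcompact.exists_isMinOn hne
    (f := fun x => max (p x - 1) (((k : ℝ) - j) / k - β x))
    (((cont p).sub continuous_const).max (continuous_const.sub hβc)).continuousOn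
  have hx0' : ‖x0‖ = 1 := by simpa using hx0
  have hle : max (p x0 - 1) (((k : ℝ) - j) / k - β x0) ≤ 0 := by
    apply le_of_forall_pos_le_add
    intro ε hε
    rw [zero_add]
    obtain ⟨x, hx, h1, h2⟩ := key (min (1 / (2 * (k : ℝ))) (ε / (2 * k))) (by positivity) (min_le_left _ _)
    have h3 : 2 * (k : ℝ) * min (1 / (2 * (k : ℝ))) (ε / (2 * k)) ≤ ε := by
      calc 2 * (k : ℝ) * min (1 / (2 * (k : ℝ))) (ε / (2 * k)) ≤ 2 * k * (ε / (2 * k)) :=
            mul_le_mul_of_nonneg_left (min_le_right _ _) (by positivity)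
        _ = ε := by field_simp
    have h4 : max (p x0 - 1) (((k : ℝ) - j) / k - β x0) ≤ max (p x - 1) (((k : ℝ) - j) / k - β x) :=
      hmin (by simpa using hx)
    exact h4.trans (max_le (h1.trans h3) (h2.trans h3))
  refine ⟨x0, hx0', ?_, ?_⟩
  · have h1 := (le_max_left _ _).trans hle
    have h2 := hp x0
    rw [hx0'] at h2
    linarith
  · have h1 := (le_max_right _ _).trans hle
    linarith

/-- A family of contact points together with an adapted orthonormal basis. -/
lemma adapted (p : Seminorm ℝ (EuclideanSpace ℝ (Fin k)))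
    (hp : ∀ x, ‖x‖ ≤ p x)
    (hmax : ∀ S : EuclideanSpace ℝ (Fin k) →ₗ[ℝ] EuclideanSpace ℝ (Fin k),
      (∀ x, ‖S x‖ ≤ p x) → |LinearMap.det S| ≤ 1) :
    ∀ j : ℕ, j ≤ k → ∃ (b : OrthonormalBasis (Fin k) ℝ (EuclideanSpace ℝ (Fin k)))
      (x : Fin k → EuclideanSpace ℝ (Fin k)), ∀ i : Fin k, i.val < j →
        ‖x i‖ = 1 ∧ p (x i) = 1 ∧ (∀ l : Fin k, i < l → inner ℝ (b l) (x i) = 0) ∧
        ((k : ℝ) - i.val) / k ≤ inner ℝ (b i) (x i) ^ 2 := by
  intro j
  induction j with
  | zero => intro _; exact ⟨EuclideanSpace.basisFun _ _, fun _ => 0, fun i hi => absurd hi (by omega)⟩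
  | succ j ih =>
    intro hj
    have hjk : j < k := by omega
    obtain ⟨b, x, hbx⟩ := ih hjk.le
    obtain ⟨y, hy1, hpy, hyb⟩ := step p hp hmax b j hjk
    have hk' : (0 : ℝ) < k := by exact_mod_cast (by omega : 0 < k)
    have hjk' : (j : ℝ) < k := by exact_mod_cast hjk
    set T := ∑ i with j ≤ (i : Fin k).val, inner ℝ (b i) y ^ 2 with hT
    have hTpos : 0 < T := lt_of_lt_of_le (div_pos (by linarith) hk') hyb
    set w : EuclideanSpace ℝ (Fin k) := ∑ i with j ≤ (i : Fin k).val, inner ℝ (b i) y • b i with hw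
    have hbw : ∀ i : Fin k, inner ℝ (b i) w = if j ≤ i.val then inner ℝ (b i) y else 0 := by
      intro i
      rw [hw, inner_sum]
      simp only [inner_smul_right]
      by_cases hi : j ≤ i.val
      · rw [if_pos hi, Finset.sum_eq_single i]
        · simp
        · intro l _ hl; rw [b.inner_eq_zero hl.symm]; simp
        · intro h; exact absurd (Finset.mem_filter.mpr ⟨Finset.mem_univ i, hi⟩) h
      · rw [if_neg hi]
        apply Finset.sum_eq_zero
        intro l hl
        have : i ≠ l := by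
          rintro rfl
          exact hi (Finset.mem_filter.mp hl).2
        rw [b.inner_eq_zero this]; simp
    have hwn : ‖w‖ ^ 2 = T := by
      rw [← sum_inner_sq b w, hT, Finset.sum_filter]
      apply Finset.sum_congr rfl
      intro i _
      rw [hbw i]
      split_ifs <;> simp
    have hwpos : 0 < ‖w‖ := by
      rcases (norm_nonneg w).lt_or_eq with h | h
      · exact h
      · rw [← h] at hwn; norm_num at hwn; linarith
    set e := ‖w‖⁻¹ • w with he
    have hen : ‖e‖ = 1 := by rw [he, norm_smul, norm_inv, norm_norm, inv_mul_cancel₀ hwpos.ne']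
    let v : Fin k → EuclideanSpace ℝ (Fin k) := fun i => if i.val < j then b i else e
    let s : Set (Fin k) := {i | i.val ≤ j}
    have hv : Orthonormal ℝ (s.restrict v) := by
      constructor
      · rintro ⟨i, hi⟩
        change ‖(if i.val < j then b i else e)‖ = 1
        split_ifs
        · exact b.norm_eq_one i
        · exact hen
      · rintro ⟨i, hi⟩ ⟨l, hl⟩ hil
        have hil' : i ≠ l := fun h => hil (by simp [h])
        have hi' : i.val ≤ j := hi
        have hl' : l.val ≤ j := hl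
        change inner ℝ (if i.val < j then b i else e) (if l.val < j then b l else e) = 0
        by_cases h1 : i.val < j <;> by_cases h2 : l.val < j
        · rw [if_pos h1, if_pos h2]; exact b.inner_eq_zero hil'
        · rw [if_pos h1, if_neg h2, he, inner_smul_right, hbw i, if_neg (by omega)]; simp
        · rw [if_neg h1, if_pos h2, he, real_inner_comm, inner_smul_right, hbw l, if_neg (by omega)]
          simp
        · exact absurd (Fin.ext (by omega)) hil'
    obtain ⟨b', hb'⟩ := hv.exists_orthonormalBasis_extension_of_card_eq (by simp)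
    have hb1 : ∀ i : Fin k, i.val < j → b' i = b i := by
      intro i hi
      rw [hb' i (by show i.val ≤ j; omega)]
      simp [v, hi]
    have hb2 : b' ⟨j, hjk⟩ = e := by
      rw [hb' ⟨j, hjk⟩ (by show j ≤ j; omega)]
      simp [v]
    refine ⟨b', fun i => if i.val < j then x i else y, ?_⟩
    intro i hi
    by_cases hij : i.val < j
    · simp only [hij, if_true]
      obtain ⟨h1, h2, h3, h4⟩ := hbx i hij
      refine ⟨h1, h2, ?_, by rw [hb1 i hij]; exact h4⟩
      intro l hl
      -- x i is a combination of b m, m ≤ i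
      have hx : x i = ∑ m, inner ℝ (b m) (x i) • b m := (b.sum_repr' (x i)).symm
      rw [hx, inner_sum]
      apply Finset.sum_eq_zero
      intro m _
      rw [inner_smul_right]
      by_cases hm : i < m
      · rw [h3 m hm]; simp
      · have hm' : m.val ≤ i.val := by
          have := not_lt.mp hm; exact this
        rw [← hb1 m (by omega), b'.inner_eq_zero (by
          intro h
          have : i.val < l.val := hl
          rw [h] at this; omega)]
        simp
    · have hij' : i = ⟨j, hjk⟩ := Fin.ext (by simp; omega)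
      subst hij'
      simp only [lt_irrefl, if_false]
      have hy : y = ∑ m with (m : Fin k).val < j, inner ℝ (b m) y • b m + w := by
        have h1 : y = ∑ m, inner ℝ (b m) y • b m := (b.sum_repr' y).symm
        conv_lhs => rw [h1]
        rw [← Finset.sum_filter_add_sum_filter_not Finset.univ (fun m : Fin k => m.val < j)]
        congr 1
        rw [hw]
        apply Finset.sum_congr _ (fun _ _ => rfl)
        ext m; simp
      have hwe : w = ‖w‖ • e := by
        rw [he, smul_smul, mul_inv_cancel₀ hwpos.ne', one_smul]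
      have hin : ∀ l : Fin k, j ≤ l.val → inner ℝ (b' l) y = inner ℝ (b' l) w := by
        intro l hl
        conv_lhs => rw [hy]
        rw [inner_add_right, inner_sum, Finset.sum_eq_zero, zero_add]
        intro m hm
        have hm' := (Finset.mem_filter.mp hm).2
        rw [inner_smul_right, ← hb1 m hm', b'.inner_eq_zero (by
          intro h; rw [h] at hl; omega)]
        simp
      refine ⟨hy1, hpy, ?_, ?_⟩
      · intro l hl
        have hl' : j < l.val := hl
        rw [hin l hl'.le, hwe, inner_smul_right, ← hb2, b'.inner_eq_zero (by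
          intro h; rw [h] at hl'; simp at hl')]
        simp
      · rw [hin _ le_rfl, hwe, inner_smul_right, ← hb2, real_inner_self_eq_norm_sq, b'.norm_eq_one]
        rw [one_pow, mul_one, hwn]
        exact hyb

lemma prod_range_div (k : ℕ) :
    ∏ i : Fin k, (((k : ℝ) - i.val) / k) = (k.factorial : ℝ) / k ^ k := by
  rw [Finset.prod_div_distrib, Finset.prod_const, Finset.card_univ, Fintype.card_fin]
  congr 1
  rw [Fin.prod_univ_eq_prod_range (fun i => (k : ℝ) - i) k, ← Nat.descFactorial_self,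
    Nat.descFactorial_eq_prod_range, Nat.cast_prod]
  apply Finset.prod_congr rfl
  intro i hi
  rw [Nat.cast_sub (Finset.mem_range.mp hi).le]

/-- Contact points with large determinant. -/
lemma contact (p : Seminorm ℝ (EuclideanSpace ℝ (Fin k)))
    (hp : ∀ x, ‖x‖ ≤ p x)
    (hmax : ∀ S : EuclideanSpace ℝ (Fin k) →ₗ[ℝ] EuclideanSpace ℝ (Fin k),
      (∀ x, ‖S x‖ ≤ p x) → |LinearMap.det S| ≤ 1) :
    ∃ x : Fin k → EuclideanSpace ℝ (Fin k), (∀ i, ‖x i‖ = 1) ∧ (∀ i, p (x i) = 1) ∧
      (k.factorial : ℝ) / k ^ k ≤ (Matrix.det (Matrix.of fun i j => x j i)) ^ 2 := by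
  obtain ⟨b, x, h⟩ := adapted p hp hmax k le_rfl
  refine ⟨x, fun i => (h i i.2).1, fun i => (h i i.2).2.1, ?_⟩
  set A : Matrix (Fin k) (Fin k) ℝ := Matrix.of fun l i => inner ℝ (b l) (x i) with hA
  set U : Matrix (Fin k) (Fin k) ℝ := Matrix.of fun l m => b l m with hU
  have hUA : U * (Matrix.of fun i j => x j i) = A := by
    ext l i
    rw [Matrix.mul_apply, hA, Matrix.of_apply, PiLp.inner_apply]
    apply Finset.sum_congr rfl
    intro m _
    simp [hU, mul_comm]
  have hUU : U * U.transpose = 1 := by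
    ext l m
    rw [Matrix.mul_apply]
    have : ∑ i, U l i * U.transpose i m = inner ℝ (b l) (b m) := by
      rw [PiLp.inner_apply]
      apply Finset.sum_congr rfl
      intro i _
      simp [hU, mul_comm]
    rw [this]
    by_cases hlm : l = m
    · subst hlm; simp
    · rw [b.inner_eq_zero hlm, Matrix.one_apply_ne hlm]
  have hdetU : U.det ^ 2 = 1 := by
    have := congrArg Matrix.det hUU
    rw [Matrix.det_mul, Matrix.det_transpose, Matrix.det_one] at this
    rw [sq, this]
  have hdetA : A.det = ∏ i, A i i := by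
    apply Matrix.det_of_isUpperTriangular
    intro l i hil
    exact (h i i.2).2.2.1 l hil
  have h2 : A.det ^ 2 = (Matrix.det (Matrix.of fun i j => x j i)) ^ 2 := by
    rw [← hUA, Matrix.det_mul, mul_pow, hdetU, one_mul]
  rw [← h2, hdetA, ← Finset.prod_pow, ← prod_range_div]
  apply Finset.prod_le_prod
  · intro i _
    have : ((i.val : ℕ) : ℝ) < k := by exact_mod_cast i.2
    apply div_nonneg (by linarith) (by positivity)
  · intro i _
    exact (h i i.2).2.2.2

lemma lower (p : Seminorm ℝ (EuclideanSpace ℝ (Fin k))) (hp : ∀ x, p x = 0 → x = 0) :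
    ∃ c : ℝ, 0 < c ∧ ∀ x, c * ‖x‖ ≤ p x := by
  rcases Nat.eq_zero_or_pos k with hk | hk
  · subst hk
    exact ⟨1, one_pos, fun x => by
      have : x = 0 := by ext i; exact i.elim0
      rw [this]; simp⟩
  · have hcompact : IsCompact (Metric.sphere (0 : EuclideanSpace ℝ (Fin k)) 1) := isCompact_sphere _ _
    have hne : (Metric.sphere (0 : EuclideanSpace ℝ (Fin k)) 1).Nonempty :=
      ⟨EuclideanSpace.single ⟨0, hk⟩ (1 : ℝ), by simp⟩
    obtain ⟨x0, hx0, hmin⟩ := hcompact.exists_isMinOn hne (f := p) (cont p).continuousOn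
    have hx0' : ‖x0‖ = 1 := by simpa using hx0
    refine ⟨p x0, ?_, ?_⟩
    · rcases (apply_nonneg p x0).lt_or_eq with h | h
      · exact h
      · have := hp x0 h.symm
        rw [this] at hx0'
        simp at hx0'
    · intro x
      by_cases hx : x = 0
      · rw [hx]; simp
      · have hnx : 0 < ‖x‖ := norm_pos_iff.mpr hx
        have hu : ‖‖x‖⁻¹ • x‖ = 1 := by
          rw [norm_smul, norm_inv, norm_norm, inv_mul_cancel₀ hnx.ne']
        have h1 : p x0 ≤ p (‖x‖⁻¹ • x) := hmin (by simpa using hu)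
        rw [map_smul_eq_mul, norm_inv, norm_norm] at h1
        have h2 := mul_le_mul_of_nonneg_right h1 hnx.le
        have h3 : ‖x‖⁻¹ * p x * ‖x‖ = p x := by field_simp
        linarith

lemma upper (p : Seminorm ℝ (EuclideanSpace ℝ (Fin k))) :
    ∃ C : ℝ, ∀ x, p x ≤ C * ‖x‖ := by
  refine ⟨∑ i, p (EuclideanSpace.single i (1 : ℝ)), fun x => ?_⟩
  have hx : x = ∑ i, x i • EuclideanSpace.single i (1 : ℝ) := by
    ext j
    simp [Finset.sum_apply, Pi.single_apply]
  calc p x = p (∑ i, x i • EuclideanSpace.single i (1 : ℝ)) := by rw [← hx]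
    _ ≤ ∑ i, p (x i • EuclideanSpace.single i (1 : ℝ)) :=
        Finset.le_sum_of_subadditive p (map_zero p).le (fun a b => map_add_le_add p a b) _ _
    _ ≤ ∑ i, p (EuclideanSpace.single i (1 : ℝ)) * ‖x‖ := by
        apply Finset.sum_le_sum
        intro i _
        rw [map_smul_eq_mul, mul_comm]
        exact mul_le_mul_of_nonneg_left (PiLp.norm_apply_le x i) (apply_nonneg _ _)
    _ = _ := by rw [Finset.sum_mul]

end DvRAux

open DvRAux

/-- Optimal position and the Dvoretzky and Rogers lemma.  Every norm `p` on `k` dimensional Euclidean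
space can be composed with an invertible linear map `T` so that the Euclidean norm is at most `p ∘ T`,
every linear map `S` with `‖S x‖ ≤ p (T x)` has determinant at most one in absolute value, and there
are unit vectors `x i` with `p (T (x i)) = 1` whose determinant is at least `(k! / k ^ k) ^ (1/2)`. -/
theorem dvr_euclid {k : ℕ} (p : Seminorm ℝ (EuclideanSpace ℝ (Fin k)))
    (hp : ∀ x, p x = 0 → x = 0) :
    ∃ T : EuclideanSpace ℝ (Fin k) ≃ₗ[ℝ] EuclideanSpace ℝ (Fin k),
      (∀ x, ‖x‖ ≤ p (T x)) ∧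
      (∀ S : EuclideanSpace ℝ (Fin k) →ₗ[ℝ] EuclideanSpace ℝ (Fin k),
        (∀ x, ‖S x‖ ≤ p (T x)) → |LinearMap.det S| ≤ 1) ∧
      ∃ x : Fin k → EuclideanSpace ℝ (Fin k), (∀ i, ‖x i‖ = 1) ∧ (∀ i, p (T (x i)) = 1) ∧
        (k.factorial : ℝ) / k ^ k ≤ (Matrix.det (Matrix.of fun i j => x j i)) ^ 2 := by
  obtain ⟨c, hc, hcp⟩ := lower p hp
  obtain ⟨C, hC⟩ := upper p
  let 𝒮 : Set (EuclideanSpace ℝ (Fin k) →L[ℝ] EuclideanSpace ℝ (Fin k)) := {S | ∀ x, ‖S x‖ ≤ p x}
  have hclosed : IsClosed 𝒮 := by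
    have : 𝒮 = ⋂ x, {S : EuclideanSpace ℝ (Fin k) →L[ℝ] EuclideanSpace ℝ (Fin k) | ‖S x‖ ≤ p x} := by
      ext S; simp [𝒮]
    rw [this]
    apply isClosed_iInter
    intro x
    exact isClosed_le (continuous_norm.comp (ContinuousLinearMap.apply ℝ _ x).continuous)
      continuous_const
  have hbdd : Bornology.IsBounded 𝒮 := by
    rw [isBounded_iff_forall_norm_le]
    refine ⟨max C 0, fun S hS => ?_⟩
    apply ContinuousLinearMap.opNorm_le_bound _ (le_max_right _ _)
    intro x
    exact (hS x).trans ((hC x).trans (mul_le_mul_of_nonneg_right (le_max_left _ _) (norm_nonneg _)))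
  have hcompact : IsCompact 𝒮 := Metric.isCompact_of_isClosed_isBounded hclosed hbdd
  have hmem : c • ContinuousLinearMap.id ℝ (EuclideanSpace ℝ (Fin k)) ∈ 𝒮 := by
    intro x
    simp only [smul_apply, ContinuousLinearMap.id_apply, norm_smul,
      Real.norm_eq_abs, abs_of_pos hc]
    exact hcp x
  obtain ⟨S0, hS0, hmax⟩ := hcompact.exists_isMaxOn ⟨_, hmem⟩
    (f := fun S => |S.det|) (continuous_abs.comp ContinuousLinearMap.continuous_det).continuousOn
  have hdet0 : 0 < |S0.det| := by
    have h1 : |(c • ContinuousLinearMap.id ℝ (EuclideanSpace ℝ (Fin k))).det| ≤ |S0.det| := hmax hmem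
    have h2 : (c • ContinuousLinearMap.id ℝ (EuclideanSpace ℝ (Fin k))).det = c ^ k := by
      change LinearMap.det (c • (LinearMap.id : EuclideanSpace ℝ (Fin k) →ₗ[ℝ] _)) = _
      rw [LinearMap.det_smul, LinearMap.det_id, mul_one, finrank_euclideanSpace, Fintype.card_fin]
    rw [h2] at h1
    exact lt_of_lt_of_le (by positivity) h1
  have hne0 : LinearMap.det (S0 : EuclideanSpace ℝ (Fin k) →ₗ[ℝ] EuclideanSpace ℝ (Fin k)) ≠ 0 :=
    abs_pos.mp hdet0
  let E := LinearEquiv.ofIsUnitDet (f := (S0 : EuclideanSpace ℝ (Fin k) →ₗ[ℝ] EuclideanSpace ℝ (Fin k)))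
    (v := (EuclideanSpace.basisFun (Fin k) ℝ).toBasis)
    (v' := (EuclideanSpace.basisFun (Fin k) ℝ).toBasis)
    (by rw [LinearMap.det_toMatrix]; exact isUnit_iff_ne_zero.mpr hne0)
  have hE : ∀ x, E x = S0 x := fun x => rfl
  let T := E.symm
  have hT1 : ∀ x, ‖x‖ ≤ p (T x) := by
    intro x
    have h1 := hS0 (T x)
    rw [← hE, E.apply_symm_apply] at h1
    exact h1
  have hT2 : ∀ S : EuclideanSpace ℝ (Fin k) →ₗ[ℝ] EuclideanSpace ℝ (Fin k),
      (∀ x, ‖S x‖ ≤ p (T x)) → |LinearMap.det S| ≤ 1 := by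
    intro S hS
    let S' : EuclideanSpace ℝ (Fin k) →L[ℝ] EuclideanSpace ℝ (Fin k) :=
      (LinearMap.toContinuousLinearMap S).comp S0
    have hS' : S' ∈ 𝒮 := by
      intro x
      have h1 := hS (E x)
      rw [show T (E x) = x from E.symm_apply_apply x] at h1
      exact h1
    have h2 : |S'.det| ≤ |S0.det| := hmax hS'
    have h3 : S'.det = LinearMap.det S * S0.det := by
      change LinearMap.det (S ∘ₗ (S0 : EuclideanSpace ℝ (Fin k) →ₗ[ℝ] EuclideanSpace ℝ (Fin k))) = _
      rw [LinearMap.det_comp]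
    rw [h3, abs_mul] at h2
    exact le_of_mul_le_mul_right (by rw [one_mul]; exact h2) hdet0
  refine ⟨T, hT1, hT2, ?_⟩
  exact contact (p.comp (T : EuclideanSpace ℝ (Fin k) →ₗ[ℝ] EuclideanSpace ℝ (Fin k))) hT1 hT2

end

end VR29
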