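import Pool.Agent.Lib.VR29.Defs
import Pool.Agent.Lib.VR29.DvR

/-!
# DRMain: maximal ellipsoid and large parallelepiped

PROOF. From `dvr_euclid` (optimal position and the Dvoretzky and Rogers lemma for norms) applied to the
support function of `K`, transported to `EuclideanSpace ℝ (Fin k)` by the orthonormal basis `b`.
-/

set_option autoImplicit false

open MeasureTheory Set

open scoped ENNReal NNReal

noncomputable section

namespace VR29

variable {V : Type*} [NormedAddCommGroup V] [InnerProductSpace ℝ V] [FiniteDimensional ℝ V]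

namespace DRMainAux

/-- The support function of a symmetric set. -/
def supp (K : Set V) (v : V) : ℝ := sSup ((fun y => |inner ℝ v y|) '' K)

omit [FiniteDimensional ℝ V] in
lemma bdd (K : Set V) (hK : SBody K) (v : V) : BddAbove ((fun y => |inner ℝ v y|) '' K) := by
  apply (hK.comp.image_of_continuousOn _).bddAbove
  exact (continuous_abs.comp (Continuous.inner continuous_const continuous_id)).continuousOn

omit [FiniteDimensional ℝ V] in
lemma mem_zero (K : Set V) (hK : SBody K) : (0 : V) ∈ K := mem_of_mem_nhds hK.nhd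

omit [FiniteDimensional ℝ V] in
lemma le_supp (K : Set V) (hK : SBody K) (v y : V) (hy : y ∈ K) : |inner ℝ v y| ≤ supp K v :=
  le_csSup (bdd K hK v) ⟨y, hy, rfl⟩

omit [FiniteDimensional ℝ V] in
lemma supp_le (K : Set V) (hK : SBody K) (v : V) (c : ℝ) (h : ∀ y ∈ K, |inner ℝ v y| ≤ c) :
    supp K v ≤ c := by
  apply csSup_le (Set.Nonempty.image _ ⟨0, mem_zero K hK⟩)
  rintro _ ⟨y, hy, rfl⟩
  exact h y hy

omit [FiniteDimensional ℝ V] in
lemma supp_nonneg (K : Set V) (hK : SBody K) (v : V) : 0 ≤ supp K v :=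
  (abs_nonneg _).trans (le_supp K hK v 0 (mem_zero K hK))

/-- The support function as a seminorm. -/
def suppS (K : Set V) (hK : SBody K) : Seminorm ℝ V :=
  Seminorm.of (supp K)
    (by
      intro x y
      apply supp_le K hK
      intro z hz
      rw [inner_add_left]
      exact (abs_add_le _ _).trans (add_le_add (le_supp K hK x z hz) (le_supp K hK y z hz)))
    (by
      intro a x
      have key : ∀ (c : ℝ) (w : V), supp K (c • w) ≤ |c| * supp K w := by
        intro c w
        apply supp_le K hK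
        intro z hz
        rw [inner_smul_left, abs_mul]
        exact mul_le_mul_of_nonneg_left (le_supp K hK w z hz) (abs_nonneg _)
      rw [Real.norm_eq_abs]
      apply le_antisymm (key a x)
      rcases eq_or_ne a 0 with h | h
      · rw [h, abs_zero, zero_mul]
        exact supp_nonneg K hK _
      · have h1 := key a⁻¹ (a • x)
        rw [smul_smul, inv_mul_cancel₀ h, one_smul, abs_inv] at h1
        have h2 : 0 < |a| := abs_pos.mpr h
        calc |a| * supp K x ≤ |a| * (|a|⁻¹ * supp K (a • x)) := mul_le_mul_of_nonneg_left h1 h2.le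
          _ = supp K (a • x) := by rw [← mul_assoc, mul_inv_cancel₀ h2.ne', one_mul])

omit [FiniteDimensional ℝ V] in
lemma suppS_apply (K : Set V) (hK : SBody K) (v : V) : suppS K hK v = supp K v := rfl

omit [FiniteDimensional ℝ V] in
lemma supp_eq_zero (K : Set V) (hK : SBody K) (v : V) (h : supp K v = 0) : v = 0 := by
  obtain ⟨r, hr, hrK⟩ := Metric.mem_nhds_iff.mp hK.nhd
  by_contra hv
  have hv' : 0 < ‖v‖ := norm_pos_iff.mpr hv
  have hmem : (r / (2 * ‖v‖)) • v ∈ K := by
    apply hrK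
    rw [mem_ball_zero_iff, norm_smul, Real.norm_eq_abs, abs_of_pos (by positivity)]
    have : r / (2 * ‖v‖) * ‖v‖ = r / 2 := by field_simp
    rw [this]; linarith
  have h1 := le_supp K hK v _ hmem
  rw [h, inner_smul_right, real_inner_self_eq_norm_sq, abs_of_pos (by positivity)] at h1
  have : 0 < r / (2 * ‖v‖) * ‖v‖ ^ 2 := by positivity
  linarith

lemma sep (K : Set V) (hK : SBody K) (x : V) (hx : x ∉ K) :
    ∃ u : V, u ∈ PV K ∧ 1 < inner ℝ u x := by
  obtain ⟨f, c, hf1, hf2⟩ := geometric_hahn_banach_closed_point hK.conv hK.comp.isClosed hx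
  have hc : 0 < c := by
    have := hf1 0 (mem_zero K hK)
    simpa using this
  set u0 := (InnerProductSpace.toDual ℝ V).symm f with hu0
  have hf : ∀ y, inner ℝ u0 y = f y := fun y => InnerProductSpace.toDual_symm_apply
  refine ⟨c⁻¹ • u0, ?_, ?_⟩
  · intro y hy
    rw [inner_smul_left, hf y]
    have h1 := hf1 y hy
    have h2 := hf1 (-y) (hK.symm y hy)
    rw [map_neg] at h2
    simp only [conj_trivial]
    rw [abs_mul, abs_of_pos (inv_pos.mpr hc)]
    have h3 : |f y| ≤ c := abs_le.mpr ⟨by linarith, h1.le⟩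
    calc c⁻¹ * |f y| ≤ c⁻¹ * c := mul_le_mul_of_nonneg_left h3 (inv_pos.mpr hc).le
      _ = 1 := inv_mul_cancel₀ hc.ne'
  · rw [inner_smul_left, hf x]
    simp only [conj_trivial]
    calc (1 : ℝ) = c⁻¹ * c := (inv_mul_cancel₀ hc.ne').symm
      _ < c⁻¹ * f x := mul_lt_mul_of_pos_left hf2 (inv_pos.mpr hc)

lemma det_adj {k : ℕ} (b : OrthonormalBasis (Fin k) ℝ V) (T : V →ₗ[ℝ] V) :
    LinearMap.det (LinearMap.adjoint T) = LinearMap.det T := by
  rw [← LinearMap.det_toMatrix b.toBasis, ← LinearMap.det_toMatrix b.toBasis,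
    LinearMap.toMatrix_adjoint b b T, Matrix.det_conjTranspose]
  simp

lemma exp_bound (k : ℕ) : Real.exp (-(k : ℝ)) ≤ (k.factorial : ℝ) / k ^ k := by
  rcases Nat.eq_zero_or_pos k with h | h
  · subst h; simp
  · have hk : (0 : ℝ) < k := by exact_mod_cast h
    have h1 : (k : ℝ) ^ k / k.factorial ≤ Real.exp k := Real.pow_div_factorial_le_exp k hk.le k
    have h2 : (0 : ℝ) < k.factorial := by exact_mod_cast Nat.factorial_pos k
    rw [div_le_iff₀ h2] at h1
    rw [Real.exp_neg, le_div_iff₀ (by positivity), inv_mul_le_iff₀ (Real.exp_pos _)]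
    exact h1

end DRMainAux

open DRMainAux

theorem dr_main (K : Set V) (hK : SBody K) (k : ℕ) (hk : Module.finrank ℝ V = k)
    (b : OrthonormalBasis (Fin k) ℝ V) :
    ∃ T : V ≃ₗ[ℝ] V, (∀ x, ‖x‖ ≤ 1 → T x ∈ K) ∧ ∃ u : Fin k → V, (∀ i, u i ∈ PV K) ∧
      Real.exp (-(k : ℝ) / 2) ≤ |LinearMap.det (T : V →ₗ[ℝ] V)| * |b.toBasis.det u| := by
  let φ := b.repr
  obtain ⟨T0, hT1, _, x, hx1, hx2, hx3⟩ := dvr_euclid
    ((suppS K hK).comp (φ.symm.toLinearEquiv : EuclideanSpace ℝ (Fin k) →ₗ[ℝ] V)) (by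
      intro y hy
      have h1 : supp K (φ.symm y) = 0 := hy
      have h2 := supp_eq_zero K hK _ h1
      exact (LinearIsometryEquiv.map_eq_zero_iff φ.symm).mp h2)
  have hT1' : ∀ y, ‖y‖ ≤ supp K (φ.symm (T0 y)) := hT1
  have hx2' : ∀ i, supp K (φ.symm (T0 (x i))) = 1 := hx2
  let A : V ≃ₗ[ℝ] V := (φ.toLinearEquiv.trans T0).trans φ.symm.toLinearEquiv
  have hA : ∀ v, A v = φ.symm (T0 (φ v)) := fun v => rfl
  have hAn : ∀ v, ‖v‖ ≤ supp K (A v) := by
    intro v
    rw [hA v, ← φ.norm_map v]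
    exact hT1' _
  have hcomp1 : (LinearMap.adjoint (A.symm : V →ₗ[ℝ] V)) ∘ₗ (LinearMap.adjoint (A : V →ₗ[ℝ] V)) =
      LinearMap.id := by
    rw [← LinearMap.adjoint_comp]
    simp
  have hcomp2 : (LinearMap.adjoint (A : V →ₗ[ℝ] V)) ∘ₗ (LinearMap.adjoint (A.symm : V →ₗ[ℝ] V)) =
      LinearMap.id := by
    rw [← LinearMap.adjoint_comp]
    simp
  let T : V ≃ₗ[ℝ] V := LinearEquiv.ofLinear (LinearMap.adjoint (A.symm : V →ₗ[ℝ] V))
    (LinearMap.adjoint (A : V →ₗ[ℝ] V)) hcomp1 hcomp2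
  have hT : ∀ v, T v = LinearMap.adjoint (A.symm : V →ₗ[ℝ] V) v := fun v => rfl
  refine ⟨T, ?_, fun i => A (φ.symm (x i)), ?_, ?_⟩
  · intro v hv
    by_contra hcon
    obtain ⟨u, hu1, hu2⟩ := sep K hK _ hcon
    rw [hT, LinearMap.adjoint_inner_right] at hu2
    have h1 : ‖A.symm u‖ ≤ supp K u := by
      have := hAn (A.symm u)
      rwa [A.apply_symm_apply] at this
    have h2 : supp K u ≤ 1 := supp_le K hK u 1 (fun y hy => hu1 y hy)
    have h3 : inner ℝ ((A.symm : V →ₗ[ℝ] V) u) v ≤ ‖A.symm u‖ * ‖v‖ := real_inner_le_norm _ _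
    have h4 : ‖A.symm u‖ * ‖v‖ ≤ 1 * 1 :=
      mul_le_mul (h1.trans h2) hv (norm_nonneg _) zero_le_one
    linarith
  · intro i y hy
    have h1 := le_supp K hK (A (φ.symm (x i))) y hy
    rw [hA, φ.apply_symm_apply, hx2' i] at h1
    change |inner ℝ (A (φ.symm (x i))) y| ≤ 1
    rw [hA, φ.apply_symm_apply]
    exact h1
  · have hdT : LinearMap.det (T : V →ₗ[ℝ] V) * LinearMap.det (A : V →ₗ[ℝ] V) = 1 := by
      have h1 : LinearMap.det (T : V →ₗ[ℝ] V) = LinearMap.det (A.symm : V →ₗ[ℝ] V) :=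
        det_adj b (A.symm : V →ₗ[ℝ] V)
      rw [h1, ← LinearMap.det_comp]
      have : (A.symm : V →ₗ[ℝ] V) ∘ₗ (A : V →ₗ[ℝ] V) = LinearMap.id := by simp
      rw [this, LinearMap.det_id]
    have hdet : b.toBasis.det (fun i => A (φ.symm (x i))) =
        LinearMap.det (A : V →ₗ[ℝ] V) * b.toBasis.det (fun i => φ.symm (x i)) := by
      have := b.toBasis.det_comp (A : V →ₗ[ℝ] V) (fun i => φ.symm (x i))
      rw [← this]
      rfl
    have hdx : b.toBasis.det (fun i => φ.symm (x i)) = Matrix.det (Matrix.of fun i j => x j i) := by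
      rw [Module.Basis.det_apply]
      congr 1
      ext i j
      rw [Module.Basis.toMatrix_apply, Matrix.of_apply, OrthonormalBasis.coe_toBasis_repr_apply]
      simp [φ]
    have h1 : Real.exp (-(k : ℝ)) ≤ (Matrix.det (Matrix.of fun i j => x j i)) ^ 2 :=
      (exp_bound k).trans hx3
    have h2 : Real.exp (-(k : ℝ) / 2) ≤ |Matrix.det (Matrix.of fun i j => x j i)| := by
      refine (pow_le_pow_iff_left₀ (Real.exp_pos _).le (abs_nonneg _) (by norm_num : (2 : ℕ) ≠ 0)).mp ?_
      rw [sq_abs, ← Real.exp_nat_mul]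
      refine le_trans (le_of_eq ?_) h1
      congr 1
      push_cast
      ring
    rw [← abs_mul, hdet, ← mul_assoc, hdT, one_mul, hdx]
    exact h2

end VR29

end
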