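import Pool.Agent.Lib.VR29.Spec

/-!
# VR29: volume part of MP_29a76b (Blaschke-Santalo, Dvoretzky-Rogers, volume ratio) -- definitions
-/

set_option autoImplicit false

open MeasureTheory Set

open scoped ENNReal

noncomputable section

namespace VR29

/-- scalar product on `ℝ^n` -/
def dotp {n : ℕ} (x y : Fin n → ℝ) : ℝ := ∑ i, x i * y i

/-- polar of a set -/
def pol {n : ℕ} (K : Set (Fin n → ℝ)) : Set (Fin n → ℝ) := {y | ∀ x ∈ K, dotp x y ≤ 1}

/-- Euclidean unit ball -/
def eball (n : ℕ) : Set (Fin n → ℝ) := {x | ∑ i, x i ^ 2 ≤ 1}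

/-- reflection of the coordinate `i` -/
def refl {n : ℕ} (i : Fin n) (x : Fin n → ℝ) : Fin n → ℝ := Function.update x i (-(x i))

/-- insert `s` as coordinate `i` -/
def ins {n : ℕ} (i : Fin (n + 1)) (s : ℝ) (x : Fin n → ℝ) : Fin (n + 1) → ℝ :=
  Fin.insertNth (α := fun _ => ℝ) i s x

/-- Steiner symmetral in direction `i` (for convex sets) -/
def stein {n : ℕ} (i : Fin (n + 1)) (K : Set (Fin (n + 1) → ℝ)) : Set (Fin (n + 1) → ℝ) :=
  {z | ∃ s t : ℝ, ∃ x : Fin n → ℝ, ins i s x ∈ K ∧ ins i t x ∈ K ∧ z = ins i ((s - t) / 2) x}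

/-- symmetric convex body in `ℝ^n` -/
structure SymBody {n : ℕ} (K : Set (Fin n → ℝ)) : Prop where
  conv : Convex ℝ K
  comp : IsCompact K
  symm : ∀ x ∈ K, -x ∈ K
  nhd : K ∈ nhds (0 : Fin n → ℝ)

@[simp] theorem ins_same {n : ℕ} (i : Fin (n + 1)) (s : ℝ) (x : Fin n → ℝ) : ins i s x i = s := by
  simp [ins]

@[simp] theorem ins_succAbove {n : ℕ} (i : Fin (n + 1)) (s : ℝ) (x : Fin n → ℝ) (j : Fin n) :
    ins i s x (i.succAbove j) = x j := by
  simp [ins]

theorem ins_surj {n : ℕ} (i : Fin (n + 1)) (z : Fin (n + 1) → ℝ) :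
    z = ins i (z i) (fun j => z (i.succAbove j)) := by
  funext j
  rcases eq_or_ne j i with h | h
  · subst h; simp
  · obtain ⟨j', rfl⟩ := Fin.exists_succAbove_eq h
    simp

theorem ins_add {n : ℕ} (i : Fin (n + 1)) (s t : ℝ) (x y : Fin n → ℝ) :
    ins i s x + ins i t y = ins i (s + t) (x + y) := by
  funext j
  rcases eq_or_ne j i with h | h
  · subst h; simp
  · obtain ⟨j', rfl⟩ := Fin.exists_succAbove_eq h
    simp

theorem ins_smul {n : ℕ} (i : Fin (n + 1)) (c s : ℝ) (x : Fin n → ℝ) :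
    c • ins i s x = ins i (c * s) (c • x) := by
  funext j
  rcases eq_or_ne j i with h | h
  · subst h; simp
  · obtain ⟨j', rfl⟩ := Fin.exists_succAbove_eq h
    simp

theorem ins_neg {n : ℕ} (i : Fin (n + 1)) (s : ℝ) (x : Fin n → ℝ) :
    -ins i s x = ins i (-s) (-x) := by
  funext j
  rcases eq_or_ne j i with h | h
  · subst h; simp
  · obtain ⟨j', rfl⟩ := Fin.exists_succAbove_eq h
    simp

theorem ins_zero {n : ℕ} (i : Fin (n + 1)) : ins i 0 (0 : Fin n → ℝ) = 0 := by
  funext j
  rcases eq_or_ne j i with h | h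
  · subst h; simp
  · obtain ⟨j', rfl⟩ := Fin.exists_succAbove_eq h
    simp

theorem ins_inj {n : ℕ} {i : Fin (n + 1)} {s t : ℝ} {x y : Fin n → ℝ}
    (h : ins i s x = ins i t y) : s = t ∧ x = y := by
  refine ⟨by simpa using congrFun h i, ?_⟩
  funext j
  simpa using congrFun h (i.succAbove j)

theorem dotp_ins {n : ℕ} (i : Fin (n + 1)) (s t : ℝ) (x y : Fin n → ℝ) :
    dotp (ins i s x) (ins i t y) = s * t + dotp x y := by
  unfold dotp
  rw [Fin.sum_univ_succAbove _ i]
  simp

theorem continuous_ins {n : ℕ} (i : Fin (n + 1)) :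
    Continuous (fun p : ℝ × (Fin n → ℝ) => ins i p.1 p.2) := by
  refine continuous_pi (fun j => ?_)
  rcases eq_or_ne j i with h | h
  · subst h; simp only [ins_same]; exact continuous_fst
  · obtain ⟨j', rfl⟩ := Fin.exists_succAbove_eq h
    simp only [ins_succAbove]
    exact (continuous_apply j').comp continuous_snd

theorem refl_apply_same {n : ℕ} (i : Fin n) (x : Fin n → ℝ) : refl i x i = -(x i) := by
  simp [refl]

theorem refl_apply_ne {n : ℕ} {i j : Fin n} (h : j ≠ i) (x : Fin n → ℝ) : refl i x j = x j := by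
  simp [refl, h]

theorem refl_refl {n : ℕ} (i : Fin n) (x : Fin n → ℝ) : refl i (refl i x) = x := by
  funext j
  rcases eq_or_ne j i with h | h
  · subst h; simp [refl]
  · rw [refl_apply_ne h, refl_apply_ne h]

theorem refl_ins_same {n : ℕ} (i : Fin (n + 1)) (s : ℝ) (x : Fin n → ℝ) :
    refl i (ins i s x) = ins i (-s) x := by
  funext j
  rcases eq_or_ne j i with h | h
  · subst h; simp [refl]
  · rw [refl_apply_ne h]
    obtain ⟨j', rfl⟩ := Fin.exists_succAbove_eq h
    simp

theorem refl_ins_succAbove {n : ℕ} (i : Fin (n + 1)) (j : Fin n) (s : ℝ) (x : Fin n → ℝ) :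
    refl (i.succAbove j) (ins i s x) = ins i s (refl j x) := by
  funext l
  rcases eq_or_ne l i with h | h
  · subst h
    rw [refl_apply_ne (Fin.succAbove_ne _ _).symm]
    simp
  · obtain ⟨l', rfl⟩ := Fin.exists_succAbove_eq h
    rcases eq_or_ne l' j with h' | h'
    · subst h'
      rw [refl_apply_same]
      simp [refl_apply_same]
    · rw [refl_apply_ne (fun h2 => h' (Fin.succAbove_right_injective h2))]
      simp [refl_apply_ne h']

/-- volume by slices `s = const` -/
theorem vol_slice {n : ℕ} (i : Fin (n + 1)) (A : Set (Fin (n + 1) → ℝ)) (hA : MeasurableSet A) :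
    volume A = ∫⁻ s : ℝ, volume {x : Fin n → ℝ | ins i s x ∈ A} := by
  have h := (volume_preserving_piFinSuccAbove (fun _ : Fin (n + 1) => ℝ) i).symm
  have h2 := h.measure_preimage hA.nullMeasurableSet
  rw [← h2, Measure.volume_eq_prod, Measure.prod_apply]
  · rfl
  · exact hA.preimage (MeasurableEquiv.measurable _)

theorem measurable_slice {n : ℕ} (i : Fin (n + 1)) (A : Set (Fin (n + 1) → ℝ))
    (hA : MeasurableSet A) : Measurable (fun s : ℝ => volume {x : Fin n → ℝ | ins i s x ∈ A}) := by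
  have h := hA.preimage (MeasurableEquiv.piFinSuccAbove (fun _ : Fin (n + 1) => ℝ) i).symm.measurable
  exact measurable_measure_prodMk_left h

/-- volume by lines in direction `i` -/
theorem vol_line {n : ℕ} (i : Fin (n + 1)) (A : Set (Fin (n + 1) → ℝ)) (hA : MeasurableSet A) :
    volume A = ∫⁻ x : Fin n → ℝ, volume {s : ℝ | ins i s x ∈ A} := by
  have h := (volume_preserving_piFinSuccAbove (fun _ : Fin (n + 1) => ℝ) i).symm
  have h2 := h.measure_preimage hA.nullMeasurableSet
  rw [← h2, Measure.volume_eq_prod, Measure.prod_apply_symm]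
  · rfl
  · exact hA.preimage (MeasurableEquiv.measurable _)

theorem measurableSet_slice {n : ℕ} (i : Fin (n + 1)) (A : Set (Fin (n + 1) → ℝ))
    (hA : MeasurableSet A) (s : ℝ) : MeasurableSet {x : Fin n → ℝ | ins i s x ∈ A} := by
  have : Continuous (fun x : Fin n → ℝ => ins i s x) :=
    (continuous_ins i).comp (Continuous.prodMk_right s)
  exact hA.preimage this.measurable

theorem measurableSet_line {n : ℕ} (i : Fin (n + 1)) (A : Set (Fin (n + 1) → ℝ))
    (hA : MeasurableSet A) (x : Fin n → ℝ) : MeasurableSet {s : ℝ | ins i s x ∈ A} := by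
  have : Continuous (fun s : ℝ => ins i s x) :=
    (continuous_ins i).comp (Continuous.prodMk_left x)
  exact hA.preimage this.measurable

theorem measurableSet_eball (n : ℕ) : MeasurableSet (eball n) := by
  unfold eball
  exact measurableSet_le (by fun_prop) (by fun_prop)

/-- polar of a symmetric set in a Euclidean space -/
def PV {V : Type*} [NormedAddCommGroup V] [InnerProductSpace ℝ V] (K : Set V) : Set V :=
  {v | ∀ y ∈ K, |inner ℝ v y| ≤ 1}

/-- symmetric convex body in a Euclidean space -/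
structure SBody {V : Type*} [NormedAddCommGroup V] [InnerProductSpace ℝ V] (K : Set V) : Prop where
  conv : Convex ℝ K
  comp : IsCompact K
  symm : ∀ x ∈ K, -x ∈ K
  nhd : K ∈ nhds (0 : V)

/-- covering property: partial colouring for all systems in the polar -/
def Cov {V : Type*} [NormedAddCommGroup V] [InnerProductSpace ℝ V] (K : Set V) (k : ℕ) (R : ℝ) :
    Prop :=
  ∀ u : Fin k → V, (∀ i, u i ∈ PV K) → ∀ x : Fin k → ℝ, (∀ i, |x i| ≤ 1) →
    ∃ z : Fin k → ℝ, (∀ i, z i = 1 ∨ z i = -1) ∧ ∀ y ∈ K, |inner ℝ (∑ i, (x i - z i) • u i) y| ≤ R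

end VR29

end
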