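import Pool.Agent.Lib.VR29.Ball

/-!
# KPar: the body lies in the dual parallelepiped
-/

set_option autoImplicit false

open MeasureTheory Set

open scoped ENNReal NNReal

noncomputable section

namespace VR29

variable {V : Type*} [NormedAddCommGroup V] [InnerProductSpace ℝ V] [FiniteDimensional ℝ V]
  [MeasurableSpace V] [BorelSpace V]

namespace KParAux

/-- the map `y ↦ ∑ inner (u i) y • b i` -/
def DD {k : ℕ} (b : OrthonormalBasis (Fin k) ℝ V) (u : Fin k → V) : V →ₗ[ℝ] V :=
  ∑ i, (innerₗ V (u i)).smulRight (b i)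

omit [FiniteDimensional ℝ V] [MeasurableSpace V] [BorelSpace V] in
theorem DD_apply {k : ℕ} (b : OrthonormalBasis (Fin k) ℝ V) (u : Fin k → V) (y : V) :
    DD b u y = ∑ i, inner ℝ (u i) y • b i := by
  simp [DD, LinearMap.sum_apply]

omit [FiniteDimensional ℝ V] [MeasurableSpace V] [BorelSpace V] in
theorem inner_DD {k : ℕ} (b : OrthonormalBasis (Fin k) ℝ V) (u : Fin k → V) (y : V) (a : Fin k) :
    inner ℝ (b a) (DD b u y) = inner ℝ (u a) y := by
  rw [DD_apply, inner_sum, Finset.sum_eq_single a]
  · rw [inner_smul_right, real_inner_self_eq_norm_sq, b.norm_eq_one]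
    ring
  · intro i _ hi
    rw [inner_smul_right, b.inner_eq_zero hi.symm, mul_zero]
  · simp

omit [MeasurableSpace V] [BorelSpace V] in
theorem adj_DD {k : ℕ} (b : OrthonormalBasis (Fin k) ℝ V) (u : Fin k → V) (a : Fin k) :
    LinearMap.adjoint (DD b u) (b a) = u a := by
  refine ext_inner_right ℝ (fun y => ?_)
  rw [LinearMap.adjoint_inner_left, inner_DD]

omit [MeasurableSpace V] [BorelSpace V] in
theorem det_DD {k : ℕ} (b : OrthonormalBasis (Fin k) ℝ V) (u : Fin k → V) :
    LinearMap.det (DD b u) = b.toBasis.det u := by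
  have h2 := b.toBasis.det_comp (LinearMap.adjoint (DD b u)) b.toBasis
  rw [Module.Basis.det_self, mul_one] at h2
  have h4 : (LinearMap.adjoint (DD b u)) ∘ b.toBasis = u := by
    ext1 i
    simp only [Function.comp_apply, OrthonormalBasis.coe_toBasis]
    exact adj_DD b u i
  rw [h4] at h2
  rw [h2, ← LinearMap.det_toMatrix b.toBasis, ← LinearMap.det_toMatrix b.toBasis (LinearMap.adjoint _)]
  have h5 : LinearMap.toMatrix b.toBasis b.toBasis (LinearMap.adjoint (DD b u)) =
      (LinearMap.toMatrix b.toBasis b.toBasis (DD b u)).conjTranspose :=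
    LinearMap.toMatrix_adjoint b b (DD b u)
  rw [h5, Matrix.det_conjTranspose]
  simp

end KParAux

open KParAux

theorem k_par (K : Set V) (hK : SBody K) (k : ℕ) (b : OrthonormalBasis (Fin k) ℝ V)
    (u : Fin k → V) (hu : ∀ i, u i ∈ PV K) :
    |b.toBasis.det u| * volume.real K ≤ 2 ^ k := by
  have h1 : volume (DD b u '' K) ≤ ENNReal.ofReal ((2 * 1) ^ k) := by
    rw [← box_volume (V := V) one_pos b]
    apply measure_mono
    rintro _ ⟨y, hy, rfl⟩
    intro a
    rw [inner_DD]
    exact hu a y hy
  rw [Measure.addHaar_image_linearMap, det_DD] at h1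
  have h2 := ENNReal.toReal_mono (by simp) h1
  rw [ENNReal.toReal_mul, ENNReal.toReal_ofReal (abs_nonneg _),
    ENNReal.toReal_ofReal (by positivity)] at h2
  simpa [Measure.real] using h2

end VR29

end
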