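import Pool.Agent.Lib.VR29.Defs

/-!
# NDefs: the nuclear norm, its unit ball, the volume ratio
-/

set_option autoImplicit false

open MeasureTheory Set

open scoped ENNReal NNReal

noncomputable section

namespace VR29

theorem nuclearNorm_eq {d : ℕ} (A : Matrix (Fin d) (Fin d) ℝ) :
    ∃ b : OrthonormalBasis (Fin d) ℝ (EuclideanSpace ℝ (Fin d)), ∃ σ : Fin d → ℝ,
      (∀ i, 0 ≤ σ i) ∧ (∀ i, LinearMap.adjoint (Matrix.toEuclideanLin A)
        (Matrix.toEuclideanLin A (b i)) = (σ i ^ 2) • b i) ∧ nuclearNorm A = ∑ i, σ i := by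
  set T := Matrix.toEuclideanLin A with hT
  have hn : Module.finrank ℝ (EuclideanSpace ℝ (Fin d)) = d := finrank_euclideanSpace_fin
  have hS := T.isSymmetric_adjoint_comp_self
  refine ⟨hS.eigenvectorBasis hn, fun i => T.singularValues i, fun i => T.singularValues_nonneg _,
    fun i => ?_, ?_⟩
  · have h := hS.apply_eigenvectorBasis hn i
    rw [T.sq_singularValues_fin hn i]
    exact h
  · unfold nuclearNorm
    rw [Finset.sum_range]

theorem norm_of_adjoint {d : ℕ} {T : EuclideanSpace ℝ (Fin d) →ₗ[ℝ] EuclideanSpace ℝ (Fin d)}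
    {v : EuclideanSpace ℝ (Fin d)} {s : ℝ} (hs : 0 ≤ s) (hv : ‖v‖ = 1)
    (h : LinearMap.adjoint T (T v) = (s ^ 2) • v) : ‖T v‖ = s := by
  have h1 : ‖T v‖ ^ 2 = s ^ 2 := by
    rw [← real_inner_self_eq_norm_sq, ← LinearMap.adjoint_inner_right, h, inner_smul_right,
      real_inner_self_eq_norm_sq, hv]
    ring
  exact (sq_eq_sq₀ (norm_nonneg _) hs).mp h1

/-- the bilinear form `tr (Aᵀ X)` -/
def fro {d : ℕ} (A X : Matrix (Fin d) (Fin d) ℝ) : ℝ := ∑ i, ∑ j, A i j * X i j

/-- `A` does not increase the Euclidean norm -/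
def Contr {d : ℕ} (A : Matrix (Fin d) (Fin d) ℝ) : Prop :=
  ∀ v : EuclideanSpace ℝ (Fin d), ‖Matrix.toEuclideanLin A v‖ ≤ ‖v‖

theorem fro_eq_sum_inner {d : ℕ} (b : OrthonormalBasis (Fin d) ℝ (EuclideanSpace ℝ (Fin d)))
    (A X : Matrix (Fin d) (Fin d) ℝ) :
    fro A X = ∑ i, inner ℝ (Matrix.toEuclideanLin A (b i)) (Matrix.toEuclideanLin X (b i)) := by
  classical
  have h1 : LinearMap.trace ℝ _ (LinearMap.adjoint (Matrix.toEuclideanLin A) ∘ₗ
      Matrix.toEuclideanLin X) =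
      ∑ i, inner ℝ (Matrix.toEuclideanLin A (b i)) (Matrix.toEuclideanLin X (b i)) := by
    rw [LinearMap.trace_eq_sum_inner _ b]
    refine Finset.sum_congr rfl (fun i _ => ?_)
    rw [LinearMap.comp_apply, LinearMap.adjoint_inner_right]
  have h2 : LinearMap.trace ℝ _ (LinearMap.adjoint (Matrix.toEuclideanLin A) ∘ₗ
      Matrix.toEuclideanLin X) = fro A X := by
    rw [LinearMap.trace_eq_sum_inner _ (EuclideanSpace.basisFun (Fin d) ℝ)]
    unfold fro
    rw [Finset.sum_comm]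
    refine Finset.sum_congr rfl (fun j _ => ?_)
    rw [LinearMap.comp_apply, LinearMap.adjoint_inner_right]
    rw [PiLp.inner_apply]
    refine Finset.sum_congr rfl (fun i _ => ?_)
    simp [mul_comm]
  rw [← h2, h1]

theorem fro_smul_left {d : ℕ} (c : ℝ) (A X : Matrix (Fin d) (Fin d) ℝ) :
    fro (c • A) X = c * fro A X := by
  unfold fro
  simp only [Matrix.smul_apply, smul_eq_mul, Finset.mul_sum, mul_assoc]

theorem fro_smul_right {d : ℕ} (c : ℝ) (A X : Matrix (Fin d) (Fin d) ℝ) :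
    fro A (c • X) = c * fro A X := by
  unfold fro
  simp only [Matrix.smul_apply, smul_eq_mul, Finset.mul_sum]
  refine Finset.sum_congr rfl (fun i _ => Finset.sum_congr rfl (fun j _ => ?_))
  ring

theorem fro_add_right {d : ℕ} (A X Y : Matrix (Fin d) (Fin d) ℝ) :
    fro A (X + Y) = fro A X + fro A Y := by
  unfold fro
  simp only [Matrix.add_apply, mul_add, Finset.sum_add_distrib]

theorem fro_neg_right {d : ℕ} (A X : Matrix (Fin d) (Fin d) ℝ) : fro A (-X) = -fro A X := by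
  unfold fro
  simp only [Matrix.neg_apply, mul_neg, Finset.sum_neg_distrib]

theorem fro_neg_left {d : ℕ} (A X : Matrix (Fin d) (Fin d) ℝ) : fro (-A) X = -fro A X := by
  unfold fro
  simp only [Matrix.neg_apply, neg_mul, Finset.sum_neg_distrib]

theorem fro_sum_left {d : ℕ} {ι : Type*} (s : Finset ι) (A : ι → Matrix (Fin d) (Fin d) ℝ)
    (X : Matrix (Fin d) (Fin d) ℝ) : fro (∑ i ∈ s, A i) X = ∑ i ∈ s, fro (A i) X := by
  unfold fro
  simp only [Matrix.sum_apply, Finset.sum_mul]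
  rw [Finset.sum_congr rfl (fun i _ => Finset.sum_comm)]
  exact Finset.sum_comm

theorem fro_vecMulVec {d : ℕ} (A : Matrix (Fin d) (Fin d) ℝ) (w v : EuclideanSpace ℝ (Fin d)) :
    fro A (Matrix.vecMulVec (WithLp.ofLp w) (WithLp.ofLp v)) =
      inner ℝ w (Matrix.toEuclideanLin A v) := by
  unfold fro
  rw [PiLp.inner_apply]
  refine Finset.sum_congr rfl (fun i _ => ?_)
  simp only [Matrix.vecMulVec_apply, Matrix.toLpLin_apply, Matrix.mulVec, dotProduct]
  rw [RCLike.inner_apply]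
  simp only [conj_trivial, Finset.sum_mul]
  refine Finset.sum_congr rfl (fun j _ => ?_)
  ring

end VR29

end
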