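import Pool.Agent.Lib.VR29.Ball
import Pool.Agent.Lib.VR29.NDefs

/-!
# VR29.LowRank (helper79, LowRankImages): low rank images of the nuclear norm ball

For all `1 ≤ k ≤ d` there is a linear map `M` of rank `k` from the real `d × d` matrices to `ℝ^d`
such that the volume ratio of the image of the unit ball of the nuclear norm, computed in the linear
span of the image, is at least `(1 / 7) * √(min k (log₂ (2 d / k)))`. The image is a direct sum
(in the sense of `ℓ₁`) of about `k / l` cubes of dimension `l`, where `l` is about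
`min k (log₂ (2 d / k))`; it is the image of the diagonal matrices in the ball.
-/

set_option autoImplicit false

open MeasureTheory Matrix

namespace VR29.LR

open VR29

lemma sum_abs_diag_le {d : ℕ} (A : Matrix (Fin d) (Fin d) ℝ) :
    ∑ s, |A s s| ≤ nuclearNorm A := by
  classical
  obtain ⟨b, σ, hσ, hb, hN⟩ := nuclearNorm_eq A
  set T := Matrix.toEuclideanLin A with hT
  let δ : Fin d → ℝ := fun s => if 0 ≤ A s s then 1 else -1
  set D := Matrix.toEuclideanLin (Matrix.diagonal δ) with hD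
  have hδ : ∀ s, δ s * A s s = |A s s| := by
    intro s
    by_cases h : 0 ≤ A s s
    · simp [δ, h, abs_of_nonneg h]
    · simp [δ, h, abs_of_neg (not_le.mp h)]
  have hδ2 : ∀ s, δ s ^ 2 = 1 := by
    intro s
    by_cases h : 0 ≤ A s s <;> simp [δ, h]
  have hDn : ∀ x, ‖D x‖ = ‖x‖ := by
    intro x
    rw [EuclideanSpace.norm_eq, EuclideanSpace.norm_eq]
    congr 1
    apply Finset.sum_congr rfl
    intro s _
    have : (D x) s = δ s * x s := by
      simp [hD, Matrix.mulVec_diagonal]
    rw [this]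
    simp only [Real.norm_eq_abs, sq_abs]
    rw [mul_pow, hδ2, one_mul]
  have htr1 : LinearMap.trace ℝ _ (D ∘ₗ T) = ∑ s, |A s s| := by
    rw [LinearMap.trace_eq_sum_inner _ (EuclideanSpace.basisFun (Fin d) ℝ)]
    apply Finset.sum_congr rfl
    intro s _
    rw [← hδ s]
    simp [hD, hT, Matrix.mulVec_diagonal, EuclideanSpace.inner_single_left]
  have htr2 : LinearMap.trace ℝ _ (D ∘ₗ T) ≤ ∑ i, σ i := by
    rw [LinearMap.trace_eq_sum_inner _ b]
    apply Finset.sum_le_sum
    intro i _
    calc inner ℝ (b i) ((D ∘ₗ T) (b i)) ≤ ‖b i‖ * ‖(D ∘ₗ T) (b i)‖ := real_inner_le_norm _ _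
      _ = ‖T (b i)‖ := by rw [b.norm_eq_one i, one_mul, LinearMap.comp_apply, hDn]
      _ = σ i := norm_of_adjoint (hσ i) (b.norm_eq_one i) (hb i)
  rw [hN, ← htr1]
  exact htr2

lemma nuclearNorm_diagonal {d : ℕ} (x : Fin d → ℝ) :
    nuclearNorm (Matrix.diagonal x) = ∑ s, |x s| := by
  classical
  obtain ⟨b, σ, hσ, hb, hN⟩ := nuclearNorm_eq (Matrix.diagonal x)
  set T := Matrix.toEuclideanLin (Matrix.diagonal x) with hT
  have hadj : LinearMap.adjoint T = T := by
    rw [hT]
    have := Matrix.toEuclideanLin_conjTranspose_eq_adjoint (Matrix.diagonal x)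
    rw [← this]
    simp
  have hTx : ∀ v s, (T v) s = x s * v s := by
    intro v s
    simp [hT, Matrix.mulVec_diagonal]
  set P := Matrix.toEuclideanLin (Matrix.diagonal (fun s => |x s|)) with hP
  have hPx : ∀ v s, (P v) s = |x s| * v s := by
    intro v s
    simp [hP, Matrix.mulVec_diagonal]
  have hPb : ∀ i, P (b i) = σ i • b i := by
    intro i
    ext s
    rw [hPx]
    have h := hb i
    rw [hadj] at h
    have h2 := congrArg (fun v : EuclideanSpace ℝ (Fin d) => v s) h
    simp only [hTx, PiLp.smul_apply, smul_eq_mul] at h2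
    rw [PiLp.smul_apply, smul_eq_mul]
    by_cases h0 : b i s = 0
    · rw [h0]; simp
    · have h3 : x s ^ 2 = σ i ^ 2 := by
        have : (x s ^ 2) * b i s = σ i ^ 2 * b i s := by rw [← h2]; ring
        exact mul_right_cancel₀ h0 this
      have h4 : |x s| = σ i := by
        rw [← abs_of_nonneg (hσ i)]
        exact (sq_eq_sq_iff_abs_eq_abs _ _).mp h3
      rw [h4]
  have htr1 : LinearMap.trace ℝ _ P = ∑ s, |x s| := by
    rw [LinearMap.trace_eq_sum_inner _ (EuclideanSpace.basisFun (Fin d) ℝ)]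
    apply Finset.sum_congr rfl
    intro s _
    simp [hP, Matrix.mulVec_diagonal, EuclideanSpace.inner_single_left]
  have htr2 : LinearMap.trace ℝ _ P = ∑ i, σ i := by
    rw [LinearMap.trace_eq_sum_inner _ b]
    apply Finset.sum_congr rfl
    intro i _
    rw [hPb, inner_smul_right, real_inner_self_eq_norm_sq, b.norm_eq_one i]
    ring
  rw [hN, ← htr2, htr1]


variable {V : Type*} [NormedAddCommGroup V] [InnerProductSpace ℝ V] [FiniteDimensional ℝ V]
  [MeasurableSpace V] [BorelSpace V]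

lemma hadamard {n : ℕ} (b : OrthonormalBasis (Fin n) ℝ V) (v : Fin n → V) :
    |b.toBasis.det v| ≤ ∏ i, ‖v i‖ := by
  have : Fact (Module.finrank ℝ V = n) := ⟨by
    rw [Module.finrank_eq_card_basis b.toBasis, Fintype.card_fin]⟩
  rw [← b.toBasis.orientation.volumeForm_robust' b v]
  exact Orientation.abs_volumeForm_apply_le _ v

lemma abs_det_le {n : ℕ} (b : OrthonormalBasis (Fin n) ℝ V) (T : V →ₗ[ℝ] V) :
    |LinearMap.det T| ≤ ∏ i, ‖LinearMap.adjoint T (b i)‖ := by
  have h1 : b.toBasis.det (fun i => LinearMap.adjoint T (b i)) = LinearMap.det T := by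
    have h2 := b.toBasis.det_comp (LinearMap.adjoint T) b.toBasis
    have h3 : b.toBasis.det (LinearMap.adjoint T ∘ b.toBasis) = LinearMap.det (LinearMap.adjoint T) := by
      rw [h2, Module.Basis.det_self, mul_one]
    have h4 : (fun i => LinearMap.adjoint T (b i)) = LinearMap.adjoint T ∘ b.toBasis := by
      ext i; simp
    rw [h4, h3]
    rw [← LinearMap.det_toMatrix b.toBasis, ← LinearMap.det_toMatrix b.toBasis]
    have h5 : LinearMap.toMatrix b.toBasis b.toBasis (LinearMap.adjoint T) =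
        (LinearMap.toMatrix b.toBasis b.toBasis T).conjTranspose := by
      exact LinearMap.toMatrix_adjoint b b T
    rw [h5, Matrix.det_conjTranspose]
    simp
  rw [← h1]
  exact hadamard b _

lemma exists_signs {ι : Type*} [DecidableEq ι] (s : Finset ι) (v : ι → V) :
    ∃ σ : ι → ℝ, (∀ j, σ j = 1 ∨ σ j = -1) ∧
      ∑ j ∈ s, ‖v j‖ ^ 2 ≤ ‖∑ j ∈ s, σ j • v j‖ ^ 2 := by
  induction s using Finset.induction_on with
  | empty => exact ⟨fun _ => 1, fun _ => Or.inl rfl, by simp⟩
  | insert a s ha ih =>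
    obtain ⟨σ, hσ, h⟩ := ih
    set u := ∑ j ∈ s, σ j • v j with hu
    let τ : ℝ := if 0 ≤ inner ℝ (v a) u then 1 else -1
    have hτ : τ = 1 ∨ τ = -1 := by
      by_cases h0 : 0 ≤ inner ℝ (v a) u <;> simp [τ, h0]
    have hτ2 : 0 ≤ τ * inner ℝ (v a) u := by
      by_cases h0 : 0 ≤ inner ℝ (v a) u
      · simp [τ, h0]
      · simp only [τ, h0, if_false]
        push Not at h0
        linarith
    refine ⟨Function.update σ a τ, fun j => ?_, ?_⟩
    · by_cases hj : j = a
      · subst hj; simpa using hτ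
      · rw [Function.update_of_ne hj]; exact hσ j
    · rw [Finset.sum_insert ha, Finset.sum_insert ha]
      have h1 : ∑ j ∈ s, (Function.update σ a τ) j • v j = u := by
        rw [hu]
        apply Finset.sum_congr rfl
        intro j hj
        rw [Function.update_of_ne (fun h => ha (by rw [← h]; exact hj))]
      rw [h1, Function.update_self]
      have h2 : ‖τ • v a + u‖ ^ 2 = ‖v a‖ ^ 2 + 2 * (τ * inner ℝ (v a) u) + ‖u‖ ^ 2 := by
        rw [norm_add_sq_real, inner_smul_left, norm_smul]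
        have : ‖τ‖ = 1 := by rcases hτ with h | h <;> simp [h]
        rw [this]
        simp
      rw [h2]
      linarith

lemma sum_rows_le {k l : ℕ} (b : OrthonormalBasis (Fin k) ℝ V) (inn : Fin k → Fin l) (L : Set V)
    (h2 : ∀ x ∈ L, ∀ (s : Fin l) (σ : Fin k → ℝ), (∀ j, σ j = 1 ∨ σ j = -1) →
      ∑ a with inn a = s, σ a * inner ℝ (b a) x ≤ 1)
    (c : V) (T : V ≃ₗ[ℝ] V) (hE : ellipsoid c T ⊆ L) :
    ∑ a, ‖LinearMap.adjoint (T : V →ₗ[ℝ] V) (b a)‖ ^ 2 ≤ l := by
  classical
  have key : ∀ s : Fin l, ∑ a with inn a = s, ‖LinearMap.adjoint (T : V →ₗ[ℝ] V) (b a)‖ ^ 2 ≤ 1 := by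
    intro s
    obtain ⟨σ, hσ, h⟩ := exists_signs (Finset.univ.filter (fun a => inn a = s))
      (fun a : Fin k => LinearMap.adjoint (T : V →ₗ[ℝ] V) (b a))
    refine h.trans ?_
    set w := ∑ a with inn a = s, σ a • LinearMap.adjoint (T : V →ₗ[ℝ] V) (b a) with hw
    have hin : ∀ x : V, ‖x‖ ≤ 1 → inner ℝ w x ≤ 1 := by
      intro x hx
      have e1 : ∀ y : V, ∑ a with inn a = s, σ a * inner ℝ (b a) (T y) = inner ℝ w y := by
        intro y
        rw [hw, sum_inner]
        apply Finset.sum_congr rfl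
        intro j _
        rw [inner_smul_left, LinearMap.adjoint_inner_left]
        simp
      have a1 := h2 (c + T x) (hE ⟨x, by simpa using hx, rfl⟩) s σ hσ
      have a2 := h2 (c + T (-x)) (hE ⟨-x, by simpa using hx, rfl⟩) s (fun j => -σ j)
        (fun j => by rcases hσ j with h | h <;> simp [h])
      simp only [inner_add_right, mul_add, Finset.sum_add_distrib, neg_mul, map_neg,
        inner_neg_right, mul_neg, neg_neg, Finset.sum_neg_distrib] at a1 a2
      rw [e1] at a1 a2
      linarith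
    by_cases h0 : w = 0
    · rw [h0]; simp
    · have hn : 0 < ‖w‖ := norm_pos_iff.mpr h0
      have := hin (‖w‖⁻¹ • w) (by rw [norm_smul, norm_inv, norm_norm, inv_mul_cancel₀ hn.ne'])
      rw [inner_smul_right, real_inner_self_eq_norm_sq] at this
      have h3 : ‖w‖⁻¹ * ‖w‖ ^ 2 = ‖w‖ := by field_simp
      rw [h3] at this
      nlinarith
  rw [← Finset.sum_fiberwise Finset.univ inn]
  calc ∑ s : Fin l, ∑ a with inn a = s, ‖LinearMap.adjoint (T : V →ₗ[ℝ] V) (b a)‖ ^ 2
      ≤ ∑ _s : Fin l, (1 : ℝ) := Finset.sum_le_sum (fun s _ => key s)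
    _ = l := by simp

lemma amgm {ι : Type*} [Fintype ι] (z : ι → ℝ) (hz : ∀ i, 0 ≤ z i) (S : ℝ)
    (hι : 0 < Fintype.card ι) (hS : ∑ i, z i ≤ S) :
    ∏ i, z i ≤ (S / Fintype.card ι) ^ (Fintype.card ι) := by
  have hk : (0 : ℝ) < Fintype.card ι := by exact_mod_cast hι
  have h1 := Real.geom_mean_le_arith_mean_weighted Finset.univ (fun _ : ι => 1 / (Fintype.card ι : ℝ)) z
    (fun i _ => by positivity) (by simp [Finset.card_univ, hk.ne']) (fun i _ => hz i)
  have h2 : ∏ i, z i = (∏ i, z i ^ (1 / (Fintype.card ι : ℝ))) ^ (Fintype.card ι) := by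
    rw [← Finset.prod_pow]
    apply Finset.prod_congr rfl
    intro i _
    rw [← Real.rpow_natCast, ← Real.rpow_mul (hz i)]
    rw [one_div, inv_mul_cancel₀ hk.ne', Real.rpow_one]
  rw [h2]
  apply pow_le_pow_left₀ (Finset.prod_nonneg (fun i _ => Real.rpow_nonneg (hz i) _))
  refine h1.trans ?_
  rw [← Finset.mul_sum, one_div, mul_comm, ← div_eq_mul_inv]
  gcongr

lemma det_bound {k l : ℕ} (hk : 1 ≤ k) (b : OrthonormalBasis (Fin k) ℝ V) (inn : Fin k → Fin l)
    (L : Set V)
    (h2 : ∀ x ∈ L, ∀ (s : Fin l) (σ : Fin k → ℝ), (∀ j, σ j = 1 ∨ σ j = -1) →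
      ∑ a with inn a = s, σ a * inner ℝ (b a) x ≤ 1)
    (c : V) (T : V ≃ₗ[ℝ] V) (hE : ellipsoid c T ⊆ L) :
    |LinearMap.det (T : V →ₗ[ℝ] V)| ≤ Real.sqrt (l / k) ^ k := by
  have h := sum_rows_le b inn L h2 c T hE
  have h3 := abs_det_le b (T : V →ₗ[ℝ] V)
  have hk' : (0 : ℝ) < k := by exact_mod_cast hk
  have h5 := amgm (fun a => ‖LinearMap.adjoint (T : V →ₗ[ℝ] V) (b a)‖ ^ 2) (fun a => by positivity)
    (l : ℝ) (by rw [Fintype.card_fin]; exact hk) h
  rw [Fintype.card_fin, Finset.prod_pow] at h5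
  have h7 : |LinearMap.det (T : V →ₗ[ℝ] V)| ^ 2 ≤ (Real.sqrt (l / k) ^ k) ^ 2 := by
    calc |LinearMap.det (T : V →ₗ[ℝ] V)| ^ 2
        ≤ (∏ a, ‖LinearMap.adjoint (T : V →ₗ[ℝ] V) (b a)‖) ^ 2 :=
          pow_le_pow_left₀ (abs_nonneg _) h3 2
      _ ≤ (l / (k : ℝ)) ^ k := h5
      _ = (Real.sqrt (l / k) ^ k) ^ 2 := by
          rw [← pow_mul, mul_comm k 2, pow_mul (Real.sqrt ((l : ℝ) / (k : ℝ))) 2 k,
            Real.sq_sqrt (by positivity)]
  exact (abs_le_of_sq_le_sq' h7 (by positivity)).2 |> fun h => by simpa using h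

lemma cube_volume {k : ℕ} {ρ : ℝ} (hρ : 0 < ρ) (b : OrthonormalBasis (Fin k) ℝ V) :
    volume {x : V | ∀ a, |inner ℝ (b a) x| ≤ ρ} = ENNReal.ofReal ((2 * ρ) ^ k) := by
  have h1 : {x : V | ∀ a, |inner ℝ (b a) x| ≤ ρ} = b.repr ⁻¹' ((@WithLp.ofLp 2 (Fin k → ℝ)) ⁻¹'
      (Set.Icc (fun _ => -ρ) (fun _ => ρ))) := by
    ext x
    change (∀ a, |inner ℝ (b a) x| ≤ ρ) ↔ _
    simp only [Set.mem_preimage, Set.mem_Icc, Pi.le_def, ← forall_and]
    refine forall_congr' (fun a => ?_)
    rw [← b.repr_apply_apply x a, abs_le]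
  rw [h1, (b.measurePreserving_repr).measure_preimage, (PiLp.volume_preserving_ofLp _).measure_preimage,
    Real.volume_Icc_pi]
  · simp only [Finset.prod_const, Finset.card_univ, Fintype.card_fin]
    have e1 : ρ - -ρ = 2 * ρ := by ring
    rw [e1, ← ENNReal.ofReal_pow (by positivity)]
  · exact measurableSet_Icc.nullMeasurableSet
  · exact (measurableSet_Icc.preimage (PiLp.volume_preserving_ofLp _).measurable).nullMeasurableSet

lemma ratio_ge {k l : ℕ} (hk1 : 1 ≤ k) (hl : 1 ≤ l) {ρ : ℝ} (hρ : 0 < ρ)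
    (b : OrthonormalBasis (Fin k) ℝ V) (inn : Fin k → Fin l)
    (L : Set V) (h1 : ∀ x, (∀ a, |inner ℝ (b a) x| ≤ ρ) → x ∈ L)
    (h2 : ∀ x ∈ L, ∀ (s : Fin l) (σ : Fin k → ℝ), (∀ j, σ j = 1 ∨ σ j = -1) →
      ∑ a with inn a = s, σ a * inner ℝ (b a) x ≤ 1)
    (c : V) (T : V ≃ₗ[ℝ] V) (hE : ellipsoid c T ⊆ L) :
    2 * ρ * k / Real.sqrt (2 * Real.pi * Real.exp 1 * l) ≤
      (volume.real L / volume.real (ellipsoid c T)) ^ (1 / (Module.finrank ℝ V : ℝ)) := by
  classical
  have hk' : (0 : ℝ) < k := by exact_mod_cast hk1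
  have hl' : (0 : ℝ) < l := by exact_mod_cast hl
  have hk : Module.finrank ℝ V = k := by
    rw [Module.finrank_eq_card_basis b.toBasis]; simp
  -- finiteness
  have hbd : L ⊆ Metric.closedBall 0 (k : ℝ) := by
    intro x hx
    have hc : ∀ a, |inner ℝ (b a) x| ≤ 1 := by
      intro a0
      have h := h2 x hx (inn a0) (fun a => if 0 ≤ inner ℝ (b a) x then 1 else -1)
        (fun a => by by_cases h : 0 ≤ inner ℝ (b a) x <;> simp [h])
      have h' : ∑ a with inn a = inn a0, |inner ℝ (b a) x| ≤ 1 := by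
        refine le_trans (le_of_eq ?_) h
        apply Finset.sum_congr rfl
        intro j _
        by_cases h : 0 ≤ inner ℝ (b j) x
        · simp [h, abs_of_nonneg h]
        · simp [h, abs_of_neg (not_le.mp h)]
      exact (Finset.single_le_sum (f := fun a => |inner ℝ (b a) x|)
        (fun j _ => abs_nonneg _) (by simp)).trans h'
    rw [mem_closedBall_zero_iff]
    have h5 : ‖x‖ ^ 2 ≤ (k : ℝ) := by
      rw [← b.sum_sq_norm_inner_right x]
      calc ∑ a, ‖inner ℝ (b a) x‖ ^ 2 ≤ ∑ _a : Fin k, (1 : ℝ) := by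
            apply Finset.sum_le_sum
            intro a _
            have := hc a
            rw [Real.norm_eq_abs]
            nlinarith [abs_nonneg (inner ℝ (b a) x)]
        _ = k := by simp
    have h6 : (1 : ℝ) ≤ k := by exact_mod_cast hk1
    nlinarith [norm_nonneg x]
  have hfin : volume L ≠ ⊤ :=
    (lt_of_le_of_lt (measure_mono hbd) (isCompact_closedBall _ _).measure_lt_top).ne
  have hL : (2 * ρ) ^ k ≤ volume.real L := by
    have h := cube_volume hρ b
    have hle : volume {x : V | ∀ a, |inner ℝ (b a) x| ≤ ρ} ≤ volume L := measure_mono h1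
    rw [h] at hle
    have := ENNReal.toReal_mono hfin hle
    rw [ENNReal.toReal_ofReal (by positivity)] at this
    exact this
  -- the ellipsoid
  have hEv : volume.real (ellipsoid c T) = |LinearMap.det (T : V →ₗ[ℝ] V)| *
      volume.real (Metric.closedBall (0 : V) 1) := by
    have h3 : ellipsoid c T = (fun x => c + x) '' ((T : V →ₗ[ℝ] V) '' Metric.closedBall 0 1) := by
      unfold ellipsoid
      rw [Set.image_image]
      rfl
    rw [h3]
    unfold Measure.real
    rw [Set.image_add_left, measure_preimage_add,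
      Measure.addHaar_image_linearMap, ENNReal.toReal_mul, ENNReal.toReal_ofReal (abs_nonneg _)]
  have hdet := det_bound hk1 b inn L h2 c T hE
  have hdetpos : 0 < |LinearMap.det (T : V →ₗ[ℝ] V)| := by
    rw [abs_pos]
    exact (LinearEquiv.isUnit_det' T).ne_zero
  have hball := ball_volume_le (V := V) (by rw [hk]; exact hk1)
  have hballpos : 0 < volume.real (Metric.closedBall (0 : V) 1) := by
    apply ENNReal.toReal_pos
    · exact (Metric.measure_closedBall_pos volume _ one_pos).ne'
    · exact (isCompact_closedBall _ _).measure_lt_top.ne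
  rw [hk] at hball ⊢
  have hEle : volume.real (ellipsoid c T) ≤
      (Real.sqrt (l / k) * Real.sqrt (2 * Real.pi * Real.exp 1 / (k : ℝ))) ^ k := by
    rw [hEv, mul_pow]
    exact mul_le_mul hdet hball measureReal_nonneg (by positivity)
  have hEpos : 0 < volume.real (ellipsoid c T) := by rw [hEv]; positivity
  have hs : 2 * ρ * k / Real.sqrt (2 * Real.pi * Real.exp 1 * l) *
      (Real.sqrt (l / k) * Real.sqrt (2 * Real.pi * Real.exp 1 / (k : ℝ))) = 2 * ρ := by
    rw [← Real.sqrt_mul (by positivity)]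
    have e1 : (l : ℝ) / k * (2 * Real.pi * Real.exp 1 / k) =
        (2 * Real.pi * Real.exp 1 * l) / (k : ℝ) ^ 2 := by
      field_simp
    rw [e1, Real.sqrt_div (by positivity), Real.sqrt_sq (by positivity)]
    have := Real.sqrt_pos.mpr (show (0 : ℝ) < 2 * Real.pi * Real.exp 1 * l by positivity)
    field_simp
  set B := 2 * ρ * k / Real.sqrt (2 * Real.pi * Real.exp 1 * l) with hB
  have hB0 : 0 ≤ B := by positivity
  have hR : B ^ k ≤ volume.real L / volume.real (ellipsoid c T) := by
    rw [le_div_iff₀ hEpos]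
    calc B ^ k * volume.real (ellipsoid c T)
        ≤ B ^ k * (Real.sqrt (l / k) * Real.sqrt (2 * Real.pi * Real.exp 1 / (k : ℝ))) ^ k :=
          mul_le_mul_of_nonneg_left hEle (by positivity)
      _ = (2 * ρ) ^ k := by rw [← mul_pow, hs]
      _ ≤ _ := hL
  have h9 : B = (B ^ k) ^ (1 / (k : ℝ)) := by
    rw [← Real.rpow_natCast, ← Real.rpow_mul hB0]
    rw [mul_one_div_cancel (by positivity), Real.rpow_one]
  rw [h9]
  exact Real.rpow_le_rpow (by positivity) hR (by positivity)


/-- The map sending `X` to the vector with `a`-th coordinate `∑ u, S a u * X u u`. -/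
noncomputable def diagMap {k d : ℕ} (hkd : k ≤ d) (S : Fin k → Fin d → ℝ) :
    Matrix (Fin d) (Fin d) ℝ →ₗ[ℝ] EuclideanSpace ℝ (Fin d) where
  toFun X := ∑ a, (∑ u, S a u * X u u) • EuclideanSpace.single (Fin.castLE hkd a) (1 : ℝ)
  map_add' X Y := by
    rw [← Finset.sum_add_distrib]
    apply Finset.sum_congr rfl
    intro a _
    rw [← add_smul, ← Finset.sum_add_distrib]
    congr 1
    apply Finset.sum_congr rfl
    intro u _
    rw [Matrix.add_apply]; ring
  map_smul' r X := by
    rw [Finset.smul_sum]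
    apply Finset.sum_congr rfl
    intro a _
    rw [smul_smul, Finset.mul_sum]
    congr 1
    apply Finset.sum_congr rfl
    intro u _
    rw [Matrix.smul_apply, smul_eq_mul, RingHom.id_apply]; ring

lemma diagMap_apply {k d : ℕ} (hkd : k ≤ d) (S : Fin k → Fin d → ℝ) (X : Matrix (Fin d) (Fin d) ℝ)
    (a : Fin k) : (diagMap hkd S X) (Fin.castLE hkd a) = ∑ u, S a u * X u u := by
  classical
  change (∑ a, (∑ u, S a u * X u u) • EuclideanSpace.single (Fin.castLE hkd a) (1 : ℝ) :
    EuclideanSpace ℝ (Fin d)) (Fin.castLE hkd a) = _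
  rw [WithLp.ofLp_sum, Finset.sum_apply]
  rw [Finset.sum_eq_single a]
  · simp
  · intro b _ hb
    have : Fin.castLE hkd a ≠ Fin.castLE hkd b := fun h => hb (Fin.castLE_injective hkd h).symm
    simp [this]
  · simp

lemma diagMap_apply_zero {k d : ℕ} (hkd : k ≤ d) (S : Fin k → Fin d → ℝ)
    (X : Matrix (Fin d) (Fin d) ℝ) (v : Fin d) (hv : ∀ a, Fin.castLE hkd a ≠ v) :
    (diagMap hkd S X) v = 0 := by
  classical
  change (∑ a, (∑ u, S a u * X u u) • EuclideanSpace.single (Fin.castLE hkd a) (1 : ℝ) :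
    EuclideanSpace ℝ (Fin d)) v = _
  rw [WithLp.ofLp_sum, Finset.sum_apply]
  apply Finset.sum_eq_zero
  intro b _
  have : v ≠ Fin.castLE hkd b := fun h => hv b h.symm
  simp [this]

theorem diagMap_ratio {k d l : ℕ} (hk : 1 ≤ k) (hkd : k ≤ d) (hl : 1 ≤ l) {ρ : ℝ} (hρ : 0 < ρ)
    (S : Fin k → Fin d → ℝ) (inn : Fin k → Fin l)
    (S1 : ∀ s u, ∑ a with inn a = s, |S a u| ≤ 1)
    (S2 : ∀ y : Fin k → ℝ, (∀ a, |y a| ≤ ρ) →
      ∃ x : Fin d → ℝ, ∑ u, |x u| ≤ 1 ∧ ∀ a, ∑ u, S a u * x u = y a) :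
    Module.finrank ℝ (LinearMap.range (diagMap hkd S)) = k ∧
    2 * ρ * k / Real.sqrt (2 * Real.pi * Real.exp 1 * l) ≤
      volumeRatio (diagMap hkd S '' nuclearBall d) := by
  classical
  set M := diagMap hkd S with hM
  set K := M '' nuclearBall d with hK
  -- membership
  have hmem : ∀ z : EuclideanSpace ℝ (Fin d), (∀ v, (∀ a, Fin.castLE hkd a ≠ v) → z v = 0) →
      (∀ a, |z (Fin.castLE hkd a)| ≤ ρ) → z ∈ K := by
    intro z hz0 hz
    obtain ⟨x, hx1, hx2⟩ := S2 (fun a => z (Fin.castLE hkd a)) hz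
    refine ⟨Matrix.diagonal x, ?_, ?_⟩
    · change nuclearNorm _ ≤ 1
      rw [nuclearNorm_diagonal]; exact hx1
    · ext v
      by_cases hv : ∃ a, Fin.castLE hkd a = v
      · obtain ⟨a, rfl⟩ := hv
        rw [hM, diagMap_apply, ← hx2 a]
        simp
      · push Not at hv
        rw [hM, diagMap_apply_zero hkd S _ v hv, hz0 v hv]
  have hzero : ∀ z ∈ Submodule.span ℝ K, ∀ v, (∀ a, Fin.castLE hkd a ≠ v) → z v = 0 := by
    intro z hz v hv
    induction hz using Submodule.span_induction with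
    | mem x hx => obtain ⟨X, _, rfl⟩ := hx; exact diagMap_apply_zero hkd S X v hv
    | zero => rfl
    | add x y _ _ hx hy => simp [hx, hy]
    | smul r x _ hx => simp [hx]
  have hsingle : ∀ a : Fin k, EuclideanSpace.single (Fin.castLE hkd a) (1 : ℝ) ∈
      Submodule.span ℝ K := by
    intro a
    have h1 : ρ • (EuclideanSpace.single (Fin.castLE hkd a) (1 : ℝ) : EuclideanSpace ℝ (Fin d)) ∈ K := by
      apply hmem
      · intro v hv
        have : v ≠ Fin.castLE hkd a := fun h => hv a h.symm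
        simp [this]
      · intro b
        by_cases hb : Fin.castLE hkd b = Fin.castLE hkd a
        · rw [hb]; simp [abs_of_pos hρ]
        · simp [hb, hρ.le]
    have h2 := Submodule.smul_mem _ ρ⁻¹ (Submodule.subset_span h1)
    rwa [smul_smul, inv_mul_cancel₀ hρ.ne', one_smul] at h2
  have hdecomp : ∀ z : EuclideanSpace ℝ (Fin d), (∀ v, (∀ a, Fin.castLE hkd a ≠ v) → z v = 0) →
      z = ∑ a, z (Fin.castLE hkd a) • EuclideanSpace.single (Fin.castLE hkd a) (1 : ℝ) := by
    intro z hz
    ext v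
    rw [WithLp.ofLp_sum, Finset.sum_apply]
    by_cases hv : ∃ a, Fin.castLE hkd a = v
    · obtain ⟨a, rfl⟩ := hv
      rw [Finset.sum_eq_single a]
      · simp
      · intro b _ hb
        have : Fin.castLE hkd a ≠ Fin.castLE hkd b := fun h => hb (Fin.castLE_injective hkd h).symm
        simp [this]
      · simp
    · push Not at hv
      rw [hz v hv, Finset.sum_eq_zero]
      intro b _
      have : v ≠ Fin.castLE hkd b := fun h => hv b h.symm
      simp [this]
  -- orthonormal basis of the span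
  let f : Fin k → Submodule.span ℝ K := fun a =>
    ⟨EuclideanSpace.single (Fin.castLE hkd a) (1 : ℝ), hsingle a⟩
  have hf : Orthonormal ℝ f := by
    have h0 : Orthonormal ℝ (fun a : Fin k =>
        (EuclideanSpace.basisFun (Fin d) ℝ) (Fin.castLE hkd a)) :=
      (EuclideanSpace.basisFun (Fin d) ℝ).orthonormal.comp _ (Fin.castLE_injective hkd)
    rw [orthonormal_iff_ite] at h0 ⊢
    intro i j
    have := h0 i j
    simpa [f] using this
  have hinner : ∀ a (x : Submodule.span ℝ K), inner ℝ (f a) x =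
      (x : EuclideanSpace ℝ (Fin d)) (Fin.castLE hkd a) := by
    intro a x
    rw [Submodule.coe_inner]
    change inner ℝ (EuclideanSpace.single (Fin.castLE hkd a) (1 : ℝ)) (x : EuclideanSpace ℝ (Fin d)) = _
    rw [EuclideanSpace.inner_single_left]
    simp
  have hsp : ⊤ ≤ Submodule.span ℝ (Set.range f) := by
    intro x _
    have h1 : x = ∑ a, (x : EuclideanSpace ℝ (Fin d)) (Fin.castLE hkd a) • f a := by
      apply Subtype.ext
      rw [Submodule.coe_sum]
      exact hdecomp _ (hzero _ x.2)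
    rw [h1]
    exact Submodule.sum_mem _ (fun a _ => Submodule.smul_mem _ _ (Submodule.subset_span ⟨a, rfl⟩))
  let b : OrthonormalBasis (Fin k) ℝ (Submodule.span ℝ K) := OrthonormalBasis.mk hf hsp
  have hb : ∀ a, b a = f a := fun a => by simp [b]
  have hrange : LinearMap.range M = Submodule.span ℝ K := by
    apply le_antisymm
    · rintro _ ⟨X, rfl⟩
      rw [hdecomp (M X) (fun v hv => diagMap_apply_zero hkd S X v hv)]
      exact Submodule.sum_mem _ (fun a _ => Submodule.smul_mem _ _ (hsingle a))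
    · rw [Submodule.span_le]
      rintro _ ⟨X, _, rfl⟩
      exact ⟨X, rfl⟩
  refine ⟨?_, ?_⟩
  · rw [hrange, Module.finrank_eq_card_basis b.toBasis, Fintype.card_fin]
  have h1 : ∀ x : Submodule.span ℝ K, (∀ a, |inner ℝ (b a) x| ≤ ρ) → x ∈ onSpan K := by
    intro x hx
    apply hmem
    · exact hzero _ x.2
    · intro a
      rw [← hinner a x, ← hb]
      exact hx a
  have h2 : ∀ x ∈ onSpan K, ∀ (s : Fin l) (σ : Fin k → ℝ), (∀ j, σ j = 1 ∨ σ j = -1) →
      ∑ a with inn a = s, σ a * inner ℝ (b a) x ≤ 1 := by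
    rintro ⟨x, hxs⟩ ⟨X, hX, hXx⟩ s σ hσ
    have e1 : ∀ a, inner ℝ (b a) (⟨x, hxs⟩ : Submodule.span ℝ K) = ∑ u, S a u * X u u := by
      intro a
      rw [hb, hinner]
      change x (Fin.castLE hkd a) = _
      have hXx' : M X = x := hXx
      rw [← hXx', hM, diagMap_apply]
    simp only [e1]
    calc ∑ a with inn a = s, σ a * ∑ u, S a u * X u u
        = ∑ u, (∑ a with inn a = s, σ a * S a u) * X u u := by
          simp only [Finset.mul_sum, Finset.sum_mul]
          rw [Finset.sum_comm]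
          apply Finset.sum_congr rfl
          intro u _
          apply Finset.sum_congr rfl
          intro a _
          ring
      _ ≤ ∑ u, |X u u| := by
          apply Finset.sum_le_sum
          intro u _
          have h3 : |∑ a with inn a = s, σ a * S a u| ≤ 1 := by
            refine (Finset.abs_sum_le_sum_abs _ _).trans (le_trans (le_of_eq ?_) (S1 s u))
            apply Finset.sum_congr rfl
            intro a _
            rw [abs_mul]
            rcases hσ a with h | h <;> simp [h]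
          calc (∑ a with inn a = s, σ a * S a u) * X u u
              ≤ |(∑ a with inn a = s, σ a * S a u) * X u u| := le_abs_self _
            _ = |∑ a with inn a = s, σ a * S a u| * |X u u| := abs_mul _ _
            _ ≤ 1 * |X u u| := by gcongr
            _ = |X u u| := one_mul _
      _ ≤ nuclearNorm X := sum_abs_diag_le X
      _ ≤ 1 := hX
  unfold volumeRatio volumeRatioIn
  apply le_csInf
  · refine ⟨_, 0, LinearEquiv.smulOfNeZero ℝ _ ρ hρ.ne', ?_, rfl⟩
    rintro _ ⟨x, hx, rfl⟩
    apply h1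
    intro a
    have hx' : ‖x‖ ≤ 1 := by simpa using hx
    have e2 : (0 : Submodule.span ℝ K) + (LinearEquiv.smulOfNeZero ℝ _ ρ hρ.ne') x = ρ • x := by
      rw [zero_add]; rfl
    change |inner ℝ (b a) ((0 : Submodule.span ℝ K) + (LinearEquiv.smulOfNeZero ℝ _ ρ hρ.ne') x)| ≤ ρ
    have e3 : inner ℝ (b a) (ρ • x) = ρ * inner ℝ (b a) x := by
      rw [hb, hinner, hinner]; simp
    rw [e2, e3, abs_mul, abs_of_pos hρ]
    have h3 := abs_real_inner_le_norm (b a) x
    rw [b.norm_eq_one, one_mul] at h3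
    nlinarith
  · rintro r ⟨c, T, hE, rfl⟩
    exact ratio_ge hk hl hρ b inn _ h1 h2 c T hE


/-- The sign of a boolean. -/
def sg (b : Bool) : ℝ := if b then 1 else -1

lemma sg_abs (b : Bool) : |sg b| = 1 := by cases b <;> simp [sg]

lemma pat_one {l : ℕ} (a : Fin l → ℝ) :
    ∑ t : Fin l → Bool, ∏ r, ((1 + sg (t r) * a r) / 2) = 1 := by
  classical
  have h := Finset.prod_univ_sum (fun _ : Fin l => (Finset.univ : Finset Bool))
    (fun r b => (1 + sg b * a r) / 2)
  rw [Fintype.piFinset_univ] at h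
  rw [← h]
  apply Finset.prod_eq_one
  intro r _
  simp [sg]
  ring

lemma pat_coord {l : ℕ} (a : Fin l → ℝ) (s : Fin l) :
    ∑ t : Fin l → Bool, sg (t s) * ∏ r, ((1 + sg (t r) * a r) / 2) = a s := by
  classical
  have h := Finset.prod_univ_sum (fun _ : Fin l => (Finset.univ : Finset Bool))
    (fun r b => if r = s then sg b * ((1 + sg b * a r) / 2) else (1 + sg b * a r) / 2)
  rw [Fintype.piFinset_univ] at h
  have h1 : ∀ t : Fin l → Bool, sg (t s) * ∏ r, ((1 + sg (t r) * a r) / 2) =
      ∏ r, (if r = s then sg (t r) * ((1 + sg (t r) * a r) / 2) else (1 + sg (t r) * a r) / 2) := by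
    intro t
    rw [← Finset.mul_prod_erase Finset.univ _ (Finset.mem_univ s),
      ← Finset.mul_prod_erase Finset.univ
        (fun r => if r = s then sg (t r) * ((1 + sg (t r) * a r) / 2) else (1 + sg (t r) * a r) / 2)
        (Finset.mem_univ s)]
    rw [if_pos rfl, mul_assoc]
    congr 2
    apply Finset.prod_congr rfl
    intro r hr
    rw [if_neg (Finset.ne_of_mem_erase hr)]
  simp_rw [h1]
  rw [← h, Finset.prod_eq_single s]
  · simp [sg]
    ring
  · intro r _ hr
    simp [hr, sg]
    ring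
  · simp

lemma sum_extend {α : Type*} [Fintype α] {d : ℕ} (φ : α ↪ Fin d) (g : Fin d → ℝ)
    (hg : ∀ u, (∀ p, φ p ≠ u) → g u = 0) : ∑ u, g u = ∑ p, g (φ p) := by
  classical
  rw [← Finset.sum_map Finset.univ φ g]
  symm
  apply Finset.sum_subset (Finset.subset_univ _)
  intro u _ hu
  apply hg
  intro p hp
  exact hu (Finset.mem_map.mpr ⟨p, Finset.mem_univ _, hp⟩)

lemma exists_pattern {k d l m : ℕ} (hm : 1 ≤ m) (hml : k ≤ m * l) (hd : m * 2 ^ l ≤ d) :
    ∃ (S : Fin k → Fin d → ℝ) (inn : Fin k → Fin l),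
      (∀ s u, ∑ a with inn a = s, |S a u| ≤ 1) ∧
      (∀ y : Fin k → ℝ, (∀ a, |y a| ≤ 1 / (m : ℝ)) →
        ∃ x : Fin d → ℝ, ∑ u, |x u| ≤ 1 ∧ ∀ a, ∑ u, S a u * x u = y a) := by
  classical
  have hm0 : (0 : ℝ) < m := by exact_mod_cast hm
  obtain ⟨φ⟩ : Nonempty (Fin m × (Fin l → Bool) ↪ Fin d) := by
    apply Function.Embedding.nonempty_of_card_le
    simpa using hd
  let θ : Fin k → Fin m × Fin l := fun a => finProdFinEquiv.symm (Fin.castLE hml a)
  have hθ : Function.Injective θ :=
    finProdFinEquiv.symm.injective.comp (Fin.castLE_injective hml)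
  let h : Fin k → Fin m × (Fin l → Bool) → ℝ :=
    fun a p => if (θ a).1 = p.1 then sg (p.2 (θ a).2) else 0
  let S : Fin k → Fin d → ℝ := fun a => Function.extend φ (h a) 0
  have hS1 : ∀ a p, S a (φ p) = h a p := fun a p => φ.injective.extend_apply _ _ _
  have hS0 : ∀ a u, (∀ p, φ p ≠ u) → S a u = 0 := by
    intro a u hu
    have : ¬ ∃ p, φ p = u := fun ⟨p, hp⟩ => hu p hp
    exact Function.extend_apply' _ _ _ this
  refine ⟨S, fun a => (θ a).2, ?_, ?_⟩
  · intro s u
    by_cases hu : ∃ p, φ p = u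
    · obtain ⟨p, rfl⟩ := hu
      have e1 : ∀ a, |S a (φ p)| = if (θ a).1 = p.1 then 1 else 0 := by
        intro a
        rw [hS1]
        by_cases hc : (θ a).1 = p.1
        · simp only [h, if_pos hc, sg_abs]
        · simp only [h, if_neg hc, abs_zero]
      simp_rw [e1]
      rw [Finset.sum_boole]
      have : (Finset.filter (fun a => (θ a).1 = p.1) (Finset.filter (fun a => (θ a).2 = s)
          Finset.univ)).card ≤ 1 := by
        rw [Finset.card_le_one]
        intro a ha b hb
        simp only [Finset.mem_filter, Finset.mem_univ, true_and] at ha hb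
        apply hθ
        exact Prod.ext (ha.2.trans hb.2.symm) (ha.1.trans hb.1.symm)
      exact_mod_cast this
    · push Not at hu
      simp [hS0 _ _ hu]
  · intro y hy
    let A : Fin m × Fin l → ℝ := Function.extend θ (fun a => m * y a) 0
    have hA1 : ∀ a, A (θ a) = m * y a := fun a => hθ.extend_apply _ _ _
    have hA : ∀ q, |A q| ≤ 1 := by
      intro q
      by_cases hq : ∃ a, θ a = q
      · obtain ⟨a, rfl⟩ := hq
        rw [hA1, abs_mul, abs_of_pos hm0]
        have := hy a
        rw [le_div_iff₀ hm0] at this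
        linarith
      · have : A q = 0 := Function.extend_apply' _ _ _ hq
        rw [this]; simp
    let w : Fin m × (Fin l → Bool) → ℝ :=
      fun p => (1 / (m : ℝ)) * ∏ r, ((1 + sg (p.2 r) * A (p.1, r)) / 2)
    have hw : ∀ p, 0 ≤ w p := by
      intro p
      apply mul_nonneg (by positivity)
      apply Finset.prod_nonneg
      intro r _
      have h1 : |sg (p.2 r) * A (p.1, r)| ≤ 1 := by
        rw [abs_mul, sg_abs, one_mul]; exact hA _
      have := (abs_le.mp h1).1
      linarith
    let x : Fin d → ℝ := Function.extend φ w 0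
    have hx1 : ∀ p, x (φ p) = w p := fun p => φ.injective.extend_apply _ _ _
    have hx0 : ∀ u, (∀ p, φ p ≠ u) → x u = 0 := by
      intro u hu
      have : ¬ ∃ p, φ p = u := fun ⟨p, hp⟩ => hu p hp
      exact Function.extend_apply' _ _ _ this
    refine ⟨x, ?_, ?_⟩
    · rw [sum_extend φ _ (fun u hu => by rw [hx0 u hu, abs_zero])]
      simp_rw [hx1, abs_of_nonneg (hw _)]
      rw [Fintype.sum_prod_type]
      have : ∀ j, ∑ t, w (j, t) = 1 / (m : ℝ) := by
        intro j
        change ∑ t : Fin l → Bool, (1 / (m : ℝ)) * ∏ r, ((1 + sg (t r) * A (j, r)) / 2) = _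
        rw [← Finset.mul_sum, pat_one, mul_one]
      simp_rw [this]
      simp
      rw [mul_inv_cancel₀ hm0.ne']
    · intro a
      rw [sum_extend φ _ (fun u hu => by rw [hx0 u hu, mul_zero])]
      simp_rw [hx1, hS1]
      rw [Fintype.sum_prod_type, Finset.sum_eq_single (θ a).1]
      · have : ∀ t : Fin l → Bool, h a ((θ a).1, t) * w ((θ a).1, t) =
            (1 / (m : ℝ)) * (sg (t (θ a).2) * ∏ r, ((1 + sg (t r) * A ((θ a).1, r)) / 2)) := by
          intro t
          simp only [h, w, if_true]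
          ring
        simp_rw [this]
        rw [← Finset.mul_sum, pat_coord]
        change 1 / (m : ℝ) * A (θ a) = _
        rw [hA1]
        field_simp
      · intro j _ hj
        apply Finset.sum_eq_zero
        intro t _
        have : (θ a).1 ≠ j := fun h => hj h.symm
        simp [h, this]
      · simp

lemma exists_ident {k d : ℕ} (hk : 1 ≤ k) (hkd : k ≤ d) :
    ∃ (S : Fin k → Fin d → ℝ) (inn : Fin k → Fin 1),
      (∀ s u, ∑ a with inn a = s, |S a u| ≤ 1) ∧
      (∀ y : Fin k → ℝ, (∀ a, |y a| ≤ 1 / (k : ℝ)) →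
        ∃ x : Fin d → ℝ, ∑ u, |x u| ≤ 1 ∧ ∀ a, ∑ u, S a u * x u = y a) := by
  classical
  have hk0 : (0 : ℝ) < k := by exact_mod_cast hk
  refine ⟨fun a u => if Fin.castLE hkd a = u then 1 else 0, fun _ => 0, ?_, ?_⟩
  · intro s u
    have : ∀ a : Fin k, |(if Fin.castLE hkd a = u then (1 : ℝ) else 0)| =
        if Fin.castLE hkd a = u then 1 else 0 := by
      intro a
      split_ifs <;> simp
    simp_rw [this]
    rw [Finset.sum_boole]
    have : (Finset.filter (fun a => Fin.castLE hkd a = u) (Finset.filter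
        (fun _ : Fin k => (0 : Fin 1) = s) Finset.univ)).card ≤ 1 := by
      rw [Finset.card_le_one]
      intro a ha b hb
      simp only [Finset.mem_filter, Finset.mem_univ, true_and] at ha hb
      exact Fin.castLE_injective hkd (ha.2.trans hb.2.symm)
    exact_mod_cast this
  · intro y hy
    let φ : Fin k ↪ Fin d := ⟨Fin.castLE hkd, Fin.castLE_injective hkd⟩
    let x : Fin d → ℝ := Function.extend φ y 0
    have hx1 : ∀ p, x (φ p) = y p := fun p => φ.injective.extend_apply _ _ _
    have hx0 : ∀ u, (∀ p, φ p ≠ u) → x u = 0 := by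
      intro u hu
      have : ¬ ∃ p, φ p = u := fun ⟨p, hp⟩ => hu p hp
      exact Function.extend_apply' _ _ _ this
    refine ⟨x, ?_, ?_⟩
    · rw [sum_extend φ _ (fun u hu => by rw [hx0 u hu, abs_zero])]
      simp_rw [hx1]
      calc ∑ p, |y p| ≤ ∑ _p : Fin k, 1 / (k : ℝ) := Finset.sum_le_sum fun p _ => hy p
        _ = 1 := by
          simp
          rw [mul_inv_cancel₀ hk0.ne']
    · intro a
      simp only [ite_mul, one_mul, zero_mul, Finset.sum_ite_eq, Finset.mem_univ, if_true]
      exact hx1 a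

theorem exists_map {k d : ℕ} (hk : 1 ≤ k) (hkd : k ≤ d) :
    ∃ M : Matrix (Fin d) (Fin d) ℝ →ₗ[ℝ] EuclideanSpace ℝ (Fin d),
      Module.finrank ℝ (LinearMap.range M) = k ∧
      1 / 7 * Real.sqrt (min (k : ℝ) (Real.logb 2 (2 * d / k))) ≤
        volumeRatio (M '' nuclearBall d) := by
  classical
  have hk0 : (0 : ℝ) < k := by exact_mod_cast hk
  have hd0 : (0 : ℝ) < d := by exact_mod_cast (hk.trans hkd)
  have hpi := Real.pi_pos
  have hpi2 := Real.pi_lt_d2
  have he := Real.exp_one_lt_d9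
  have he0 := Real.exp_pos 1
  have hpe : Real.pi * Real.exp 1 ≤ 8.6 := by nlinarith
  by_cases hc : d < 8 * k
  · obtain ⟨S, inn, S1, S2⟩ := exists_ident hk hkd
    obtain ⟨h1, h2⟩ := diagMap_ratio hk hkd le_rfl (by positivity : (0 : ℝ) < 1 / k) S inn S1 S2
    refine ⟨_, h1, le_trans ?_ h2⟩
    have e1 : (min (k : ℝ) (Real.logb 2 (2 * d / k))) ≤ 4 := by
      apply (min_le_right _ _).trans
      rw [Real.logb_le_iff_le_rpow (by norm_num) (by positivity)]
      rw [div_le_iff₀ hk0]
      have : (d : ℝ) < 8 * k := by exact_mod_cast hc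
      norm_num
      linarith
    have e2 : Real.sqrt (min (k : ℝ) (Real.logb 2 (2 * d / k))) ≤ 2 := by
      calc Real.sqrt (min (k : ℝ) (Real.logb 2 (2 * d / k))) ≤ Real.sqrt 4 :=
            Real.sqrt_le_sqrt e1
        _ = 2 := by rw [show (4 : ℝ) = 2 ^ 2 by norm_num, Real.sqrt_sq (by norm_num)]
    have e3 : Real.sqrt (2 * Real.pi * Real.exp 1 * (1 : ℕ)) ≤ 7 := by
      rw [Real.sqrt_le_left (by norm_num)]
      push_cast
      nlinarith
    have e4 : 0 < Real.sqrt (2 * Real.pi * Real.exp 1 * (1 : ℕ)) := by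
      apply Real.sqrt_pos.mpr
      push_cast
      positivity
    rw [le_div_iff₀ e4]
    have e5 : 2 * (1 / (k : ℝ)) * k = 2 := by field_simp
    rw [e5]
    have e6 := mul_le_mul e2 e3 e4.le (by norm_num)
    linarith
  · push Not at hc
    set l0 := Nat.log 2 (d / (2 * k)) with hl0
    have hq : 4 ≤ d / (2 * k) := by
      rw [Nat.le_div_iff_mul_le (by omega)]
      omega
    have hl02 : 2 ≤ l0 := by
      apply Nat.le_log_of_pow_le (by norm_num)
      omega
    set l := min k l0 with hl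
    have hl1 : 1 ≤ l := by
      rw [hl]; exact le_min hk (by omega)
    have hlk : l ≤ k := min_le_left _ _
    set m := (k + l - 1) / l with hm
    have hml : k ≤ m * l := by
      have := Nat.div_add_mod (k + l - 1) l
      have h2 := Nat.mod_lt (k + l - 1) (show 0 < l by omega)
      rw [← hm] at this
      have h3 := Nat.mul_comm m l
      omega
    have hm1 : 1 ≤ m := by
      rcases Nat.eq_zero_or_pos m with h | h
      · rw [h, Nat.zero_mul] at hml
        omega
      · exact h
    have hm2 : m * l ≤ 2 * k := by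
      have := Nat.div_mul_le_self (k + l - 1) l
      rw [← hm] at this
      omega
    have hmd : m * 2 ^ l ≤ d := by
      have a1 : 2 ^ l ≤ d / (2 * k) := by
        calc 2 ^ l ≤ 2 ^ l0 := Nat.pow_le_pow_right (by norm_num) (min_le_right _ _)
          _ ≤ d / (2 * k) := Nat.pow_log_le_self 2 (by omega)
      have a2 : m ≤ 2 * k := by nlinarith
      calc m * 2 ^ l ≤ (2 * k) * (d / (2 * k)) := Nat.mul_le_mul a2 a1
        _ ≤ d := Nat.mul_div_le _ _
    obtain ⟨S, inn, S1, S2⟩ := exists_pattern hm1 hml hmd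
    have hm0 : (0 : ℝ) < m := by exact_mod_cast hm1
    have hl0' : (0 : ℝ) < l := by exact_mod_cast hl1
    obtain ⟨h1, h2⟩ := diagMap_ratio hk hkd hl1 (by positivity : (0 : ℝ) < 1 / m) S inn S1 S2
    refine ⟨_, h1, le_trans ?_ h2⟩
    have e1 : (min (k : ℝ) (Real.logb 2 (2 * d / k))) ≤ 5 / 2 * l := by
      by_cases hkl : k ≤ l0
      · have : l = k := by rw [hl]; exact min_eq_left hkl
        rw [this]
        refine (min_le_left _ _).trans ?_
        linarith
      · have hll : l = l0 := by rw [hl]; exact min_eq_right (by omega)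
        refine (min_le_right _ _).trans ?_
        rw [hll]
        have b1 : d < (2 ^ (l0 + 1)) * (2 * k) := by
          rw [← Nat.div_lt_iff_lt_mul (by omega)]
          exact Nat.lt_pow_succ_log_self (by norm_num) _
        have b2 : (d : ℝ) < (2 ^ (l0 + 1)) * (2 * k) := by exact_mod_cast b1
        have b3 : Real.logb 2 (2 * d / k) ≤ ((l0 + 3 : ℕ) : ℝ) := by
          rw [Real.logb_le_iff_le_rpow (by norm_num) (by positivity), Real.rpow_natCast,
            div_le_iff₀ hk0]
          have : (2 : ℝ) ^ (l0 + 3) = 4 * 2 ^ (l0 + 1) := by ring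
          rw [this]
          linarith
        have b4 : (2 : ℝ) ≤ l0 := by exact_mod_cast hl02
        refine b3.trans ?_
        push_cast
        linarith
    set L := (min (k : ℝ) (Real.logb 2 (2 * d / k))) with hL
    set D := 2 * Real.pi * Real.exp 1 * (l : ℝ) with hD
    have hDpos : 0 < D := by positivity
    have e4 : 0 < Real.sqrt D := Real.sqrt_pos.mpr hDpos
    rw [le_div_iff₀ e4]
    have e5 : (l : ℝ) ≤ 2 * (1 / (m : ℝ)) * k := by
      rw [mul_one_div, div_mul_eq_mul_div, le_div_iff₀ hm0]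
      have : ((m * l : ℕ) : ℝ) ≤ ((2 * k : ℕ) : ℝ) := by exact_mod_cast hm2
      push_cast at this
      linarith
    refine le_trans ?_ e5
    have e6 : Real.sqrt L * Real.sqrt D ≤ 7 * l := by
      by_cases hLn : L ≤ 0
      · rw [Real.sqrt_eq_zero_of_nonpos hLn]; simp
      · push Not at hLn
        rw [← Real.sqrt_mul hLn.le]
        rw [Real.sqrt_le_left (by positivity)]
        have c1 : L * D ≤ (5 / 2 * l) * D := mul_le_mul_of_nonneg_right e1 hDpos.le
        refine c1.trans ?_
        rw [hD]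
        have c2 : (0 : ℝ) < (l : ℝ) ^ 2 := by positivity
        have c3 : Real.pi * Real.exp 1 * (l : ℝ) ^ 2 ≤ 8.6 * (l : ℝ) ^ 2 :=
          mul_le_mul_of_nonneg_right hpe c2.le
        nlinarith
    nlinarith

end VR29.LR
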