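import Pool.Agent.Lib.VR29.PL1

/-!
# MulPL1: multiplicative one-dimensional Prekopa-Leindler inequality on `(0, ∞)`

PROOF. Substitution `s = exp u`: `∫⁻ s in Ioi 0, f s = ∫⁻ u, f (exp u) * ofReal (exp u)`
(`lintegral_image_eq_lintegral_abs_deriv_mul` with `s = univ`, `Real.range_exp`). Put `F u = f(exp u) * ofReal(exp u)`, same `G`, `H'`.
`F u * G v = f(e^u) g(e^v) e^(u+v) ≤ (h(√(e^u e^v)) e^((u+v)/2))^2 = H'((u+v)/2)^2` because `√(e^u e^v) = e^((u+v)/2)`.
Bounded: `f (exp u) ≠ 0` only if `exp u ≤ M`, so `F u ≤ M * M`. Apply `pl1` with bound `M * M`.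
-/

set_option autoImplicit false

open MeasureTheory Set

open scoped ENNReal NNReal

noncomputable section

namespace VR29

namespace MulPL1Aux

theorem subst (f : ℝ → ℝ≥0∞) :
    ∫⁻ s in Ioi (0 : ℝ), f s = ∫⁻ u : ℝ, f (Real.exp u) * ENNReal.ofReal (Real.exp u) := by
  have h := lintegral_image_eq_lintegral_abs_deriv_mul (s := (univ : Set ℝ)) (f := Real.exp)
    (f' := Real.exp) MeasurableSet.univ (fun x _ => (Real.hasDerivAt_exp x).hasDerivWithinAt)
    (Real.exp_injective.injOn) f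
  rw [image_univ, Real.range_exp] at h
  rw [h, Measure.restrict_univ]
  refine lintegral_congr (fun u => ?_)
  rw [abs_of_pos (Real.exp_pos u), mul_comm]

theorem sqrt_exp (u v : ℝ) : Real.sqrt (Real.exp u * Real.exp v) = Real.exp ((u + v) / 2) := by
  rw [← Real.exp_add, show u + v = (u + v) / 2 + (u + v) / 2 by ring, Real.exp_add]
  rw [Real.sqrt_mul_self (Real.exp_pos _).le]
  congr 1
  ring

theorem bdd (f : ℝ → ℝ≥0∞) (M : ℝ≥0) (hfM : ∀ x, f x ≤ M)
    (hfs : ∀ s : ℝ, (M : ℝ) < s → f s = 0) (u : ℝ) :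
    f (Real.exp u) * ENNReal.ofReal (Real.exp u) ≤ ((M * M : ℝ≥0) : ℝ≥0∞) := by
  by_cases h : (M : ℝ) < Real.exp u
  · rw [hfs _ h]; simp
  · push Not at h
    rw [ENNReal.coe_mul]
    refine mul_le_mul' (hfM _) ?_
    calc ENNReal.ofReal (Real.exp u) ≤ ENNReal.ofReal (M : ℝ) := ENNReal.ofReal_le_ofReal h
      _ = M := by simp

end MulPL1Aux

open MulPL1Aux in
theorem mulpl1 (f g h : ℝ → ℝ≥0∞) (hf : Measurable f) (hg : Measurable g) (hh : Measurable h)
    (M : ℝ≥0) (hfM : ∀ x, f x ≤ M) (hgM : ∀ x, g x ≤ M)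
    (hfs : ∀ s : ℝ, (M : ℝ) < s → f s = 0) (hgs : ∀ s : ℝ, (M : ℝ) < s → g s = 0)
    (H : ∀ s t : ℝ, 0 < s → 0 < t → f s * g t ≤ h (Real.sqrt (s * t)) ^ 2) :
    (∫⁻ s in Ioi (0 : ℝ), f s) * (∫⁻ s in Ioi (0 : ℝ), g s) ≤ (∫⁻ s in Ioi (0 : ℝ), h s) ^ 2 := by
  rw [subst f, subst g, subst h]
  refine pl1 _ _ _ ?_ ?_ ?_ (M * M) (bdd f M hfM hfs) (bdd g M hgM hgs) ?_
  · exact (hf.comp Real.measurable_exp).mul (Real.measurable_exp.ennreal_ofReal)
  · exact (hg.comp Real.measurable_exp).mul (Real.measurable_exp.ennreal_ofReal)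
  · exact (hh.comp Real.measurable_exp).mul (Real.measurable_exp.ennreal_ofReal)
  · intro x y
    have h1 := H (Real.exp x) (Real.exp y) (Real.exp_pos x) (Real.exp_pos y)
    rw [sqrt_exp] at h1
    have h2 : ENNReal.ofReal (Real.exp x) * ENNReal.ofReal (Real.exp y) =
        ENNReal.ofReal (Real.exp ((x + y) / 2)) ^ 2 := by
      rw [← ENNReal.ofReal_mul (Real.exp_pos x).le, ← ENNReal.ofReal_pow (Real.exp_pos _).le,
        ← Real.exp_add, ← Real.exp_nat_mul]
      congr 2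
      push_cast
      ring
    calc f (Real.exp x) * ENNReal.ofReal (Real.exp x) * (g (Real.exp y) * ENNReal.ofReal (Real.exp y))
        = (f (Real.exp x) * g (Real.exp y)) *
          (ENNReal.ofReal (Real.exp x) * ENNReal.ofReal (Real.exp y)) := by ring
      _ ≤ h (Real.exp ((x + y) / 2)) ^ 2 * ENNReal.ofReal (Real.exp ((x + y) / 2)) ^ 2 := by
          rw [h2]
          exact mul_le_mul' h1 le_rfl
      _ = (h (Real.exp ((x + y) / 2)) * ENNReal.ofReal (Real.exp ((x + y) / 2))) ^ 2 := by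
          rw [mul_pow]

end VR29

end
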