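import Pool.Agent.Lib.VR29.NDefs

/-!
# NucAtt: the nuclear norm is attained (polar decomposition)

PROOF. Take `b, σ` from `nuclearNorm_eq X`, `T = toEuclideanLin X`. Let `A` be the matrix with `toEuclideanLin A (b i) = (σ i)⁻¹ • T (b i)` (with `0⁻¹ = 0`; `b.toBasis.constr ℝ`,
`Matrix.toEuclideanLin.symm`). The vectors `T (b i)` are pairwise orthogonal: `inner (T b_i) (T b_j) = inner (T^* T b_i) b_j = σ_i^2 inner b_i b_j`, and `‖T b_i‖ = σ_i`. So for `v = ∑ v_i b_i`
`‖A v‖^2 = ∑ v_i^2 [σ_i ≠ 0] ≤ ‖v‖^2`. `fro A X = ∑ inner (A b_i) (T b_i) = ∑ σ_i^{-1} σ_i^2 = ∑ σ_i = nuclearNorm X` (`fro_eq_sum_inner`).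
-/

set_option autoImplicit false

open MeasureTheory Set

open scoped ENNReal NNReal

noncomputable section

namespace VR29

theorem nuc_att {d : ℕ} (X : Matrix (Fin d) (Fin d) ℝ) :
    ∃ A : Matrix (Fin d) (Fin d) ℝ, Contr A ∧ fro A X = nuclearNorm X := by
  obtain ⟨b, σ, hσ, hb, hN⟩ := nuclearNorm_eq X
  set T := Matrix.toEuclideanLin X with hT
  set L : EuclideanSpace ℝ (Fin d) →ₗ[ℝ] EuclideanSpace ℝ (Fin d) :=
    b.toBasis.constr ℝ (fun i => (σ i)⁻¹ • T (b i)) with hL
  have hLb : ∀ i, L (b i) = (σ i)⁻¹ • T (b i) := by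
    intro i
    have := b.toBasis.constr_basis ℝ (fun i => (σ i)⁻¹ • T (b i)) i
    rwa [b.coe_toBasis] at this
  have hin : ∀ i j, inner ℝ (T (b i)) (T (b j)) = if i = j then σ i ^ 2 else 0 := by
    intro i j
    rw [← LinearMap.adjoint_inner_left, hb i, inner_smul_left, b.inner_eq_ite]
    simp
  refine ⟨Matrix.toEuclideanLin.symm L, ?_, ?_⟩
  · intro v
    rw [LinearEquiv.apply_symm_apply]
    have hv : L v = ∑ i, (inner ℝ (b i) v * (σ i)⁻¹) • T (b i) := by
      conv_lhs => rw [← b.sum_repr' v]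
      rw [map_sum]
      refine Finset.sum_congr rfl fun i _ => ?_
      rw [map_smul, hLb, smul_smul]
    have h1 : ‖L v‖ ^ 2 ≤ ‖v‖ ^ 2 := by
      rw [← real_inner_self_eq_norm_sq (L v), hv]
      have h2 : inner ℝ (∑ i, (inner ℝ (b i) v * (σ i)⁻¹) • T (b i))
          (∑ i, (inner ℝ (b i) v * (σ i)⁻¹) • T (b i))
          = ∑ i, (inner ℝ (b i) v) ^ 2 * ((σ i)⁻¹ * σ i) ^ 2 := by
        rw [sum_inner]
        refine Finset.sum_congr rfl fun i _ => ?_
        rw [inner_sum, Finset.sum_eq_single i]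
        · rw [inner_smul_left, inner_smul_right, hin, if_pos rfl]
          simp only [conj_trivial]
          ring
        · intro j _ hj
          rw [inner_smul_left, inner_smul_right, hin, if_neg (Ne.symm hj)]
          simp
        · intro h; exact absurd (Finset.mem_univ i) h
      rw [h2, ← b.sum_sq_norm_inner_right v]
      refine Finset.sum_le_sum fun i _ => ?_
      rw [Real.norm_eq_abs, sq_abs]
      have h3 : ((σ i)⁻¹ * σ i) ^ 2 ≤ 1 := by
        by_cases h : σ i = 0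
        · rw [h]; simp
        · rw [inv_mul_cancel₀ h]; simp
      nlinarith [sq_nonneg (inner ℝ (b i) v : ℝ)]
    exact (sq_le_sq₀ (norm_nonneg _) (norm_nonneg _)).1 h1
  · rw [fro_eq_sum_inner b, LinearEquiv.apply_symm_apply, hN]
    refine Finset.sum_congr rfl fun i _ => ?_
    rw [hLb, inner_smul_left, ← hT, hin, if_pos rfl]
    simp only [conj_trivial]
    by_cases h : σ i = 0
    · rw [h]; simp
    · rw [pow_two, ← mul_assoc, inv_mul_cancel₀ h, one_mul]

end VR29

end
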