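import Pool.Agent.Lib.VR29.NucDual
import Pool.Agent.Lib.VR29.NucAtt

/-!
# NucBall: the nuclear ball is the polar of the set of contractions, and conversely

PROOF. (1) `→`: `nuc_dual` with `r = 1`; `←`: `nuc_att`. (2) `→`: (1). `←`: for vectors `v, w` with norm `≤ 1` the matrix `X = w v^T` (`Matrix.vecMulVec`) is in
the nuclear ball by (1), because `fro B X = inner w (B v) ≤ 1` for a contraction `B` (`fro_vecMulVec`). So `inner w (A v) ≤ 1` for all such `v, w`, which gives `‖A v‖ ≤ 1` for `‖v‖ ≤ 1`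
(`w = A v / ‖A v‖`) and then `‖A v‖ ≤ ‖v‖` by scaling.
-/

set_option autoImplicit false

open MeasureTheory Set

open scoped ENNReal NNReal

noncomputable section

namespace VR29

theorem nuc_iff {d : ℕ} (X : Matrix (Fin d) (Fin d) ℝ) :
    X ∈ nuclearBall d ↔ ∀ A, Contr A → fro A X ≤ 1 := by
  constructor
  · intro hX A hA
    have h := nuc_dual A X 1 zero_le_one (fun v => by rw [one_mul]; exact hA v)
    rw [one_mul] at h
    exact (le_abs_self _).trans (h.trans hX)
  · intro h
    obtain ⟨A, hA, hAX⟩ := nuc_att X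
    have := h A hA
    rw [hAX] at this
    exact this

theorem contr_iff {d : ℕ} (A : Matrix (Fin d) (Fin d) ℝ) :
    Contr A ↔ ∀ X ∈ nuclearBall d, fro A X ≤ 1 := by
  constructor
  · intro hA X hX
    exact (nuc_iff X).1 hX A hA
  · intro h v
    have key : ∀ v w : EuclideanSpace ℝ (Fin d), ‖v‖ ≤ 1 → ‖w‖ ≤ 1 →
        inner ℝ w (Matrix.toEuclideanLin A v) ≤ 1 := by
      intro v w hv hw
      rw [← fro_vecMulVec]
      apply h
      rw [nuc_iff]
      intro B hB
      rw [fro_vecMulVec]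
      calc inner ℝ w (Matrix.toEuclideanLin B v) ≤ ‖w‖ * ‖Matrix.toEuclideanLin B v‖ :=
            real_inner_le_norm _ _
        _ ≤ 1 * 1 := by
            apply mul_le_mul hw ((hB v).trans hv) (norm_nonneg _) zero_le_one
        _ = 1 := one_mul 1
    by_cases hv0 : v = 0
    · rw [hv0, map_zero]
    by_cases hA0 : Matrix.toEuclideanLin A v = 0
    · rw [hA0, norm_zero]; exact norm_nonneg _
    have hv1 : 0 < ‖v‖ := norm_pos_iff.2 hv0
    have hA1 : 0 < ‖Matrix.toEuclideanLin A v‖ := norm_pos_iff.2 hA0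
    have h1 := key (‖v‖⁻¹ • v) (‖Matrix.toEuclideanLin A v‖⁻¹ • Matrix.toEuclideanLin A v)
      (by rw [norm_smul, norm_inv, norm_norm, inv_mul_cancel₀ hv1.ne'])
      (by rw [norm_smul, norm_inv, norm_norm, inv_mul_cancel₀ hA1.ne'])
    rw [map_smul, inner_smul_left, inner_smul_right, real_inner_self_eq_norm_sq] at h1
    simp only [conj_trivial] at h1
    have h2 : ‖Matrix.toEuclideanLin A v‖⁻¹ * (‖v‖⁻¹ * ‖Matrix.toEuclideanLin A v‖ ^ 2)
        = ‖Matrix.toEuclideanLin A v‖ / ‖v‖ := by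
      field_simp
    rw [h2, div_le_one hv1] at h1
    exact h1

end VR29

end
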