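import Pool.Agent.Lib.VR29.NucTop

/-!
# NucBody: images of the nuclear ball are symmetric bodies

PROOF. (1) image of a convex compact symmetric set under a linear (hence continuous, `LinearMap.continuous_of_finiteDimensional`) map; neighbourhood of 0 because a surjective linear map of
finite-dimensional spaces is open (`LinearMap.isOpenMap_of_finiteDimensional`) and `L 0 = 0`. (2) the span contains `L X` for every `X`: `ε • X ∈ nuclearBall` for some `ε > 0`
(neighbourhood of 0, absorbing: `absorbent_nhds_zero` or continuity of `t ↦ t • X`).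
-/

set_option autoImplicit false

open MeasureTheory Set

open scoped ENNReal NNReal

noncomputable section

namespace VR29

variable {V : Type*} [NormedAddCommGroup V] [InnerProductSpace ℝ V] [FiniteDimensional ℝ V]

theorem nimg_body {d : ℕ} (L : Matrix (Fin d) (Fin d) ℝ →ₗ[ℝ] V) (hL : Function.Surjective L) :
    SBody (L '' nuclearBall d) := by
  obtain ⟨h1, h2, h3, h4⟩ := nball_props d
  refine ⟨h1.linear_image L, h2.image L.continuous_of_finiteDimensional, ?_, ?_⟩
  · rintro _ ⟨X, hX, rfl⟩
    exact ⟨-X, h3 X hX, by rw [map_neg]⟩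
  · have h5 := (L.isOpenMap_of_finiteDimensional hL).image_mem_nhds h4
    rwa [map_zero] at h5

theorem nimg_span {d : ℕ} (L : Matrix (Fin d) (Fin d) ℝ →ₗ[ℝ] V) :
    Submodule.span ℝ (L '' nuclearBall d) = LinearMap.range L := by
  obtain ⟨_, _, _, h4⟩ := nball_props d
  apply le_antisymm
  · rw [Submodule.span_le]
    rintro _ ⟨X, _, rfl⟩
    exact ⟨X, rfl⟩
  · rintro _ ⟨X, rfl⟩
    have h5 : Filter.Tendsto (fun t : ℝ => t • X) (nhds 0) (nhds 0) := by
      have h6 : Continuous fun t : ℝ => t • X := continuous_id.smul continuous_const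
      have h7 := h6.tendsto 0
      rwa [zero_smul] at h7
    obtain ⟨ε, hε, h6⟩ := Metric.eventually_nhds_iff.1 (h5.eventually h4)
    have h7 : (ε / 2) • X ∈ nuclearBall d := by
      apply h6
      rw [dist_zero_right, Real.norm_of_nonneg (by positivity)]
      linarith
    have h8 : L X = (ε / 2)⁻¹ • L ((ε / 2) • X) := by
      rw [map_smul, smul_smul, inv_mul_cancel₀ (by positivity), one_smul]
    rw [h8]
    exact Submodule.smul_mem _ _ (Submodule.subset_span ⟨_, h7, rfl⟩)

end VR29

end
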