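import Pool.Agent.Lib.VR29.NucBall

/-!
# NucCov: colouring of contractions gives the covering property of the image of the nuclear ball
-/

set_option autoImplicit false

open MeasureTheory Set

open scoped ENNReal NNReal

noncomputable section

namespace VR29

variable {V : Type*} [NormedAddCommGroup V] [InnerProductSpace ℝ V] [FiniteDimensional ℝ V]

namespace NucCovAux

/-- the matrix representing the functional `X ↦ inner w (L X)` -/
def mat {d : ℕ} (L : Matrix (Fin d) (Fin d) ℝ →ₗ[ℝ] V) (w : V) : Matrix (Fin d) (Fin d) ℝ :=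
  fun a b => inner ℝ w (L (Matrix.single a b 1))

omit [FiniteDimensional ℝ V] in
theorem fro_mat {d : ℕ} (L : Matrix (Fin d) (Fin d) ℝ →ₗ[ℝ] V) (w : V)
    (X : Matrix (Fin d) (Fin d) ℝ) : fro (mat L w) X = inner ℝ w (L X) := by
  classical
  have h1 : X = ∑ a, ∑ b, X a b • Matrix.single a b (1 : ℝ) := by
    conv_lhs => rw [Matrix.matrix_eq_sum_single X]
    refine Finset.sum_congr rfl (fun a _ => Finset.sum_congr rfl (fun b _ => ?_))
    rw [Matrix.smul_single, smul_eq_mul, mul_one]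
  conv_rhs => rw [h1]
  simp only [map_sum, map_smul, inner_sum, inner_smul_right]
  unfold fro mat
  refine Finset.sum_congr rfl (fun a _ => Finset.sum_congr rfl (fun b _ => ?_))
  ring

end NucCovAux

open NucCovAux

theorem nimg_cov {d : ℕ} (L : Matrix (Fin d) (Fin d) ℝ →ₗ[ℝ] V) (k : ℕ) (R : ℝ) (hR : 0 ≤ R)
    (hcol : ∀ A : Fin k → Matrix (Fin d) (Fin d) ℝ, (∀ i, Contr (A i)) → ∀ x : Fin k → ℝ,
      (∀ i, |x i| ≤ 1) → ∃ z : Fin k → ℝ, (∀ i, z i = 1 ∨ z i = -1) ∧
      ∀ v : EuclideanSpace ℝ (Fin d),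
        ‖Matrix.toEuclideanLin (∑ i, (x i - z i) • A i) v‖ ≤ R * ‖v‖) :
    Cov (L '' nuclearBall d) k R := by
  intro u hu x hx
  obtain ⟨z, hz, hv⟩ := hcol (fun i => mat L (u i)) (fun i => by
    rw [contr_iff]
    intro X hX
    rw [fro_mat]
    exact (le_abs_self _).trans (hu i _ ⟨X, hX, rfl⟩)) x hx
  refine ⟨z, hz, ?_⟩
  rintro _ ⟨X, hX, rfl⟩
  have h1 : fro (∑ i, (x i - z i) • mat L (u i)) X = inner ℝ (∑ i, (x i - z i) • u i) (L X) := by
    rw [fro_sum_left, sum_inner]
    refine Finset.sum_congr rfl (fun i _ => ?_)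
    rw [fro_smul_left, fro_mat, inner_smul_left]
    simp
  rw [← h1]
  refine (nuc_dual _ X R hR hv).trans ?_
  have : nuclearNorm X ≤ 1 := hX
  nlinarith

end VR29

end
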