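import Pool.Agent.Lib.VR29.NDefs

/-!
# NucDual: duality between the operator norm and the nuclear norm
-/

set_option autoImplicit false

open MeasureTheory Set

open scoped ENNReal NNReal

noncomputable section

namespace VR29

theorem nuc_dual {d : ℕ} (A X : Matrix (Fin d) (Fin d) ℝ) (r : ℝ) (hr : 0 ≤ r)
    (hA : ∀ v : EuclideanSpace ℝ (Fin d), ‖Matrix.toEuclideanLin A v‖ ≤ r * ‖v‖) :
    |fro A X| ≤ r * nuclearNorm X := by
  obtain ⟨b, σ, hσ, hb, hN⟩ := nuclearNorm_eq X
  rw [hN, fro_eq_sum_inner b A X, Finset.mul_sum]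
  refine (Finset.abs_sum_le_sum_abs _ _).trans (Finset.sum_le_sum (fun i _ => ?_))
  calc |inner ℝ (Matrix.toEuclideanLin A (b i)) (Matrix.toEuclideanLin X (b i))|
      ≤ ‖Matrix.toEuclideanLin A (b i)‖ * ‖Matrix.toEuclideanLin X (b i)‖ :=
        abs_real_inner_le_norm _ _
    _ ≤ r * σ i := by
      rw [norm_of_adjoint (hσ i) (b.norm_eq_one i) (hb i)]
      have h := hA (b i)
      rw [b.norm_eq_one i, mul_one] at h
      exact mul_le_mul_of_nonneg_right h (hσ i)

end VR29

end
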