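import Pool.Agent.Lib.VR29.NucBall

/-!
# NucTop: the nuclear ball is a symmetric convex body

PROOF. By `nuc_iff` the ball is the intersection of the closed half spaces `{X | fro A X ≤ 1}`, `A` a contraction: convex and closed; symmetric since `-A` is a contraction
(`fro_neg_left`, `fro_neg_right`). Bounded: the matrix unit `A = Matrix.single i j (±1)` is a contraction (its image vector is a coordinate of `v`), so `|X i j| ≤ 1`; the topology on matrices is the
product topology, so the ball is compact (closed subset of a product of intervals, `isCompact_univ_pi`). Neighbourhood of 0: contractions have entries `|A i j| ≤ 1` (apply to a unit vector),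
so `|X i j| < 1/(d^2+1)` for all `i, j` implies `fro A X ≤ 1` (open set in the product topology).
-/

set_option autoImplicit false

open MeasureTheory Set

open scoped ENNReal NNReal

noncomputable section

namespace VR29

theorem nball_props (d : ℕ) : Convex ℝ (nuclearBall d) ∧ IsCompact (nuclearBall d) ∧
    (∀ X ∈ nuclearBall d, -X ∈ nuclearBall d) ∧
    nuclearBall d ∈ nhds (0 : Matrix (Fin d) (Fin d) ℝ) := by
  have hcont : ∀ A : Matrix (Fin d) (Fin d) ℝ, Continuous (fun X => fro A X) := by
    intro A
    unfold fro
    fun_prop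
  have hns : ∀ (i : Fin d) (c : ℝ), ‖EuclideanSpace.single i c‖ = ‖c‖ := by
    intro i c
    simp
  have hent : ∀ A : Matrix (Fin d) (Fin d) ℝ, Contr A → ∀ i j, |A i j| ≤ 1 := by
    intro A hA i j
    have h1 := hA (EuclideanSpace.single j (1 : ℝ))
    rw [hns, norm_one] at h1
    have h2 : (Matrix.toEuclideanLin A (EuclideanSpace.single j (1 : ℝ))) i = A i j := by
      simp [Matrix.toLpLin_apply]
    have h3 := (PiLp.norm_apply_le (Matrix.toEuclideanLin A (EuclideanSpace.single j (1 : ℝ))) i).trans h1
    rw [h2, Real.norm_eq_abs] at h3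
    exact h3
  have hcon : ∀ (i j : Fin d) (c : ℝ), |c| ≤ 1 → Contr (Matrix.single i j c) := by
    intro i j c hc v
    have h1 : Matrix.toEuclideanLin (Matrix.single i j c) v
        = EuclideanSpace.single i (c * v j) := by
      ext s
      by_cases hs : i = s
      · subst hs
        simp [Matrix.toLpLin_apply, Matrix.mulVec, dotProduct, Matrix.single_apply]
      · simp [Matrix.toLpLin_apply, Matrix.mulVec, dotProduct, hs, Ne.symm hs]
    rw [h1, hns, norm_mul]
    calc ‖c‖ * ‖v j‖ ≤ 1 * ‖v‖ :=
          mul_le_mul hc (PiLp.norm_apply_le v j) (norm_nonneg _) zero_le_one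
      _ = ‖v‖ := one_mul _
  have hball : nuclearBall d = ⋂ A : {A : Matrix (Fin d) (Fin d) ℝ // Contr A},
      {X | fro A.1 X ≤ 1} := by
    ext X
    rw [Set.mem_iInter, Subtype.forall]
    exact nuc_iff X
  have hcl : IsClosed (nuclearBall d) := by
    rw [hball]
    exact isClosed_iInter fun A => isClosed_le (hcont A.1) continuous_const
  refine ⟨?_, ?_, ?_, ?_⟩
  · intro X hX Y hY a c ha hc hac
    rw [nuc_iff] at hX hY ⊢
    intro A hA
    rw [fro_add_right, fro_smul_right, fro_smul_right]
    have h1 := mul_le_mul_of_nonneg_left (hX A hA) ha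
    have h2 := mul_le_mul_of_nonneg_left (hY A hA) hc
    linarith
  · have hK : IsCompact (Set.pi Set.univ (fun _ : Fin d =>
        Set.pi Set.univ (fun _ : Fin d => Set.Icc (-1 : ℝ) 1))) :=
      isCompact_univ_pi fun _ => isCompact_univ_pi fun _ => isCompact_Icc
    refine hK.of_isClosed_subset hcl ?_
    intro X hX i _ j _
    replace hX := (nuc_iff (X : Matrix (Fin d) (Fin d) ℝ)).1 hX
    have h1 : ∀ c : ℝ, fro (Matrix.single i j c) X = c * X i j := by
      intro c
      unfold fro
      rw [Finset.sum_eq_single i, Finset.sum_eq_single j]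
      · simp
      · intro b _ hb
        simp [Ne.symm hb]
      · intro h; exact absurd (Finset.mem_univ j) h
      · intro a _ ha
        apply Finset.sum_eq_zero
        intro b _
        simp [Ne.symm ha]
      · intro h; exact absurd (Finset.mem_univ i) h
    have h2 := hX _ (hcon i j 1 (by simp))
    have h3 := hX _ (hcon i j (-1) (by simp))
    rw [h1] at h2 h3
    change X i j ∈ Set.Icc (-1 : ℝ) 1
    exact ⟨by linarith, by linarith⟩
  · intro X hX
    rw [nuc_iff] at hX ⊢
    intro A hA
    rw [fro_neg_right, ← fro_neg_left]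
    apply hX
    intro v
    rw [map_neg, LinearMap.neg_apply, norm_neg]
    exact hA v
  · have hU : (Set.pi Set.univ (fun _ : Fin d =>
        Set.pi Set.univ (fun _ : Fin d => Set.Icc (-(1 / ((d : ℝ) * d + 1))) (1 / ((d : ℝ) * d + 1)))))
        ∈ nhds (0 : Matrix (Fin d) (Fin d) ℝ) := by
      apply set_pi_mem_nhds Set.finite_univ
      intro i _
      apply set_pi_mem_nhds Set.finite_univ
      intro j _
      apply Icc_mem_nhds
      · have : (0 : ℝ) < 1 / ((d : ℝ) * d + 1) := by positivity
        simpa using this
      · have : (0 : ℝ) < 1 / ((d : ℝ) * d + 1) := by positivity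
        simpa using this
    refine Filter.mem_of_superset hU ?_
    intro X hX
    rw [nuc_iff]
    intro A hA
    have h1 : ∀ i j, A i j * X i j ≤ 1 / ((d : ℝ) * d + 1) := by
      intro i j
      have h2 := hX i (Set.mem_univ i) j (Set.mem_univ j)
      have h3 : |X i j| ≤ 1 / ((d : ℝ) * d + 1) := abs_le.2 h2
      calc A i j * X i j ≤ |A i j * X i j| := le_abs_self _
        _ = |A i j| * |X i j| := abs_mul _ _
        _ ≤ 1 * (1 / ((d : ℝ) * d + 1)) :=
          mul_le_mul (hent A hA i j) h3 (abs_nonneg _) zero_le_one
        _ = _ := one_mul _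
    calc fro A X ≤ ∑ _i : Fin d, ∑ _j : Fin d, 1 / ((d : ℝ) * d + 1) :=
          Finset.sum_le_sum fun i _ => Finset.sum_le_sum fun j _ => h1 i j
      _ = ((d : ℝ) * d) / ((d : ℝ) * d + 1) := by
          simp only [Finset.sum_const, Finset.card_univ, Fintype.card_fin, nsmul_eq_mul]
          ring
      _ ≤ 1 := by
          rw [div_le_one (by positivity)]
          linarith

end VR29

end
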