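import Pool.Agent.Lib.VR29.MulPL1

/-!
# Orth: geometric mean Brunn-Minkowski inequality in the positive orthant

PROOF. Same induction as in `BMn` with `mulpl1` instead of `pl1`. `n = 0`: one point. Step: `vol_slice 0`; the slice function
`f s = volume {x | ins 0 s x ∈ A}` vanishes for `s ≤ 0` (coordinates of `A` are positive), so `volume A = ∫⁻ s in Ioi 0, f s`
(for `C` only `∫⁻ s in Ioi 0, h s ≤ volume C` is needed). Choose `r ≥ 1` with `A, B ⊆ {|x i| ≤ r}` and `M = max r ((2r)^n)`.
For `s, t > 0` the slices `A_s, B_t, C_(√(s t))` satisfy the hypothesis: `(√(a_i b_i))_i = ins 0 (√(s t)) (√(x_i y_i))`.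
-/

set_option autoImplicit false

open MeasureTheory Set

open scoped ENNReal NNReal

noncomputable section

namespace VR29

namespace OrthAux

theorem ins_sqrt {n : ℕ} (s t : ℝ) (a b : Fin n → ℝ) :
    (fun i => Real.sqrt (ins 0 s a i * ins 0 t b i)) =
      ins 0 (Real.sqrt (s * t)) (fun i => Real.sqrt (a i * b i)) := by
  funext j
  rcases eq_or_ne j 0 with h | h
  · subst h; simp
  · obtain ⟨j', rfl⟩ := Fin.exists_succAbove_eq h
    simp only [ins_succAbove]

theorem bdd_slice {n : ℕ} {A : Set (Fin (n + 1) → ℝ)} {R : ℝ}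
    (hA : A ⊆ Metric.closedBall 0 R) (s : ℝ) :
    {x : Fin n → ℝ | ins 0 s x ∈ A} ⊆ Metric.closedBall 0 R := by
  intro x hx
  have h1 := hA hx
  rw [mem_closedBall_zero_iff] at h1 ⊢
  have hR : 0 ≤ R := (norm_nonneg _).trans h1
  refine (pi_norm_le_iff_of_nonneg hR).2 fun j => ?_
  have h2 := norm_le_pi_norm (ins 0 s x) (Fin.succAbove 0 j)
  rw [ins_succAbove] at h2
  exact h2.trans h1

theorem slice_empty {n : ℕ} {A : Set (Fin (n + 1) → ℝ)} {R : ℝ}
    (hA : A ⊆ Metric.closedBall 0 R) {s : ℝ} (hs : R < s) :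
    {x : Fin n → ℝ | ins 0 s x ∈ A} = ∅ := by
  rw [eq_empty_iff_forall_notMem]
  intro x hx
  have h1 := hA hx
  rw [mem_closedBall_zero_iff] at h1
  have h2 := norm_le_pi_norm (ins 0 s x) 0
  rw [ins_same, Real.norm_eq_abs] at h2
  have h3 := le_abs_self s
  linarith

theorem slice_empty' {n : ℕ} {A : Set (Fin (n + 1) → ℝ)}
    (hA : ∀ a ∈ A, ∀ i, 0 < a i) {s : ℝ} (hs : s ≤ 0) :
    {x : Fin n → ℝ | ins 0 s x ∈ A} = ∅ := by
  rw [eq_empty_iff_forall_notMem]
  intro x hx
  have h1 := hA _ hx 0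
  rw [ins_same] at h1
  linarith

theorem vol_pos {n : ℕ} {A : Set (Fin (n + 1) → ℝ)} (hAm : MeasurableSet A)
    (hA : ∀ a ∈ A, ∀ i, 0 < a i) :
    volume A = ∫⁻ s in Ioi (0 : ℝ), volume {x : Fin n → ℝ | ins 0 s x ∈ A} := by
  rw [vol_slice 0 A hAm, ← lintegral_indicator measurableSet_Ioi]
  congr 1
  funext s
  by_cases hs : s ∈ Ioi (0 : ℝ)
  · rw [indicator_of_mem hs]
  · rw [indicator_of_notMem hs, slice_empty' hA (not_lt.1 hs), measure_empty]

end OrthAux

open OrthAux in
theorem orth (n : ℕ) (A B C : Set (Fin n → ℝ)) (hA : MeasurableSet A) (hB : MeasurableSet B)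
    (hC : MeasurableSet C) (hAb : Bornology.IsBounded A) (hBb : Bornology.IsBounded B)
    (hA0 : ∀ a ∈ A, ∀ i, 0 < a i) (hB0 : ∀ b ∈ B, ∀ i, 0 < b i)
    (h : ∀ a ∈ A, ∀ b ∈ B, (fun i => Real.sqrt (a i * b i)) ∈ C) :
    volume A * volume B ≤ (volume C) ^ 2 := by
  induction n with
  | zero =>
    rcases A.eq_empty_or_nonempty with rfl | ⟨a, ha⟩
    · simp
    rcases B.eq_empty_or_nonempty with rfl | ⟨b, hb⟩
    · simp
    have hCu : C = univ := by
      rw [eq_univ_iff_forall]
      intro c
      have := h a ha b hb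
      rwa [Subsingleton.elim c]
    have h1 : volume (univ : Set (Fin 0 → ℝ)) = 1 := by
      rw [Measure.volume_pi_eq_dirac]
      simp
    have hA1 : volume A ≤ 1 := h1 ▸ measure_mono (subset_univ A)
    have hB1 : volume B ≤ 1 := h1 ▸ measure_mono (subset_univ B)
    rw [hCu, h1, one_pow]
    exact mul_le_one' hA1 hB1
  | succ n ih =>
    obtain ⟨R1, hR1⟩ := hAb.subset_closedBall 0
    obtain ⟨R2, hR2⟩ := hBb.subset_closedBall 0
    set R : ℝ := max R1 R2 with hR
    have hAR : A ⊆ Metric.closedBall 0 R :=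
      hR1.trans (Metric.closedBall_subset_closedBall (le_max_left _ _))
    have hBR : B ⊆ Metric.closedBall 0 R :=
      hR2.trans (Metric.closedBall_subset_closedBall (le_max_right _ _))
    have hK : volume (Metric.closedBall (0 : Fin n → ℝ) R) < ⊤ := measure_closedBall_lt_top
    set K : ℝ≥0 := (volume (Metric.closedBall (0 : Fin n → ℝ) R)).toNNReal with hKdef
    have hK2 : volume (Metric.closedBall (0 : Fin n → ℝ) R) = K :=
      (ENNReal.coe_toNNReal hK.ne).symm
    set M : ℝ≥0 := max R.toNNReal K with hM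
    have hRM : R ≤ M := by
      have : R ≤ R.toNNReal := Real.le_coe_toNNReal R
      exact this.trans (by exact_mod_cast le_max_left _ _)
    have hKM : (K : ℝ≥0∞) ≤ M := by exact_mod_cast le_max_right _ _
    rw [vol_pos hA hA0, vol_pos hB hB0]
    refine (mulpl1 (fun s => volume {x : Fin n → ℝ | ins 0 s x ∈ A})
      (fun s => volume {x : Fin n → ℝ | ins 0 s x ∈ B})
      (fun s => volume {x : Fin n → ℝ | ins 0 s x ∈ C})
      (measurable_slice 0 A hA) (measurable_slice 0 B hB) (measurable_slice 0 C hC) M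
      (fun s => ?_) (fun s => ?_) (fun s hs => ?_) (fun s hs => ?_) (fun s t hs ht => ?_)).trans ?_
    · exact (measure_mono (bdd_slice hAR s)).trans (hK2.le.trans hKM)
    · exact (measure_mono (bdd_slice hBR s)).trans (hK2.le.trans hKM)
    · simp only [slice_empty hAR (hRM.trans_lt hs), measure_empty]
    · simp only [slice_empty hBR (hRM.trans_lt hs), measure_empty]
    · refine ih _ _ _ (measurableSet_slice 0 A hA s) (measurableSet_slice 0 B hB t)
        (measurableSet_slice 0 C hC _) (Metric.isBounded_closedBall.subset (bdd_slice hAR s))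
        (Metric.isBounded_closedBall.subset (bdd_slice hBR t)) ?_ ?_ ?_
      · intro a ha i
        have := hA0 _ ha (Fin.succAbove 0 i)
        rwa [ins_succAbove] at this
      · intro b hb i
        have := hB0 _ hb (Fin.succAbove 0 i)
        rwa [ins_succAbove] at this
      · intro a ha b hb
        have := h _ ha _ hb
        rw [ins_sqrt] at this
        exact this
    · rw [vol_slice 0 C hC]
      gcongr
      exact Measure.restrict_le_self

end VR29

end
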