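import Pool.Agent.Lib.VR29.BM1

/-!
# PL1: one-dimensional Prekopa-Leindler inequality (midpoint form, bounded functions)

PROOF. Let `a = ⨆ f`, `b = ⨆ g` (both `≤ M < ⊤`). If `a = 0` or `b = 0` the left side is `0`. Put `F = f / a`, `G = g / b`,
`H = h / √(a b)` (ENNReal; or work with real functions `toReal`; replacing `h` by `min h M` keeps the hypothesis because `f x * g y ≤ M^2`).
Then `F x * G y ≤ H((x+y)/2)^2` and `⨆ F = ⨆ G = 1`. For `0 < t < 1` the sets `{t < F}`, `{t < G}` are measurable and nonempty and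
`(x+y)/2 ∈ {t < H}` for `x, y` in them (since `t^2 < F x G y`), so `bm1` gives `(|{t<F}| + |{t<G}|)/2 ≤ |{t<H}|`.
Integrate over `t ∈ (0,1)` (layer cake `lintegral_eq_lintegral_meas_lt`; `{t < F} = ∅` for `t ≥ 1`):
`(∫F + ∫G)/2 ≤ ∫ H`, hence `∫F ∫G ≤ (∫ H)^2` by `4 x y ≤ (x+y)^2`. Multiply by `a b`.
-/

set_option autoImplicit false

open MeasureTheory Set

open scoped ENNReal NNReal

noncomputable section

namespace VR29

namespace PL1Aux

theorem four_mul_le (x y : ℝ≥0∞) : 4 * (x * y) ≤ (x + y) ^ 2 := by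
  rcases eq_or_ne x ⊤ with rfl | hx
  · simp
  rcases eq_or_ne y ⊤ with rfl | hy
  · simp
  lift x to ℝ≥0 using hx
  lift y to ℝ≥0 using hy
  norm_cast
  have : (4 : ℝ) * (x * y) ≤ (x + y) ^ 2 := by nlinarith [sq_nonneg ((x : ℝ) - y)]
  exact_mod_cast this

/-- The normalised real form. -/
theorem core (φ γ η : ℝ → ℝ) (hφ : Measurable φ) (hγ : Measurable γ) (hη : Measurable η)
    (hφ0 : ∀ x, 0 ≤ φ x) (hγ0 : ∀ x, 0 ≤ γ x) (hη0 : ∀ x, 0 ≤ η x)
    (hφ1 : ∀ x, φ x ≤ 1) (hγ1 : ∀ x, γ x ≤ 1)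
    (hφs : ∀ t : ℝ, 0 < t → t < 1 → ∃ x, t < φ x) (hγs : ∀ t : ℝ, 0 < t → t < 1 → ∃ x, t < γ x)
    (H : ∀ x y, φ x * γ y ≤ η ((x + y) / 2) ^ 2) :
    (∫⁻ x, ENNReal.ofReal (φ x)) * (∫⁻ x, ENNReal.ofReal (γ x)) ≤
      (∫⁻ x, ENNReal.ofReal (η x)) ^ 2 := by
  have key : ∀ t ∈ Ioi (0 : ℝ), volume {x | t < φ x} + volume {x | t < γ x} ≤
      2 * volume {x | t < η x} := by
    intro t ht
    rw [mem_Ioi] at ht
    by_cases h1 : t < 1
    · refine BM1Aux.two _ _ _ (measurableSet_lt measurable_const hφ)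
        (measurableSet_lt measurable_const hγ) (hφs t ht h1) (hγs t ht h1) ?_
      intro x hx y hy
      rw [mem_ofPred_eq] at hx hy ⊢
      have h2 : t ^ 2 < φ x * γ y := by nlinarith
      have h3 : t ^ 2 < η ((x + y) / 2) ^ 2 := lt_of_lt_of_le h2 (H x y)
      exact lt_of_pow_lt_pow_left₀ 2 (hη0 _) h3
    · have e1 : {x | t < φ x} = ∅ := by
        ext x
        simp only [mem_ofPred_eq, mem_empty_iff_false, iff_false, not_lt]
        exact (hφ1 x).trans (not_lt.1 h1)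
      have e2 : {x | t < γ x} = ∅ := by
        ext x
        simp only [mem_ofPred_eq, mem_empty_iff_false, iff_false, not_lt]
        exact (hγ1 x).trans (not_lt.1 h1)
      rw [e1, e2]
      simp
  have lc : ∀ ψ : ℝ → ℝ, Measurable ψ → (∀ x, 0 ≤ ψ x) →
      ∫⁻ x, ENNReal.ofReal (ψ x) = ∫⁻ t in Ioi (0 : ℝ), volume {x | t < ψ x} := fun ψ h1 h2 =>
    lintegral_eq_lintegral_meas_lt volume (Filter.Eventually.of_forall h2) h1.aemeasurable
  have mm : ∀ ψ : ℝ → ℝ, Measurable (fun t : ℝ => volume {x | t < ψ x}) := fun ψ => by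
    refine Antitone.measurable ?_
    intro s t hst
    exact measure_mono fun x hx => lt_of_le_of_lt hst hx
  have hsum : (∫⁻ x, ENNReal.ofReal (φ x)) + (∫⁻ x, ENNReal.ofReal (γ x)) ≤
      2 * ∫⁻ x, ENNReal.ofReal (η x) := by
    rw [lc φ hφ hφ0, lc γ hγ hγ0, lc η hη hη0, ← lintegral_add_left (mm φ),
      ← lintegral_const_mul _ (mm η)]
    exact setLIntegral_mono' measurableSet_Ioi key
  have h4 : 4 * ((∫⁻ x, ENNReal.ofReal (φ x)) * (∫⁻ x, ENNReal.ofReal (γ x))) ≤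
      4 * (∫⁻ x, ENNReal.ofReal (η x)) ^ 2 := by
    refine (four_mul_le _ _).trans ?_
    refine (pow_le_pow_left' hsum 2).trans (le_of_eq ?_)
    rw [mul_pow]
    norm_num
  exact (ENNReal.mul_le_mul_iff_right (by norm_num) (by norm_num)).1 h4

end PL1Aux

theorem pl1 (f g h : ℝ → ℝ≥0∞) (hf : Measurable f) (hg : Measurable g) (hh : Measurable h)
    (M : ℝ≥0) (hfM : ∀ x, f x ≤ M) (hgM : ∀ x, g x ≤ M)
    (H : ∀ x y, f x * g y ≤ h ((x + y) / 2) ^ 2) :
    (∫⁻ x, f x) * (∫⁻ x, g x) ≤ (∫⁻ x, h x) ^ 2 := by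
  obtain ⟨a, ha⟩ : ∃ a, a = ⨆ x, f x := ⟨_, rfl⟩
  obtain ⟨b, hb⟩ : ∃ b, b = ⨆ x, g x := ⟨_, rfl⟩
  have hfa : ∀ x, f x ≤ a := fun x => ha ▸ le_iSup f x
  have hgb : ∀ x, g x ≤ b := fun x => hb ▸ le_iSup g x
  have haM : a ≤ M := ha ▸ iSup_le hfM
  have hbM : b ≤ M := hb ▸ iSup_le hgM
  have haT : a ≠ ⊤ := ne_top_of_le_ne_top ENNReal.coe_ne_top haM
  have hbT : b ≠ ⊤ := ne_top_of_le_ne_top ENNReal.coe_ne_top hbM
  by_cases ha0 : a = 0
  · have : ∀ x, f x = 0 := fun x => le_antisymm (ha0 ▸ hfa x) zero_le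
    simp [this]
  by_cases hb0 : b = 0
  · have : ∀ x, g x = 0 := fun x => le_antisymm (hb0 ▸ hgb x) zero_le
    simp [this]
  have hA : 0 < a.toReal := ENNReal.toReal_pos ha0 haT
  have hB : 0 < b.toReal := ENNReal.toReal_pos hb0 hbT
  obtain ⟨A, hAe⟩ : ∃ A, A = a.toReal := ⟨_, rfl⟩
  obtain ⟨B, hBe⟩ : ∃ B, B = b.toReal := ⟨_, rfl⟩
  rw [← hAe] at hA
  rw [← hBe] at hB
  have hC : 0 < Real.sqrt (A * B) := Real.sqrt_pos.2 (mul_pos hA hB)
  obtain ⟨C, hCe⟩ : ∃ C, C = Real.sqrt (A * B) := ⟨_, rfl⟩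
  have hC2 : C ^ 2 = A * B := by rw [hCe, Real.sq_sqrt (mul_pos hA hB).le]
  rw [← hCe] at hC
  have hfT : ∀ x, f x ≠ ⊤ := fun x => ne_top_of_le_ne_top haT (hfa x)
  have hgT : ∀ x, g x ≠ ⊤ := fun x => ne_top_of_le_ne_top hbT (hgb x)
  obtain ⟨k, hk⟩ : ∃ k : ℝ → ℝ≥0∞, k = fun x => min (h x) M := ⟨_, rfl⟩
  have hkm : Measurable k := by rw [hk]; exact hh.min measurable_const
  have hkT : ∀ x, k x ≠ ⊤ := fun x => by
    rw [hk]
    exact ne_top_of_le_ne_top ENNReal.coe_ne_top (min_le_right _ _)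
  have Hk : ∀ x y, f x * g y ≤ k ((x + y) / 2) ^ 2 := by
    intro x y
    rw [hk]
    rcases le_total (h ((x + y) / 2)) M with h1 | h1
    · simp only [min_eq_left h1]
      exact H x y
    · simp only [min_eq_right h1]
      rw [sq]
      exact mul_le_mul' (hfM x) (hgM y)
  have core := PL1Aux.core (fun x => (f x).toReal / A) (fun x => (g x).toReal / B)
    (fun x => (k x).toReal / C) (hf.ennreal_toReal.div_const _) (hg.ennreal_toReal.div_const _)
    (hkm.ennreal_toReal.div_const _)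
    (fun x => div_nonneg ENNReal.toReal_nonneg hA.le)
    (fun x => div_nonneg ENNReal.toReal_nonneg hB.le)
    (fun x => div_nonneg ENNReal.toReal_nonneg hC.le)
    (fun x => by rw [div_le_one hA, hAe]; exact ENNReal.toReal_mono haT (hfa x))
    (fun x => by rw [div_le_one hB, hBe]; exact ENNReal.toReal_mono hbT (hgb x))
    (fun t ht ht1 => by
      have h1 : ENNReal.ofReal (t * A) < ⨆ x, f x := by
        rw [← ha, ENNReal.ofReal_lt_iff_lt_toReal (mul_pos ht hA).le haT, ← hAe]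
        nlinarith
      obtain ⟨x, hx⟩ := lt_iSup_iff.1 h1
      refine ⟨x, ?_⟩
      rw [ENNReal.ofReal_lt_iff_lt_toReal (mul_pos ht hA).le (hfT x)] at hx
      rwa [lt_div_iff₀ hA])
    (fun t ht ht1 => by
      have h1 : ENNReal.ofReal (t * B) < ⨆ x, g x := by
        rw [← hb, ENNReal.ofReal_lt_iff_lt_toReal (mul_pos ht hB).le hbT, ← hBe]
        nlinarith
      obtain ⟨x, hx⟩ := lt_iSup_iff.1 h1
      refine ⟨x, ?_⟩
      rw [ENNReal.ofReal_lt_iff_lt_toReal (mul_pos ht hB).le (hgT x)] at hx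
      rwa [lt_div_iff₀ hB])
    (fun x y => by
      have h1 := ENNReal.toReal_mono (ENNReal.pow_ne_top (hkT _)) (Hk x y)
      rw [ENNReal.toReal_mul, ENNReal.toReal_pow] at h1
      rw [div_pow, hC2, div_mul_div_comm]
      exact div_le_div_of_nonneg_right h1 (mul_pos hA hB).le)
  have conv : ∀ (u : ℝ → ℝ≥0∞) (D : ℝ), 0 < D → Measurable u → (∀ x, u x ≠ ⊤) →
      ∫⁻ x, u x = ENNReal.ofReal D * ∫⁻ x, ENNReal.ofReal ((u x).toReal / D) := by
    intro u D hD hu huT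
    rw [← lintegral_const_mul _ (hu.ennreal_toReal.div_const _).ennreal_ofReal]
    refine lintegral_congr fun x => ?_
    rw [← ENNReal.ofReal_mul hD.le, mul_div_cancel₀ _ hD.ne', ENNReal.ofReal_toReal (huT x)]
  calc (∫⁻ x, f x) * (∫⁻ x, g x)
      = (ENNReal.ofReal A * ENNReal.ofReal B) * ((∫⁻ x, ENNReal.ofReal ((f x).toReal / A)) *
        ∫⁻ x, ENNReal.ofReal ((g x).toReal / B)) := by
        rw [conv f A hA hf hfT, conv g B hB hg hgT]
        ring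
    _ ≤ (ENNReal.ofReal A * ENNReal.ofReal B) *
        (∫⁻ x, ENNReal.ofReal ((k x).toReal / C)) ^ 2 := by gcongr
    _ = (∫⁻ x, k x) ^ 2 := by
        rw [conv k C hC hkm hkT, mul_pow, ← ENNReal.ofReal_mul hA.le, ← hC2,
          ENNReal.ofReal_pow hC.le]
    _ ≤ (∫⁻ x, h x) ^ 2 := by
        refine pow_le_pow_left' (lintegral_mono fun x => ?_) 2
        rw [hk]
        exact min_le_left _ _

end VR29

end
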