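import Pool.Agent.Lib.VR29.Defs

/-!
# PolBody: the polar of a symmetric body is a symmetric body
-/

set_option autoImplicit false

open MeasureTheory Set

open scoped ENNReal NNReal

noncomputable section

namespace VR29

private theorem dotp_comb {n : ℕ} (x y z : Fin n → ℝ) (a b : ℝ) :
    dotp x (a • y + b • z) = a * dotp x y + b * dotp x z := by
  unfold dotp
  rw [Finset.mul_sum, Finset.mul_sum, ← Finset.sum_add_distrib]
  refine Finset.sum_congr rfl fun i _ => ?_
  simp only [Pi.add_apply, Pi.smul_apply, smul_eq_mul]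
  ring

private theorem dotp_neg_swap {n : ℕ} (x y : Fin n → ℝ) : dotp x (-y) = dotp (-x) y := by
  unfold dotp
  refine Finset.sum_congr rfl fun i _ => ?_
  simp

private theorem dotp_single {n : ℕ} (i : Fin n) (s : ℝ) (y : Fin n → ℝ) :
    dotp (Pi.single i s) y = s * y i := by
  unfold dotp
  rw [Finset.sum_eq_single i]
  · simp
  · intro j _ hj
    simp [Pi.single_eq_of_ne hj]
  · intro h
    exact absurd (Finset.mem_univ i) h

theorem pol_body {n : ℕ} (K : Set (Fin n → ℝ)) (hK : SymBody K) : SymBody (pol K) := by
  obtain ⟨r, hr, hrK⟩ := Metric.nhds_basis_closedBall.mem_iff.mp hK.nhd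
  obtain ⟨M, hM⟩ := hK.comp.isBounded.exists_norm_le
  have hM0 : 0 ≤ M := (norm_nonneg _).trans (hM 0 (mem_of_mem_nhds hK.nhd))
  refine ⟨?_, ?_, ?_, ?_⟩
  · intro y hy z hz a b ha hb hab x hx
    rw [dotp_comb]
    have h1 := hy x hx
    have h2 := hz x hx
    nlinarith
  · refine Metric.isCompact_of_isClosed_isBounded ?_ ?_
    · have h : pol K = ⋂ x ∈ K, {y | dotp x y ≤ 1} := by
        ext y; simp [pol]
      rw [h]
      refine isClosed_biInter fun x _ => ?_
      exact isClosed_le (by unfold dotp; fun_prop) continuous_const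
    · refine (Metric.isBounded_closedBall (x := (0 : Fin n → ℝ)) (r := 1 / r)).subset ?_
      intro y hy
      rw [mem_closedBall_zero_iff, pi_norm_le_iff_of_nonneg (by positivity)]
      intro i
      have hb : ∀ s : ℝ, |s| ≤ r → s * y i ≤ 1 := by
        intro s hs
        have hmem : (Pi.single i s : Fin n → ℝ) ∈ K := by
          apply hrK
          rw [mem_closedBall_zero_iff, pi_norm_le_iff_of_nonneg hr.le]
          intro j
          rcases eq_or_ne j i with h | h
          · subst h; simpa using hs
          · rw [Pi.single_eq_of_ne h]; simpa using hr.le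
        have := hy _ hmem
        rwa [dotp_single] at this
      have h1 := hb r (by rw [abs_of_pos hr])
      have h2 := hb (-r) (by rw [abs_neg, abs_of_pos hr])
      rw [Real.norm_eq_abs, abs_le, le_div_iff₀ hr]
      constructor
      · rw [← neg_div, div_le_iff₀ hr]; linarith
      · linarith
  · intro y hy x hx
    rw [dotp_neg_swap]
    exact hy _ (hK.symm x hx)
  · have hpos : 0 < 1 / (n * M + 1) := by positivity
    refine Filter.mem_of_superset (Metric.closedBall_mem_nhds (0 : Fin n → ℝ) hpos) ?_
    intro y hy x hx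
    rw [mem_closedBall_zero_iff] at hy
    have hxM := hM x hx
    have h1 : dotp x y ≤ ∑ _i : Fin n, M * ‖y‖ := by
      refine Finset.sum_le_sum fun i _ => ?_
      have h2 : |x i| ≤ M := (norm_le_pi_norm x i).trans hxM
      have h3 : |y i| ≤ ‖y‖ := norm_le_pi_norm y i
      calc x i * y i ≤ |x i * y i| := le_abs_self _
        _ = |x i| * |y i| := abs_mul _ _
        _ ≤ M * ‖y‖ := by gcongr
    rw [Finset.sum_const, Finset.card_univ, Fintype.card_fin, nsmul_eq_mul] at h1
    have h4 : (n : ℝ) * M * ‖y‖ ≤ n * M * (1 / (n * M + 1)) := by gcongr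
    have h5 : (n : ℝ) * M * (1 / (n * M + 1)) ≤ 1 := by
      rw [mul_one_div, div_le_one (by positivity)]
      linarith
    linarith

end VR29

end
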