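import Pool.Agent.Lib.VR29.Santalo

/-!
# SantV: Blaschke-Santalo in a Euclidean space

PROOF. Let `b` be an orthonormal basis (`stdOrthonormalBasis ℝ V` reindexed to `Fin k`, `k = finrank`), `cs L = {x : Fin k → ℝ | ∑ i, x i • b i ∈ L}`.
`volume (cs L) = volume L` for measurable `L` (`b.measurePreserving_repr_symm`, `PiLp.volume_preserving_toLp`/`ofLp`; compare `cube_volume` in
Pool/Agent/Results/MP_29a76b_gt/LowRankImages.lean). `cs K` is a `SymBody` (linear homeomorphism), `cs (PV K) = pol (cs K)` because
`inner (∑ x i • b i) (∑ y i • b i) = dotp x y` and by symmetry of `K` the absolute value can be dropped; `cs (closedBall 0 1) = eball k`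
(`‖∑ x i • b i‖^2 = ∑ x i ^2`). Apply `santalo`.
-/

set_option autoImplicit false

open MeasureTheory Set

open scoped ENNReal NNReal

noncomputable section

namespace VR29

variable {V : Type*} [NormedAddCommGroup V] [InnerProductSpace ℝ V] [FiniteDimensional ℝ V]
  [MeasurableSpace V] [BorelSpace V]

namespace SantVAux

/-- The coordinate map of an orthonormal basis. -/
def co {k : ℕ} (b : OrthonormalBasis (Fin k) ℝ V) (x : V) : Fin k → ℝ := WithLp.ofLp (b.repr x)

/-- The synthesis map of an orthonormal basis. -/
def sy {k : ℕ} (b : OrthonormalBasis (Fin k) ℝ V) (x : Fin k → ℝ) : V := b.repr.symm (WithLp.toLp 2 x)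

omit [FiniteDimensional ℝ V] [MeasurableSpace V] [BorelSpace V] in
lemma sy_co {k : ℕ} (b : OrthonormalBasis (Fin k) ℝ V) (x : V) : sy b (co b x) = x := by
  simp [sy, co]

omit [FiniteDimensional ℝ V] [MeasurableSpace V] [BorelSpace V] in
lemma co_sy {k : ℕ} (b : OrthonormalBasis (Fin k) ℝ V) (x : Fin k → ℝ) : co b (sy b x) = x := by
  simp [sy, co]

omit [FiniteDimensional ℝ V] [MeasurableSpace V] [BorelSpace V] in
lemma inner_sy {k : ℕ} (b : OrthonormalBasis (Fin k) ℝ V) (x y : Fin k → ℝ) :
    inner ℝ (sy b x) (sy b y) = dotp x y := by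
  rw [sy, sy, LinearIsometryEquiv.inner_map_map, PiLp.inner_apply, dotp]
  apply Finset.sum_congr rfl
  intro i _
  simp [mul_comm]

omit [FiniteDimensional ℝ V] [MeasurableSpace V] [BorelSpace V] in
lemma cont_sy {k : ℕ} (b : OrthonormalBasis (Fin k) ℝ V) : Continuous (sy b) := by
  unfold sy
  exact b.repr.symm.continuous.comp (PiLp.continuous_toLp 2 _)

omit [FiniteDimensional ℝ V] [MeasurableSpace V] [BorelSpace V] in
lemma cont_co {k : ℕ} (b : OrthonormalBasis (Fin k) ℝ V) : Continuous (co b) := by
  unfold co
  exact (PiLp.continuous_ofLp 2 _).comp b.repr.continuous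

omit [FiniteDimensional ℝ V] [MeasurableSpace V] [BorelSpace V] in
lemma preim {k : ℕ} (b : OrthonormalBasis (Fin k) ℝ V) (L : Set V) : co b '' L = sy b ⁻¹' L := by
  ext x
  constructor
  · rintro ⟨y, hy, rfl⟩
    change sy b (co b y) ∈ L
    rw [sy_co]; exact hy
  · intro hx
    exact ⟨sy b x, hx, co_sy b x⟩

lemma vol {k : ℕ} (b : OrthonormalBasis (Fin k) ℝ V) (L : Set V) (hL : MeasurableSet L) :
    volume (sy b ⁻¹' L) = volume L := by
  have h1 : sy b ⁻¹' L = (WithLp.toLp 2) ⁻¹' (b.repr.symm ⁻¹' L) := rfl
  rw [h1, (PiLp.volume_preserving_toLp (Fin k)).measure_preimage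
    (hL.preimage (b.repr.symm.continuous.measurable)).nullMeasurableSet,
    (b.measurePreserving_repr_symm).measure_preimage hL.nullMeasurableSet]

end SantVAux

open SantVAux

theorem santaloV (K : Set V) (hK : SBody K) :
    volume K * volume (PV K) ≤ (volume (Metric.closedBall (0 : V) 1)) ^ 2 := by
  set b := stdOrthonormalBasis ℝ V
  have hPVc : IsClosed (PV K) := by
    have : PV K = ⋂ y ∈ K, {v : V | |inner ℝ v y| ≤ 1} := by
      ext v; simp [PV]
    rw [this]
    apply isClosed_biInter
    intro y _
    exact isClosed_le (continuous_abs.comp (Continuous.inner continuous_id continuous_const))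
      continuous_const
  have hbody : SymBody (sy b ⁻¹' K) := by
    constructor
    · intro x hx y hy a c ha hc hac
      change sy b (a • x + c • y) ∈ K
      have h1 : sy b (a • x + c • y) = a • sy b x + c • sy b y := by
        simp [sy]
      rw [h1]
      exact hK.conv hx hy ha hc hac
    · rw [← preim]
      exact hK.comp.image (cont_co b)
    · intro x hx
      change sy b (-x) ∈ K
      have h1 : sy b (-x) = -sy b x := by simp [sy]
      rw [h1]
      exact hK.symm _ hx
    · have h0 : sy b 0 = 0 := by simp [sy]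
      have := (cont_sy b).continuousAt (x := 0)
      apply this.preimage_mem_nhds
      rw [h0]
      exact hK.nhd
  have hpol : pol (sy b ⁻¹' K) = sy b ⁻¹' (PV K) := by
    ext y
    constructor
    · intro hy z hz
      have h1 : ∀ z ∈ K, inner ℝ (sy b y) z ≤ 1 := by
        intro z hz
        have h2 := hy (co b z) (by change sy b (co b z) ∈ K; rw [sy_co]; exact hz)
        rw [← inner_sy b, sy_co, real_inner_comm] at h2
        exact h2
      have h2 := h1 z hz
      have h3 := h1 (-z) (hK.symm z hz)
      rw [inner_neg_right] at h3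
      exact abs_le.mpr ⟨by linarith, h2⟩
    · intro hy x hx
      have h1 := hy (sy b x) hx
      rw [inner_sy, ] at h1
      have h2 : dotp y x = dotp x y := by
        unfold dotp
        exact Finset.sum_congr rfl (fun i _ => mul_comm _ _)
      rw [← h2]
      exact (le_abs_self _).trans h1
  have hball : sy b ⁻¹' (Metric.closedBall (0 : V) 1) = eball _ := by
    ext x
    rw [Set.mem_preimage, mem_closedBall_zero_iff]
    have h1 : ‖sy b x‖ ^ 2 = ∑ i, x i ^ 2 := by
      rw [← real_inner_self_eq_norm_sq, inner_sy, dotp]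
      exact Finset.sum_congr rfl (fun i _ => by ring)
    constructor
    · intro h
      change ∑ i, x i ^ 2 ≤ 1
      rw [← h1]
      exact pow_le_one₀ (norm_nonneg _) h
    · intro h
      have h' : ∑ i, x i ^ 2 ≤ 1 := h
      rw [← h1] at h'
      exact (sq_le_one_iff₀ (norm_nonneg _)).mp h'
  have h := santalo _ (sy b ⁻¹' K) hbody
  rw [hpol, ← hball, vol b K hK.comp.measurableSet, vol b (PV K) hPVc.measurableSet,
    vol b _ measurableSet_closedBall] at h
  exact h

end VR29

end
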