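import Pool.Agent.Lib.VR29.SteinBody
import Pool.Agent.Lib.VR29.BMn
import Pool.Agent.Lib.VR29.PolBody

/-!
# SteinPol: Steiner symmetrisation does not decrease the volume of the polar (Meyer-Pajor)

PROOF. `vol_slice i` for `pol K` and `pol (stein i K)` (both bodies, so compact and measurable). For `t : ℝ` let `A = {y | ins i t y ∈ pol K}`,
`B = {y | ins i (-t) y ∈ pol K}`, `C = {y | ins i t y ∈ pol (stein i K)}`. If `y ∈ A`, `y' ∈ B` and `z = ins i ((s-s')/2) x ∈ stein i K` with `ins i s x, ins i s' x ∈ K`, then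
`dotp z (ins i t ((y+y')/2)) = (1/2) (dotp (ins i s x) (ins i t y) + dotp (ins i s' x) (ins i (-t) y')) ≤ 1` (dotp_ins), so `(y+y')/2 ∈ C`.
`volume B = volume A` (`y ↦ -y`, symmetry of `pol K`, ins_neg; `Measure.measure_neg` or `measure_preimage_neg`). `bmn` gives `volume A * volume A ≤ volume C ^2`, so `volume A ≤ volume C`
(all slices are measurable and bounded). Integrate over `t` (`lintegral_mono`).
-/

set_option autoImplicit false

open MeasureTheory Set

open scoped ENNReal NNReal

noncomputable section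

namespace VR29

namespace SteinPolAux

theorem bdd_slice {n : ℕ} (i : Fin (n + 1)) (A : Set (Fin (n + 1) → ℝ))
    (hA : Bornology.IsBounded A) (t : ℝ) :
    Bornology.IsBounded {x : Fin n → ℝ | ins i t x ∈ A} := by
  obtain ⟨r, hr⟩ := isBounded_iff_forall_norm_le.1 hA
  rw [isBounded_iff_forall_norm_le]
  refine ⟨r, fun x hx => ?_⟩
  have h1 := hr _ hx
  have hr0 : 0 ≤ r := (norm_nonneg _).trans h1
  rw [pi_norm_le_iff_of_nonneg hr0]
  intro j
  have h2 := (norm_le_pi_norm (ins i t x) (i.succAbove j)).trans h1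
  simpa using h2

theorem sq_lt {a b : ℝ≥0∞} (h : a < b) : a ^ 2 < b ^ 2 := by
  exact ENNReal.pow_lt_pow_left two_ne_zero h

end SteinPolAux

theorem stein_pol {n : ℕ} (i : Fin (n + 1)) (K : Set (Fin (n + 1) → ℝ)) (hK : SymBody K) :
    volume (pol K) ≤ volume (pol (stein i K)) := by
  have hp := pol_body K hK
  have hs := pol_body (stein i K) (stein_body i K hK)
  rw [vol_slice i _ hp.comp.measurableSet, vol_slice i _ hs.comp.measurableSet]
  apply lintegral_mono
  intro t
  have hAm := measurableSet_slice i _ hp.comp.measurableSet t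
  have hBm := measurableSet_slice i _ hp.comp.measurableSet (-t)
  have hCm := measurableSet_slice i _ hs.comp.measurableSet t
  have hbd := SteinPolAux.bdd_slice i (pol K) hp.comp.isBounded
  have hmid : ∀ a ∈ {x : Fin n → ℝ | ins i t x ∈ pol K},
      ∀ b ∈ {x : Fin n → ℝ | ins i (-t) x ∈ pol K},
      (fun j => (a j + b j) / 2) ∈ {x : Fin n → ℝ | ins i t x ∈ pol (stein i K)} := by
    intro a ha b hb
    show ins i t _ ∈ pol (stein i K)
    rintro z ⟨s, s', x, h1, h2, rfl⟩
    have hA1 : dotp (ins i s x) (ins i t a) ≤ 1 := ha _ h1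
    have hB1 : dotp (ins i s' x) (ins i (-t) b) ≤ 1 := hb _ h2
    rw [dotp_ins] at hA1 hB1 ⊢
    have e : dotp x (fun j => (a j + b j) / 2) = (dotp x a + dotp x b) / 2 := by
      unfold dotp
      rw [← Finset.sum_add_distrib, Finset.sum_div]
      apply Finset.sum_congr rfl
      intro j _
      ring
    rw [e]
    linarith
  have h := bmn n _ _ _ hAm hBm hCm (hbd t) (hbd (-t)) hmid
  have hB : volume {x : Fin n → ℝ | ins i (-t) x ∈ pol K}
      = volume {x : Fin n → ℝ | ins i t x ∈ pol K} := by
    have h1 := (Measure.measurePreserving_neg (volume : Measure (Fin n → ℝ))).measure_preimage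
      hAm.nullMeasurableSet
    rw [← h1]
    congr 1
    ext y
    show ins i (-t) y ∈ pol K ↔ ins i t (-y) ∈ pol K
    have e1 : ins i t (-y) = -ins i (-t) y := by rw [ins_neg, neg_neg]
    rw [e1]
    constructor
    · intro hy
      exact hp.symm _ hy
    · intro hy
      have := hp.symm _ hy
      rwa [neg_neg] at this
  rw [hB, ← sq] at h
  by_contra hcon
  exact absurd h (not_le.2 (SteinPolAux.sq_lt (not_le.1 hcon)))

end VR29

end
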