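import Pool.Agent.Lib.VR29.Defs

/-!
# UncVol: volume of an unconditional set

PROOF. For a finset `S` of coordinates let `P_S = {x | ∀ i ∈ S, 0 < x i}`. Show `volume K = 2^(card S) * volume (K ∩ P_S)` by
`Finset.induction`: `K ∩ P_S` is the disjoint union of the parts with `0 < x i`, `x i < 0`, `x i = 0` (`i ∉ S`). The last is null
(hyperplane; e.g. `Measure.pi_hyperplane` / `volume_pi`, or `vol` of `{x | x i = 0}` is 0). `refl i` is a measure preserving involution
(`refl i` is `MeasurableEquiv.piCongr..`-like: e.g. `volume_preserving_pi` with `x ↦ -x` in coordinate `i`, or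
`Real.map_linearMap_volume_pi_eq_smul_volume_pi` with determinant -1) which maps the part `x i < 0` onto the part `0 < x i`
(invariance of `K` and `P_S`, `refl_refl`). Finally `S = univ`.
-/

set_option autoImplicit false

open MeasureTheory Set

open scoped ENNReal NNReal

noncomputable section

namespace VR29

namespace UncVolAux

theorem mp_refl {n : ℕ} (i : Fin n) : MeasurePreserving (refl i : (Fin n → ℝ) → (Fin n → ℝ)) := by
  have h := volume_preserving_pi (ι := Fin n) (α' := fun _ => ℝ) (β' := fun _ => ℝ)
    (f := fun j => if j = i then (fun t : ℝ => -t) else (fun t : ℝ => t)) (by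
      intro j
      by_cases hj : j = i
      · simp only [hj, if_true]
        exact Measure.measurePreserving_neg volume
      · simp only [hj, if_false]
        exact MeasurePreserving.id volume)
  have he : (refl i : (Fin n → ℝ) → (Fin n → ℝ)) =
      fun (a : Fin n → ℝ) (j : Fin n) => (if j = i then (fun t : ℝ => -t) else (fun t : ℝ => t)) (a j) := by
    funext a j
    by_cases hj : j = i
    · subst hj
      simp [refl_apply_same]
    · simp [refl_apply_ne hj, hj]
  rw [he]
  exact h

theorem main (n : ℕ) (K : Set (Fin n → ℝ)) (hK : MeasurableSet K)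
    (h : ∀ i, ∀ x ∈ K, refl i x ∈ K) (S : Finset (Fin n)) :
    volume K = 2 ^ S.card * volume (K ∩ {x | ∀ i ∈ S, 0 < x i}) := by
  classical
  induction S using Finset.induction_on with
  | empty => simp
  | insert i S hi ih =>
    have hP : MeasurableSet {x : Fin n → ℝ | ∀ j ∈ S, 0 < x j} := by
      have : {x : Fin n → ℝ | ∀ j ∈ S, 0 < x j} = ⋂ j ∈ S, {x | 0 < x j} := by
        ext x; simp
      rw [this]
      exact Finset.measurableSet_biInter _ (fun j _ => measurableSet_lt measurable_const (measurable_pi_apply j))
    have hA : MeasurableSet (K ∩ {x : Fin n → ℝ | ∀ j ∈ S, 0 < x j}) := hK.inter hP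
    have hpos : MeasurableSet {x : Fin n → ℝ | 0 < x i} :=
      measurableSet_lt measurable_const (measurable_pi_apply i)
    have hneg : MeasurableSet {x : Fin n → ℝ | x i < 0} :=
      measurableSet_lt (measurable_pi_apply i) measurable_const
    set A := K ∩ {x : Fin n → ℝ | ∀ j ∈ S, 0 < x j} with hAdef
    have hset : (K ∩ {x : Fin n → ℝ | ∀ j ∈ insert i S, 0 < x j}) = A ∩ {x | 0 < x i} := by
      ext x
      simp only [hAdef, Finset.mem_insert, forall_eq_or_imp, mem_inter_iff, mem_ofPred_eq]
      tauto
    have hzero : volume {x : Fin n → ℝ | x i = 0} = 0 := by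
      have := Measure.pi_hyperplane (fun _ : Fin n => (volume : Measure ℝ)) i 0
      rw [volume_pi]
      exact this
    have hrefl : volume (A ∩ {x | x i < 0}) = volume (A ∩ {x | 0 < x i}) := by
      have hpre : (refl i) ⁻¹' (A ∩ {x | 0 < x i}) = A ∩ {x | x i < 0} := by
        ext x
        simp only [mem_preimage, mem_inter_iff, mem_ofPred_eq, refl_apply_same, hAdef]
        constructor
        · rintro ⟨⟨h1, h2⟩, h3⟩
          refine ⟨⟨?_, ?_⟩, by linarith⟩
          · have := h i _ h1
            rwa [refl_refl] at this
          · intro j hj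
            have hji : j ≠ i := fun e => hi (e ▸ hj)
            have := h2 j hj
            rwa [refl_apply_ne hji] at this
        · rintro ⟨⟨h1, h2⟩, h3⟩
          refine ⟨⟨h i _ h1, ?_⟩, by linarith⟩
          intro j hj
          have hji : j ≠ i := fun e => hi (e ▸ hj)
          rw [refl_apply_ne hji]
          exact h2 j hj
      rw [← hpre]
      exact (mp_refl i).measure_preimage (hA.inter hpos).nullMeasurableSet
    have hsplit : volume A = 2 * volume (A ∩ {x | 0 < x i}) := by
      have h1 : volume A = volume (A ∩ {x | 0 < x i}) + volume (A \ {x | 0 < x i}) :=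
        (measure_inter_add_sdiff A hpos).symm
      have h2 : volume (A \ {x | 0 < x i}) = volume (A ∩ {x | x i < 0}) := by
        apply le_antisymm
        · have hsub : A \ {x | 0 < x i} ⊆ (A ∩ {x | x i < 0}) ∪ {x | x i = 0} := by
            rintro x ⟨hx1, hx2⟩
            simp only [mem_ofPred_eq, not_lt] at hx2
            rcases lt_or_eq_of_le hx2 with h3 | h3
            · exact Or.inl ⟨hx1, h3⟩
            · exact Or.inr h3
          calc volume (A \ {x | 0 < x i}) ≤ volume ((A ∩ {x | x i < 0}) ∪ {x | x i = 0}) :=
                measure_mono hsub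
            _ ≤ volume (A ∩ {x | x i < 0}) + volume {x : Fin n → ℝ | x i = 0} := measure_union_le _ _
            _ = volume (A ∩ {x | x i < 0}) := by rw [hzero, add_zero]
        · apply measure_mono
          rintro x ⟨hx1, hx2⟩
          exact ⟨hx1, by simp only [mem_ofPred_eq, not_lt]; exact le_of_lt hx2⟩
      rw [h1, h2, hrefl, two_mul]
    rw [ih, hset, Finset.card_insert_of_notMem hi, pow_succ, hsplit, mul_assoc]

end UncVolAux

theorem uncond_vol (n : ℕ) (K : Set (Fin n → ℝ)) (hK : MeasurableSet K)
    (h : ∀ i, ∀ x ∈ K, refl i x ∈ K) :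
    volume K = 2 ^ n * volume (K ∩ {x | ∀ i, 0 < x i}) := by
  have := UncVolAux.main n K hK h Finset.univ
  simpa using this

end VR29

end
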