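import Pool.Agent.Lib.VR29.Orth
import Pool.Agent.Lib.VR29.UncVol
import Pool.Agent.Lib.VR29.PolBody

/-!
# UncSant: Blaschke-Santalo for unconditional bodies

PROOF. Let `P = {x | ∀ i, 0 < x i}`, `A = K ∩ P`, `B = pol K ∩ P`, `C = eball n ∩ P`. If `a ∈ A`, `b ∈ B` and `c i = √(a i b i)` then `∑ c i ^2 = dotp a b ≤ 1`.
So `orth` gives `volume A * volume B ≤ volume C ^ 2`. `pol K` is invariant under `refl i` (`dotp x (refl i y) = dotp (refl i x) y`), `eball n` too.
By `uncond_vol` three times the claim is this inequality multiplied by `2^n * 2^n`. (Measurability: compact sets are closed; `measurableSet_eball`; `P` is open.)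
-/

set_option autoImplicit false

open MeasureTheory Set

open scoped ENNReal NNReal

noncomputable section

namespace VR29

namespace UncSantAux

theorem dotp_refl {n : ℕ} (i : Fin n) (x y : Fin n → ℝ) :
    dotp x (refl i y) = dotp (refl i x) y := by
  unfold dotp
  refine Finset.sum_congr rfl fun j _ => ?_
  rcases eq_or_ne j i with h | h
  · subst h
    rw [refl_apply_same, refl_apply_same]
    ring
  · rw [refl_apply_ne h, refl_apply_ne h]

theorem eball_refl {n : ℕ} (i : Fin n) (x : Fin n → ℝ) (hx : x ∈ eball n) :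
    refl i x ∈ eball n := by
  unfold eball at hx ⊢
  rw [mem_setOf_eq] at hx ⊢
  refine le_of_eq_of_le (Finset.sum_congr rfl fun j _ => ?_) hx
  rcases eq_or_ne j i with h | h
  · subst h
    rw [refl_apply_same]
    ring
  · rw [refl_apply_ne h]

theorem meas_pos (n : ℕ) : MeasurableSet {x : Fin n → ℝ | ∀ i, 0 < x i} := by
  rw [setOf_forall]
  exact MeasurableSet.iInter fun i => measurableSet_lt measurable_const (measurable_pi_apply i)

end UncSantAux

open UncSantAux in
theorem unc_santalo (n : ℕ) (K : Set (Fin n → ℝ)) (hK : SymBody K)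
    (h : ∀ i, ∀ x ∈ K, refl i x ∈ K) :
    volume K * volume (pol K) ≤ (volume (eball n)) ^ 2 := by
  have hP := pol_body K hK
  have hKm := hK.comp.isClosed.measurableSet
  have hPm := hP.comp.isClosed.measurableSet
  have hPr : ∀ i, ∀ y ∈ pol K, refl i y ∈ pol K := by
    intro i y hy x hx
    rw [dotp_refl]
    exact hy _ (h i x hx)
  rw [uncond_vol n K hKm h, uncond_vol n (pol K) hPm hPr,
    uncond_vol n (eball n) (measurableSet_eball n) (fun i x hx => eball_refl i x hx)]
  have key := orth n (K ∩ {x | ∀ i, 0 < x i}) (pol K ∩ {x | ∀ i, 0 < x i})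
    (eball n ∩ {x | ∀ i, 0 < x i}) (hKm.inter (meas_pos n)) (hPm.inter (meas_pos n))
    ((measurableSet_eball n).inter (meas_pos n)) (hK.comp.isBounded.subset inter_subset_left)
    (hP.comp.isBounded.subset inter_subset_left) (fun a ha => ha.2) (fun b hb => hb.2) ?_
  · calc 2 ^ n * volume (K ∩ {x | ∀ i, 0 < x i}) * (2 ^ n * volume (pol K ∩ {x | ∀ i, 0 < x i}))
        = (2 ^ n) ^ 2 * (volume (K ∩ {x | ∀ i, 0 < x i}) *
          volume (pol K ∩ {x | ∀ i, 0 < x i})) := by ring
      _ ≤ (2 ^ n) ^ 2 * (volume (eball n ∩ {x | ∀ i, 0 < x i})) ^ 2 := by gcongr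
      _ = (2 ^ n * volume (eball n ∩ {x | ∀ i, 0 < x i})) ^ 2 := by ring
  · rintro a ⟨ha, ha0⟩ b ⟨hb, hb0⟩
    refine ⟨?_, fun i => Real.sqrt_pos.2 (mul_pos (ha0 i) (hb0 i))⟩
    unfold eball
    rw [mem_setOf_eq]
    have h1 : ∑ i, Real.sqrt (a i * b i) ^ 2 = dotp a b := by
      unfold dotp
      exact Finset.sum_congr rfl fun i _ => Real.sq_sqrt (mul_pos (ha0 i) (hb0 i)).le
    rw [h1]
    exact hb a ha

end VR29

end
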