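import Pool.Agent.Lib.VR29.SteinVol
import Pool.Agent.Lib.VR29.SteinPol
import Pool.Agent.Lib.VR29.UncSant

/-!
# Santalo: the Blaschke-Santalo inequality for symmetric bodies

PROOF. `n = 0`: `unc_santalo 0` (no coordinates). `n + 1`: for a finset `S` of coordinates there is a symmetric body `K'` invariant under `refl i` for `i ∈ S`, with
`volume K' = volume K` and `volume (pol K) ≤ volume (pol K')` (`Finset.induction`, `K'' = stein i K'`, `stein_body`, `stein_refl_self`, `stein_refl`, `stein_vol`, `stein_pol`).
With `S = univ` use `unc_santalo`.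
-/

set_option autoImplicit false

open MeasureTheory Set

open scoped ENNReal NNReal

noncomputable section

namespace VR29

private theorem santalo_sym (n : ℕ) (K : Set (Fin (n + 1) → ℝ)) (hK : SymBody K)
    (S : Finset (Fin (n + 1))) :
    ∃ K' : Set (Fin (n + 1) → ℝ), SymBody K' ∧ (∀ i ∈ S, ∀ x ∈ K', refl i x ∈ K') ∧
      volume K' = volume K ∧ volume (pol K) ≤ volume (pol K') := by
  classical
  induction S using Finset.induction_on with
  | empty => exact ⟨K, hK, by simp, rfl, le_rfl⟩
  | insert i S _ ih =>
    obtain ⟨K', hb, hr, hv, hp⟩ := ih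
    refine ⟨stein i K', stein_body i K' hb, ?_, (stein_vol i K' hb).trans hv,
      hp.trans (stein_pol i K' hb)⟩
    intro j hj
    rcases Finset.mem_insert.1 hj with h | h
    · subst h
      exact stein_refl_self j K'
    · exact stein_refl i j K' (hr j h)

theorem santalo (n : ℕ) (K : Set (Fin n → ℝ)) (hK : SymBody K) :
    volume K * volume (pol K) ≤ (volume (eball n)) ^ 2 := by
  rcases n with _ | n
  · exact unc_santalo 0 K hK (fun i => i.elim0)
  · obtain ⟨K', hb, hr, hv, hp⟩ := santalo_sym n K hK Finset.univ
    calc volume K * volume (pol K) ≤ volume K' * volume (pol K') := by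
          rw [hv]
          exact mul_le_mul_right hp _
      _ ≤ (volume (eball (n + 1))) ^ 2 :=
          unc_santalo (n + 1) K' hb (fun i => hr i (Finset.mem_univ i))

end VR29

end
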