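import Mathlib

/-!
# VR29.Spec: the definitions used in the statement of `MP_29a76b_gt.ExactOrder`
-/

set_option autoImplicit false

open MeasureTheory Set

noncomputable section

namespace VR29

/-- The closed solid ellipsoid with centre `c`: translate by `c` of the image of the closed unit ball
under the invertible linear map `T`. -/
def ellipsoid {V : Type*} [NormedAddCommGroup V] [InnerProductSpace ℝ V] (c : V) (T : V ≃ₗ[ℝ] V) :
    Set V := (fun x => c + T x) '' Metric.closedBall 0 1

/-- The nuclear norm: the sum of the singular values of `A`, seen as a linear map of the Euclidean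
space `ℝ^d`. -/
def nuclearNorm {d : ℕ} (A : Matrix (Fin d) (Fin d) ℝ) : ℝ :=
  ∑ i ∈ Finset.range d, (Matrix.toEuclideanLin A).singularValues i

/-- The unit ball of the nuclear norm. -/
def nuclearBall (d : ℕ) : Set (Matrix (Fin d) (Fin d) ℝ) := {A | nuclearNorm A ≤ 1}

/-- The set `K`, viewed in its linear span. -/
def onSpan {n : ℕ} (K : Set (EuclideanSpace ℝ (Fin n))) : Set (Submodule.span ℝ K) :=
  {x | (x : EuclideanSpace ℝ (Fin n)) ∈ K}

/-- The volume ratio of a subset `K` of a Euclidean space `V` of dimension `k`: the infimum over all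
ellipsoids `E ⊆ K` of the `k`-th root of `vol_k K / vol_k E`. -/
def volumeRatioIn {V : Type*} [NormedAddCommGroup V] [InnerProductSpace ℝ V]
    [FiniteDimensional ℝ V] [MeasurableSpace V] [BorelSpace V] (K : Set V) : ℝ :=
  sInf {r : ℝ | ∃ (c : V) (T : V ≃ₗ[ℝ] V), ellipsoid c T ⊆ K ∧
    r = (volume.real K / volume.real (ellipsoid c T)) ^ (1 / (Module.finrank ℝ V : ℝ))}

/-- The volume ratio of `K`, computed in the linear span of `K`. -/
def volumeRatio {n : ℕ} (K : Set (EuclideanSpace ℝ (Fin n))) : ℝ :=
  volumeRatioIn (onSpan K)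

/-- The volume ratio of the image of the unit ball of the nuclear norm under `M`. -/
def vrImage {d : ℕ} (M : Matrix (Fin d) (Fin d) ℝ →ₗ[ℝ] EuclideanSpace ℝ (Fin d)) : ℝ :=
  volumeRatio (M '' nuclearBall d)

end VR29

end
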