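import Pool.Agent.Lib.VR29.Defs

/-!
# SteinBody: elementary properties of the Steiner symmetral
-/

set_option autoImplicit false

open MeasureTheory Set

open scoped ENNReal NNReal

noncomputable section

namespace VR29

private def sbD {n : ℕ} (i : Fin (n + 1)) (K : Set (Fin (n + 1) → ℝ)) : Set (ℝ × ℝ × (Fin n → ℝ)) :=
  {p | ins i p.1 p.2.2 ∈ K ∧ ins i p.2.1 p.2.2 ∈ K}

private theorem stein_eq_image {n : ℕ} (i : Fin (n + 1)) (K : Set (Fin (n + 1) → ℝ)) :
    stein i K = (fun p : ℝ × ℝ × (Fin n → ℝ) => ins i ((p.1 - p.2.1) / 2) p.2.2) '' sbD i K := by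
  ext z
  constructor
  · rintro ⟨s, t, x, h1, h2, rfl⟩
    exact ⟨(s, t, x), ⟨h1, h2⟩, rfl⟩
  · rintro ⟨⟨s, t, x⟩, ⟨h1, h2⟩, rfl⟩
    exact ⟨s, t, x, h1, h2, rfl⟩

private theorem sbD_compact {n : ℕ} (i : Fin (n + 1)) (K : Set (Fin (n + 1) → ℝ))
    (hK : IsCompact K) : IsCompact (sbD i K) := by
  have hcl : IsClosed (sbD i K) := by
    have h1 : Continuous (fun p : ℝ × ℝ × (Fin n → ℝ) => ins i p.1 p.2.2) :=
      (continuous_ins i).comp (continuous_fst.prodMk (continuous_snd.comp continuous_snd))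
    have h2 : Continuous (fun p : ℝ × ℝ × (Fin n → ℝ) => ins i p.2.1 p.2.2) :=
      (continuous_ins i).comp ((continuous_fst.comp continuous_snd).prodMk
        (continuous_snd.comp continuous_snd))
    exact (hK.isClosed.preimage h1).inter (hK.isClosed.preimage h2)
  obtain ⟨R, hR⟩ := hK.isBounded.exists_norm_le
  have hsub : sbD i K ⊆ Metric.closedBall (0 : ℝ × ℝ × (Fin n → ℝ)) (max R 0) := by
    rintro ⟨s, t, x⟩ ⟨h1, h2⟩
    have e1 := hR _ h1
    have e2 := hR _ h2
    simp only at e1 e2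
    have hs : |s| ≤ R := by
      have := norm_le_pi_norm (ins i s x) i
      simp only [ins_same, Real.norm_eq_abs] at this
      exact this.trans e1
    have ht : |t| ≤ R := by
      have := norm_le_pi_norm (ins i t x) i
      simp only [ins_same, Real.norm_eq_abs] at this
      exact this.trans e2
    have hx : ‖x‖ ≤ max R 0 := by
      refine (pi_norm_le_iff_of_nonneg (le_max_right _ _)).2 (fun j => ?_)
      have := norm_le_pi_norm (ins i s x) (i.succAbove j)
      simp only [ins_succAbove] at this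
      exact (this.trans e1).trans (le_max_left _ _)
    rw [mem_closedBall_zero_iff, Prod.norm_def, Prod.norm_def]
    simp only [Real.norm_eq_abs]
    exact max_le (hs.trans (le_max_left _ _)) (max_le (ht.trans (le_max_left _ _)) hx)
  exact (isCompact_closedBall _ _).of_isClosed_subset hcl hsub

theorem stein_body {n : ℕ} (i : Fin (n + 1)) (K : Set (Fin (n + 1) → ℝ)) (hK : SymBody K) :
    SymBody (stein i K) := by
  refine ⟨?_, ?_, ?_, ?_⟩
  · rintro _ ⟨s, t, x, h1, h2, rfl⟩ _ ⟨s', t', x', h1', h2', rfl⟩ a b ha hb hab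
    refine ⟨a * s + b * s', a * t + b * t', a • x + b • x', ?_, ?_, ?_⟩
    · have := hK.conv h1 h1' ha hb hab
      rwa [ins_smul, ins_smul, ins_add] at this
    · have := hK.conv h2 h2' ha hb hab
      rwa [ins_smul, ins_smul, ins_add] at this
    · rw [ins_smul, ins_smul, ins_add]
      congr 1
      ring
  · rw [stein_eq_image]
    refine (sbD_compact i K hK.comp).image ?_
    have h1 : Continuous (fun p : ℝ × ℝ × (Fin n → ℝ) => (((p.1 - p.2.1) / 2, p.2.2) :
        ℝ × (Fin n → ℝ))) := by fun_prop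
    exact (continuous_ins i).comp h1
  · rintro _ ⟨s, t, x, h1, h2, rfl⟩
    refine ⟨-s, -t, -x, ?_, ?_, ?_⟩
    · rw [← ins_neg]; exact hK.symm _ h1
    · rw [← ins_neg]; exact hK.symm _ h2
    · rw [ins_neg]
      congr 1
      ring
  · obtain ⟨r, hr, hrK⟩ := Metric.mem_nhds_iff.1 hK.nhd
    refine Filter.mem_of_superset (Metric.ball_mem_nhds (0 : Fin (n + 1) → ℝ) hr) ?_
    intro z hz
    have hz' : ‖z‖ < r := by simpa using hz
    have hzj : ∀ j, ‖z j‖ < r := fun j => (norm_le_pi_norm z j).trans_lt hz'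
    refine ⟨z i, -(z i), fun j => z (i.succAbove j), ?_, ?_, ?_⟩
    · apply hrK
      rw [← ins_surj]
      exact hz
    · apply hrK
      rw [mem_ball_zero_iff, pi_norm_lt_iff hr]
      intro j
      rcases eq_or_ne j i with h | h
      · subst h; simpa using hzj j
      · obtain ⟨j', rfl⟩ := Fin.exists_succAbove_eq h
        simpa using hzj (i.succAbove j')
    · have : (z i - -(z i)) / 2 = z i := by ring
      rw [this]
      exact ins_surj i z

theorem stein_refl_self {n : ℕ} (i : Fin (n + 1)) (K : Set (Fin (n + 1) → ℝ)) :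
    ∀ x ∈ stein i K, refl i x ∈ stein i K := by
  rintro _ ⟨s, t, x, h1, h2, rfl⟩
  refine ⟨t, s, x, h2, h1, ?_⟩
  rw [refl_ins_same]
  congr 1
  ring

theorem stein_refl {n : ℕ} (i j : Fin (n + 1)) (K : Set (Fin (n + 1) → ℝ))
    (h : ∀ x ∈ K, refl j x ∈ K) : ∀ x ∈ stein i K, refl j x ∈ stein i K := by
  rcases eq_or_ne j i with hji | hji
  · subst hji
    exact stein_refl_self j K
  · obtain ⟨j', rfl⟩ := Fin.exists_succAbove_eq hji
    rintro _ ⟨s, t, x, h1, h2, rfl⟩
    refine ⟨s, t, refl j' x, ?_, ?_, ?_⟩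
    · have := h _ h1
      rwa [refl_ins_succAbove] at this
    · have := h _ h2
      rwa [refl_ins_succAbove] at this
    · rw [refl_ins_succAbove]

end VR29

end
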