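import Pool.Agent.Lib.VR29.SteinBody

/-!
# SteinVol: Steiner symmetrisation preserves volume

PROOF. `vol_line i` for both sets (compact, hence measurable; `stein_body`). Fix `x`; `I = {s | ins i s x ∈ K}` is convex and compact in `ℝ`;
`J = {s | ins i s x ∈ stein i K} = {(s-t)/2 : s, t ∈ I}` (ins_inj). If `I = ∅` both are empty. Otherwise `I = Icc α β` (convex compact subset of `ℝ`,
`α = sInf I`, `β = sSup I`) and `J = Icc (-(β-α)/2) ((β-α)/2)`; both have volume `ofReal (β - α)`.
-/

set_option autoImplicit false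

open MeasureTheory Set

open scoped ENNReal NNReal

noncomputable section

namespace VR29

theorem stein_vol {n : ℕ} (i : Fin (n + 1)) (K : Set (Fin (n + 1) → ℝ)) (hK : SymBody K) :
    volume (stein i K) = volume K := by
  have hS := stein_body i K hK
  rw [vol_line i _ hS.comp.measurableSet, vol_line i _ hK.comp.measurableSet]
  congr 1
  ext x
  have hcont : Continuous (fun s : ℝ => ins i s x) :=
    (continuous_ins i).comp (Continuous.prodMk_left x)
  have hclosed : IsClosed {s : ℝ | ins i s x ∈ K} := hK.comp.isClosed.preimage hcont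
  have hbdd : Bornology.IsBounded {s : ℝ | ins i s x ∈ K} := by
    obtain ⟨R, hR⟩ := hK.comp.isBounded.subset_closedBall (0 : Fin (n + 1) → ℝ)
    refine (Metric.isBounded_closedBall (x := (0 : ℝ)) (r := R)).subset ?_
    intro s hs
    have h1 := hR hs
    rw [mem_closedBall_zero_iff] at h1 ⊢
    have h2 := norm_le_pi_norm (ins i s x) i
    rw [ins_same] at h2
    exact h2.trans h1
  have hcomp : IsCompact {s : ℝ | ins i s x ∈ K} :=
    Metric.isCompact_of_isClosed_isBounded hclosed hbdd
  have hconv : Convex ℝ {s : ℝ | ins i s x ∈ K} := by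
    intro s hs t ht a b ha hb hab
    change ins i (a • s + b • t) x ∈ K
    have h1 := hK.conv hs ht ha hb hab
    rw [ins_smul, ins_smul, ins_add, ← add_smul, hab, one_smul] at h1
    exact h1
  have hJ : {s : ℝ | ins i s x ∈ stein i K} =
      {r : ℝ | ∃ s t : ℝ, ins i s x ∈ K ∧ ins i t x ∈ K ∧ r = (s - t) / 2} := by
    ext r
    constructor
    · rintro ⟨s, t, y, hs, ht, hr⟩
      obtain ⟨h1, h2⟩ := ins_inj hr
      subst h2
      exact ⟨s, t, hs, ht, h1⟩
    · rintro ⟨s, t, hs, ht, hr⟩
      exact ⟨s, t, x, hs, ht, by rw [hr]⟩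
  rw [hJ]
  rcases Set.eq_empty_or_nonempty {s : ℝ | ins i s x ∈ K} with he | hne
  · have hn : ∀ s : ℝ, ins i s x ∉ K := fun s hs => by
      have : s ∈ {s : ℝ | ins i s x ∈ K} := hs
      rw [he] at this
      exact this
    have hJe : {r : ℝ | ∃ s t : ℝ, ins i s x ∈ K ∧ ins i t x ∈ K ∧ r = (s - t) / 2} = ∅ := by
      ext r
      simp only [Set.mem_setOf_eq, Set.mem_empty_iff_false, iff_false]
      rintro ⟨s, t, hs, _, _⟩
      exact hn s hs
    rw [hJe, he]
  · obtain ⟨α, hα, hαmin⟩ := hcomp.exists_isMinOn hne continuousOn_id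
    obtain ⟨β, hβ, hβmax⟩ := hcomp.exists_isMaxOn hne continuousOn_id
    have hαmin' : ∀ s, ins i s x ∈ K → α ≤ s := fun s hs => hαmin hs
    have hβmax' : ∀ s, ins i s x ∈ K → s ≤ β := fun s hs => hβmax hs
    have hαβ : α ≤ β := hαmin' β hβ
    have hI : {s : ℝ | ins i s x ∈ K} = Set.Icc α β := by
      apply Set.Subset.antisymm
      · intro s hs
        exact ⟨hαmin' s hs, hβmax' s hs⟩
      · rw [← segment_eq_Icc hαβ]
        exact hconv.segment_subset hα hβ
    have hJI : {r : ℝ | ∃ s t : ℝ, ins i s x ∈ K ∧ ins i t x ∈ K ∧ r = (s - t) / 2} =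
        Set.Icc (-((β - α) / 2)) ((β - α) / 2) := by
      apply Set.Subset.antisymm
      · rintro r ⟨s, t, hs, ht, rfl⟩
        have h1 := hαmin' s hs
        have h2 := hβmax' s hs
        have h3 := hαmin' t ht
        have h4 := hβmax' t ht
        constructor <;> linarith
      · intro r hr
        refine ⟨(α + β) / 2 + r, (α + β) / 2 - r, ?_, ?_, by ring⟩
        · have : (α + β) / 2 + r ∈ Set.Icc α β := by
            constructor <;> linarith [hr.1, hr.2]
          rw [← hI] at this
          exact this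
        · have : (α + β) / 2 - r ∈ Set.Icc α β := by
            constructor <;> linarith [hr.1, hr.2]
          rw [← hI] at this
          exact this
    rw [hJI, hI, Real.volume_Icc, Real.volume_Icc]
    congr 1
    ring

end VR29

end
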