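import Pool.Agent.Lib.VR29.VRMain
import Pool.Agent.Lib.VR29.NucBody
import Pool.Agent.Lib.VR29.NucCov

/-!
# VRFin: volume ratio of the images of the nuclear ball, from the colouring theorem
-/

set_option autoImplicit false

open MeasureTheory Set

open scoped ENNReal NNReal

noncomputable section

namespace VR29

/-- the colouring property with constant `C` -/
def Colouring (C : ℝ) : Prop :=
  ∀ k d : ℕ, 1 ≤ k → k ≤ d → ∀ A : Fin k → Matrix (Fin d) (Fin d) ℝ, (∀ i, Contr (A i)) →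
    ∀ x : Fin k → ℝ, (∀ i, |x i| ≤ 1) → ∃ z : Fin k → ℝ, (∀ i, z i = 1 ∨ z i = -1) ∧
      ∀ v : EuclideanSpace ℝ (Fin d), ‖Matrix.toEuclideanLin (∑ i, (x i - z i) • A i) v‖ ≤
        C * Real.sqrt (k * (1 + Real.log (d / k))) * ‖v‖

namespace VRFinAux

theorem vrIn_le {V : Type*} [NormedAddCommGroup V] [InnerProductSpace ℝ V]
    [FiniteDimensional ℝ V] [MeasurableSpace V] [BorelSpace V] (K : Set V) (r : ℝ)
    (h : ∃ T : V ≃ₗ[ℝ] V, ellipsoid 0 T ⊆ K ∧
      (volume.real K / volume.real (ellipsoid (0 : V) T)) ^ (1 / (Module.finrank ℝ V : ℝ)) ≤ r) :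
    volumeRatioIn K ≤ r := by
  obtain ⟨T, hT, hr⟩ := h
  refine le_trans (csInf_le ?_ ⟨0, T, hT, rfl⟩) hr
  refine ⟨0, ?_⟩
  rintro _ ⟨c, T, _, rfl⟩
  positivity

/-- the map, seen as a surjection onto the span of the image -/
theorem exists_surj {d : ℕ} (M : Matrix (Fin d) (Fin d) ℝ →ₗ[ℝ] EuclideanSpace ℝ (Fin d)) :
    ∃ L : Matrix (Fin d) (Fin d) ℝ →ₗ[ℝ] Submodule.span ℝ (M '' nuclearBall d),
      Function.Surjective L ∧ onSpan (M '' nuclearBall d) = L '' nuclearBall d := by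
  have hsp := nimg_span M
  have hmem : ∀ X, M X ∈ Submodule.span ℝ (M '' nuclearBall d) := by
    intro X
    rw [hsp]
    exact ⟨X, rfl⟩
  refine ⟨LinearMap.codRestrict _ M hmem, ?_, ?_⟩
  · rintro ⟨y, hy⟩
    have hy' := hy
    rw [hsp] at hy'
    obtain ⟨X, hX⟩ := hy'
    exact ⟨X, Subtype.ext hX⟩
  · ext ⟨y, hy⟩
    constructor
    · rintro ⟨X, hX, hXy⟩
      exact ⟨X, hX, Subtype.ext hXy⟩
    · rintro ⟨X, hX, hXy⟩
      exact ⟨X, hX, congrArg Subtype.val hXy⟩

end VRFinAux

open VRFinAux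

theorem vr_rank {C : ℝ} (hC : 1 ≤ C) (hcol : Colouring C) (d k : ℕ)
    (M : Matrix (Fin d) (Fin d) ℝ →ₗ[ℝ] EuclideanSpace ℝ (Fin d)) (hk : 1 ≤ k)
    (hM : Module.finrank ℝ (LinearMap.range M) = k) :
    volumeRatio (M '' nuclearBall d) ≤
      7 * C * Real.sqrt (min (k : ℝ) (1 + Real.log (d / k))) := by
  obtain ⟨L, hL, hLK⟩ := exists_surj M
  have hfr : Module.finrank ℝ (Submodule.span ℝ (M '' nuclearBall d)) = k := by
    rw [nimg_span M, hM]
  have hkd : k ≤ d := by
    rw [← hM]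
    calc Module.finrank ℝ (LinearMap.range M) ≤ Module.finrank ℝ (EuclideanSpace ℝ (Fin d)) :=
          Submodule.finrank_le _
      _ = d := finrank_euclideanSpace_fin
  have hk0 : (0 : ℝ) < k := by exact_mod_cast hk
  have hsk : 0 < Real.sqrt k := Real.sqrt_pos.mpr hk0
  have hlog : 0 ≤ Real.log ((d : ℝ) / k) := by
    apply Real.log_nonneg
    rw [le_div_iff₀ hk0, one_mul]
    exact_mod_cast hkd
  have hK := nimg_body L hL
  unfold volumeRatio
  rw [hLK]
  rcases le_total (k : ℝ) (1 + Real.log (d / k)) with h | h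
  · rw [min_eq_left h]
    refine (vrIn_le _ (2 * Real.sqrt k) ?_).trans ?_
    · rw [hfr]
      exact vr_triv _ hK k hfr hk
    · have : (2 : ℝ) ≤ 7 * C := by linarith
      exact mul_le_mul_of_nonneg_right this hsk.le
  · rw [min_eq_right h]
    set R := C * Real.sqrt (k * (1 + Real.log (d / k))) with hR
    have hR0 : 0 < R := by positivity
    refine (vrIn_le _ (7 * R / Real.sqrt k) ?_).trans (le_of_eq ?_)
    · rw [hfr]
      exact vr_cov _ hK k hfr hk R hR0
        (nimg_cov L k R hR0.le (fun A hA x hx => hcol k d hk hkd A hA x hx))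
    · rw [hR, Real.sqrt_mul hk0.le]
      field_simp

theorem vr_surj {C : ℝ} (hC : 1 ≤ C) (hcol : Colouring C) (d : ℕ)
    (M : Matrix (Fin d) (Fin d) ℝ →ₗ[ℝ] EuclideanSpace ℝ (Fin d)) (hM : Function.Surjective M) :
    volumeRatio (M '' nuclearBall d) ≤ 7 * C := by
  rcases Nat.eq_zero_or_pos d with h0 | hd
  · subst h0
    obtain ⟨L, hL, hLK⟩ := exists_surj M
    have hfr : Module.finrank ℝ (Submodule.span ℝ (M '' nuclearBall 0)) = 0 := by
      have h1 : Module.finrank ℝ (Submodule.span ℝ (M '' nuclearBall 0)) ≤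
          Module.finrank ℝ (EuclideanSpace ℝ (Fin 0)) := Submodule.finrank_le _
      rw [finrank_euclideanSpace_fin] at h1
      omega
    unfold volumeRatio
    refine vrIn_le _ _ ⟨LinearEquiv.refl ℝ _, ?_, ?_⟩
    · intro x _
      rw [hLK]
      have hs : Subsingleton (Submodule.span ℝ (M '' nuclearBall 0)) :=
        Module.finrank_zero_iff.mp hfr
      have h0 : (0 : Submodule.span ℝ (M '' nuclearBall 0)) ∈ L '' nuclearBall 0 :=
        mem_of_mem_nhds (nimg_body L hL).nhd
      rwa [Subsingleton.elim x 0]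
    · rw [hfr]
      simp only [Nat.cast_zero, div_zero, Real.rpow_zero]
      linarith
  · have hr : Module.finrank ℝ (LinearMap.range M) = d := by
      rw [LinearMap.range_eq_top.mpr hM, finrank_top, finrank_euclideanSpace_fin]
    refine (vr_rank hC hcol d d M hd hr).trans ?_
    have hd0 : (0 : ℝ) < d := by exact_mod_cast hd
    have h1 : Real.sqrt (min (d : ℝ) (1 + Real.log (d / d))) ≤ 1 := by
      rw [Real.sqrt_le_left (by norm_num)]
      refine (min_le_right _ _).trans ?_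
      rw [div_self hd0.ne', Real.log_one]
      norm_num
    calc 7 * C * Real.sqrt (min (d : ℝ) (1 + Real.log (d / d))) ≤ 7 * C * 1 :=
          mul_le_mul_of_nonneg_left h1 (by linarith)
      _ = 7 * C := mul_one _

end VR29

end
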