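import Pool.Agent.Lib.VR29.Ball
import Pool.Agent.Lib.VR29.DRMain
import Pool.Agent.Lib.VR29.CovVol
import Pool.Agent.Lib.VR29.SantV
import Pool.Agent.Lib.VR29.KPar

/-!
# VRMain: covering property implies a bound for the volume ratio
-/

set_option autoImplicit false

open MeasureTheory Set

open scoped ENNReal NNReal

noncomputable section

namespace VR29

variable {V : Type*} [NormedAddCommGroup V] [InnerProductSpace ℝ V] [FiniteDimensional ℝ V]
  [MeasurableSpace V] [BorelSpace V]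

namespace VRMainAux

omit [FiniteDimensional ℝ V] [MeasurableSpace V] [BorelSpace V] in
theorem ell_sub (K : Set V) (T : V ≃ₗ[ℝ] V) (hT : ∀ x, ‖x‖ ≤ 1 → T x ∈ K) :
    ellipsoid 0 T ⊆ K := by
  rintro _ ⟨x, hx, rfl⟩
  simp only [zero_add]
  exact hT x (by simpa using hx)

theorem root_le {k : ℕ} (hk : 1 ≤ k) {q B : ℝ} (hq : 0 ≤ q) (hB : 0 ≤ B) (h : q ≤ B ^ k) :
    q ^ (1 / (k : ℝ)) ≤ B := by
  have hk0 : (0 : ℝ) < k := by exact_mod_cast hk
  calc q ^ (1 / (k : ℝ)) ≤ (B ^ k) ^ (1 / (k : ℝ)) := Real.rpow_le_rpow hq h (by positivity)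
    _ = B := by
      rw [← Real.rpow_natCast, ← Real.rpow_mul hB, mul_one_div_cancel hk0.ne', Real.rpow_one]

theorem exp_half (k : ℕ) : Real.exp ((k : ℝ) / 2) = Real.sqrt (Real.exp 1) ^ k := by
  rw [Real.sqrt_eq_rpow, ← Real.exp_mul, ← Real.exp_nat_mul]
  congr 1
  ring

theorem const_le : Real.sqrt (Real.exp 1) * Real.sqrt (2 * Real.pi * Real.exp 1) ≤ 7 := by
  have he := Real.exp_one_lt_d9
  have hp := Real.pi_lt_d2
  have he0 := Real.exp_pos 1
  have hp0 := Real.pi_pos
  rw [← Real.sqrt_mul he0.le, Real.sqrt_le_left (by norm_num)]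
  have h1 : Real.exp 1 * Real.exp 1 ≤ 7.39 := by nlinarith
  have h2 : 0 ≤ Real.exp 1 * Real.exp 1 := by positivity
  nlinarith

end VRMainAux

open VRMainAux

theorem vr_cov (K : Set V) (hK : SBody K) (k : ℕ) (hk : Module.finrank ℝ V = k) (hk1 : 1 ≤ k)
    (R : ℝ) (hR : 0 < R) (hcov : Cov K k R) :
    ∃ T : V ≃ₗ[ℝ] V, ellipsoid 0 T ⊆ K ∧
      (volume.real K / volume.real (ellipsoid (0 : V) T)) ^ (1 / (k : ℝ)) ≤ 7 * R / Real.sqrt k := by
  have hk0 : (0 : ℝ) < k := by exact_mod_cast hk1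
  have hsk : 0 < Real.sqrt k := Real.sqrt_pos.mpr hk0
  let b : OrthonormalBasis (Fin k) ℝ V := (stdOrthonormalBasis ℝ V).reindex (finCongr hk)
  obtain ⟨T, hT, u, hu, hdet⟩ := dr_main K hK k hk b
  have hc := cov_vol K hK k b u R hR (hcov u hu)
  have hs := santaloV K hK
  have hball := ball_pos (V := V)
  have hbl := ball_volume_le (V := V) (by rw [hk]; exact hk1)
  rw [hk] at hbl
  set B := volume.real (Metric.closedBall (0 : V) 1) with hB
  have hs' : volume.real K * volume.real (PV K) ≤ B ^ 2 := by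
    have h1 := ENNReal.toReal_mono (ENNReal.pow_ne_top
      (isCompact_closedBall (0 : V) 1).measure_lt_top.ne) hs
    rw [ENNReal.toReal_mul, ENNReal.toReal_pow] at h1
    exact h1
  have hT0 : 0 < |LinearMap.det (T : V →ₗ[ℝ] V)| := by
    rw [abs_pos]
    exact (LinearEquiv.isUnit_det' T).ne_zero
  refine ⟨T, ell_sub K T hT, ?_⟩
  rw [ellipsoid_vol]
  refine root_le hk1 (by positivity) (by positivity) ?_
  rw [← hB, div_le_iff₀ (by positivity)]
  have hE : Real.exp (-(k : ℝ) / 2) * Real.exp ((k : ℝ) / 2) = 1 := by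
    rw [← Real.exp_add, show -(k : ℝ) / 2 + (k : ℝ) / 2 = 0 by ring, Real.exp_zero]
  set D := |LinearMap.det (T : V →ₗ[ℝ] V)| with hD
  have h1 : Real.exp (-(k : ℝ) / 2) * volume.real K ≤ D * R ^ k * B ^ 2 := by
    calc Real.exp (-(k : ℝ) / 2) * volume.real K
        ≤ (D * |b.toBasis.det u|) * volume.real K :=
          mul_le_mul_of_nonneg_right hdet measureReal_nonneg
      _ ≤ (D * (R ^ k * volume.real (PV K))) * volume.real K :=
          mul_le_mul_of_nonneg_right (mul_le_mul_of_nonneg_left hc hT0.le) measureReal_nonneg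
      _ = D * R ^ k * (volume.real K * volume.real (PV K)) := by ring
      _ ≤ D * R ^ k * B ^ 2 := mul_le_mul_of_nonneg_left hs' (by positivity)
  have h2 : volume.real K ≤ Real.exp ((k : ℝ) / 2) * (D * R ^ k * B ^ 2) := by
    calc volume.real K = Real.exp ((k : ℝ) / 2) * (Real.exp (-(k : ℝ) / 2) * volume.real K) := by
          rw [← mul_assoc, mul_comm (Real.exp ((k : ℝ) / 2)), hE, one_mul]
      _ ≤ _ := mul_le_mul_of_nonneg_left h1 (Real.exp_pos _).le
  refine h2.trans ?_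
  have h3 : Real.exp ((k : ℝ) / 2) * R ^ k * B ≤ (7 * R / Real.sqrt k) ^ k := by
    rw [exp_half]
    calc Real.sqrt (Real.exp 1) ^ k * R ^ k * B
        ≤ Real.sqrt (Real.exp 1) ^ k * R ^ k *
          Real.sqrt (2 * Real.pi * Real.exp 1 / (k : ℝ)) ^ k :=
          mul_le_mul_of_nonneg_left hbl (by positivity)
      _ = (Real.sqrt (Real.exp 1) * Real.sqrt (2 * Real.pi * Real.exp 1) * R / Real.sqrt k) ^ k := by
          rw [Real.sqrt_div (by positivity), ← mul_pow, ← mul_pow]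
          congr 1
          ring
      _ ≤ (7 * R / Real.sqrt k) ^ k := by
          apply pow_le_pow_left₀ (by positivity)
          apply div_le_div_of_nonneg_right _ hsk.le
          exact mul_le_mul_of_nonneg_right const_le hR.le
  calc Real.exp ((k : ℝ) / 2) * (D * R ^ k * B ^ 2)
      = (Real.exp ((k : ℝ) / 2) * R ^ k * B) * (D * B) := by ring
    _ ≤ (7 * R / Real.sqrt k) ^ k * (D * B) :=
      mul_le_mul_of_nonneg_right h3 (by positivity)

theorem vr_triv (K : Set V) (hK : SBody K) (k : ℕ) (hk : Module.finrank ℝ V = k) (hk1 : 1 ≤ k) :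
    ∃ T : V ≃ₗ[ℝ] V, ellipsoid 0 T ⊆ K ∧
      (volume.real K / volume.real (ellipsoid (0 : V) T)) ^ (1 / (k : ℝ)) ≤ 2 * Real.sqrt k := by
  have hk0 : (0 : ℝ) < k := by exact_mod_cast hk1
  have hsk : 0 < Real.sqrt k := Real.sqrt_pos.mpr hk0
  let b : OrthonormalBasis (Fin k) ℝ V := (stdOrthonormalBasis ℝ V).reindex (finCongr hk)
  obtain ⟨T, hT, u, hu, hdet⟩ := dr_main K hK k hk b
  have hpar := k_par K hK k b u hu
  have hball := ball_pos (V := V)
  have hbg := ball_volume_ge (V := V) hk1 b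
  set B := volume.real (Metric.closedBall (0 : V) 1) with hB
  have hT0 : 0 < |LinearMap.det (T : V →ₗ[ℝ] V)| := by
    rw [abs_pos]
    exact (LinearEquiv.isUnit_det' T).ne_zero
  refine ⟨T, ell_sub K T hT, ?_⟩
  rw [ellipsoid_vol]
  refine root_le hk1 (by positivity) (by positivity) ?_
  rw [← hB, div_le_iff₀ (by positivity)]
  have hE : Real.exp (-(k : ℝ) / 2) * Real.exp ((k : ℝ) / 2) = 1 := by
    rw [← Real.exp_add, show -(k : ℝ) / 2 + (k : ℝ) / 2 = 0 by ring, Real.exp_zero]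
  set D := |LinearMap.det (T : V →ₗ[ℝ] V)| with hD
  have h1 : Real.exp (-(k : ℝ) / 2) * volume.real K ≤ D * 2 ^ k := by
    calc Real.exp (-(k : ℝ) / 2) * volume.real K
        ≤ (D * |b.toBasis.det u|) * volume.real K :=
          mul_le_mul_of_nonneg_right hdet measureReal_nonneg
      _ = D * (|b.toBasis.det u| * volume.real K) := by ring
      _ ≤ D * 2 ^ k := mul_le_mul_of_nonneg_left hpar hT0.le
  have h2 : volume.real K ≤ Real.exp ((k : ℝ) / 2) * (D * 2 ^ k) := by
    calc volume.real K = Real.exp ((k : ℝ) / 2) * (Real.exp (-(k : ℝ) / 2) * volume.real K) := by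
          rw [← mul_assoc, mul_comm (Real.exp ((k : ℝ) / 2)), hE, one_mul]
      _ ≤ _ := mul_le_mul_of_nonneg_left h1 (Real.exp_pos _).le
  refine h2.trans ?_
  have hse : Real.sqrt (Real.exp 1) ≤ 2 := by
    rw [Real.sqrt_le_left (by norm_num)]
    have := Real.exp_one_lt_d9
    linarith
  have h3 : Real.exp ((k : ℝ) / 2) * 2 ^ k ≤ (2 * Real.sqrt k) ^ k * B := by
    calc Real.exp ((k : ℝ) / 2) * 2 ^ k = (Real.sqrt (Real.exp 1) * 2) ^ k := by
          rw [exp_half, mul_pow]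
      _ ≤ (2 * 2) ^ k := by
          apply pow_le_pow_left₀ (by positivity)
          exact mul_le_mul_of_nonneg_right hse (by norm_num)
      _ = (2 * Real.sqrt k) ^ k * (2 / Real.sqrt k) ^ k := by
          rw [← mul_pow]
          congr 1
          field_simp
      _ ≤ (2 * Real.sqrt k) ^ k * B := mul_le_mul_of_nonneg_left hbg (by positivity)
  calc Real.exp ((k : ℝ) / 2) * (D * 2 ^ k) = D * (Real.exp ((k : ℝ) / 2) * 2 ^ k) := by ring
    _ ≤ D * ((2 * Real.sqrt k) ^ k * B) := mul_le_mul_of_nonneg_left h3 hT0.le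
    _ = (2 * Real.sqrt k) ^ k * (D * B) := by ring

end VR29

end
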